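import Pool.Agent.W429.TCI.C.Check0
set_option autoImplicit false
set_option maxRecDepth 100000

namespace Pool.Agent.W429.TCI.C
open Pool.Agent.Helper805.NucCert Pool.Agent.Helper805.NucCert.Tri

theorem check2 : isZ (ch2 All) = true := by decide +kernel

end Pool.Agent.W429.TCI.C
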