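import Pool.Agent.W429.TCI.C.Stmts
import Pool.Agent.W429.TCI.C.CheckP0
import Pool.Agent.W429.TCI.C.CheckP1
import Pool.Agent.W429.TCI.C.CheckP2
import Pool.Agent.W429.TCI.C.CheckP3
set_option autoImplicit false

/-! The certificate theorem. -/

namespace Pool.Agent.W429.TCI.C
open Pool.Agent.Helper805.Nuc.Tens Pool.Agent.Helper805.Nuc.Free Pool.Agent.Helper805.Nuc.NFun
  Pool.Agent.Helper805.NucCert Pool.Agent.Helper805.NucCert.Tri Pool.Agent.W429.TCI

theorem checkAll : isZ All = true :=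
  isZ_of All (by decide +kernel) check0 check1 check2 check3

theorem rels_L (p : FS → Prop) (h1 : p nfL) (h2 : p phL) : ∀ r ∈ Data.rels, p r.L := by
  unfold Data.rels
  repeat (first
    | exact List.forall_mem_nil _
    | refine List.forall_mem_cons.2 ⟨by first | exact h1 | exact h2, ?_⟩)

variable {R : Type} [NonUnitalNonAssocRing R] {P : ℕ → AddSubgroup R} {x z : R}
variable (hP : SuperAlt R P) (hx : x ∈ P 1) (hz : z ∈ P 1)
include hP hx hz

theorem Tgt_sound : ∃ g : ℕ → R → R, Op P x z Tgt 7 g ∧ ∀ y, g 0 y = as (jo (as x x x) (as x x y)) z z := by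
  have hl : Op P x z ly 1 (fun e m => ((-1 : ℤ) ^ (e * 1)) • (x * m)) := (RL_sound hP hx hz .x).2
  have h2 := (RL_sound hP hx hz t2).2.add (hl.mul hl)
  have h3 := (RpL_sound hP hx hz (.m t2 .x)).sub (RpL_sound hP hx hz (.m .x t2))
  have h4 := (h2.mul h3).mul (Zz_sound hP hx hz)
  refine ⟨_, h4, fun y => ?_⟩
  simp only [Tr.deg, Tr.val, t2]
  norm_num
  unfold jo as
  simp only [mul_add, add_mul, mul_sub, sub_mul, smul_add, smul_sub, mul_neg, neg_mul, smul_neg, smul_smul]
  abel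

omit hP hx hz in
theorem cert (h2 : S_C2) : S_Cert := by
  intro R _ P hP hnf hph x hx y hy z hz
  obtain ⟨g, hg, hT⟩ := Tgt_sound hP hx hz
  have hf : Addi (fun (_ : ℕ) (m : R) => m) := fun _ _ _ => rfl
  have h1 := ev_isZ x z (fun _ m => m) _ checkAll 0 y
  have hr := (h2 R P x z hP hx hz).2 Data.rels (rels_L (SRel P) hnf hph) _ hf y hy
  unfold All at h1
  rw [ev_add, ev_add, total_sound hP hx hz Data.cert _ hf 0 y hy, hr, add_zero, add_zero, ev_smul,
    hg.eval _ hf 0 y hy] at h1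
  rw [← hT]
  exact h1

end Pool.Agent.W429.TCI.C
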