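import Pool.Agent.W429.TCI.C.Data
import Pool.Agent.Helper805.NucCert.Target
set_option autoImplicit false

/-! The polynomial to be checked. -/

namespace Pool.Agent.W429.TCI.C
open Pool.Agent.Helper805.NucCert Pool.Agent.Helper805.NucCert.Tri

/-- `m ↦ (x,x,m)` -/
noncomputable def Wx : Tri := Tri.add (Lp t2) (Tri.mul ly ly)
/-- `m ↦ ζ ∘ m`, `ζ = (x,x,x)` -/
noncomputable def Wz : Tri := Pool.Agent.Helper805.NucCert.sub (RpL (.m t2 .x)) (RpL (.m .x t2))
/-- `m ↦ (ζ ∘ (x,x,m), z, z)` -/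
noncomputable def Tgt : Tri := Tri.mul Zz (Tri.mul Wz Wx)

/-- everything -/
noncomputable def All : Tri :=
  Tri.add (Tri.smul (.ofNat 82944) Tgt) (Tri.add (total Data.cert) (RIs Data.rels))

/-- children -/
noncomputable def ch0 (t : Tri) : Tri := Tri.rec .nil (fun _ a _ _ _ _ _ _ _ => a) t
noncomputable def ch1 (t : Tri) : Tri := Tri.rec .nil (fun _ _ b _ _ _ _ _ _ => b) t
noncomputable def ch2 (t : Tri) : Tri := Tri.rec .nil (fun _ _ _ c _ _ _ _ _ => c) t
noncomputable def ch3 (t : Tri) : Tri := Tri.rec .nil (fun _ _ _ _ d _ _ _ _ => d) t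
noncomputable def ck (t : Tri) : ℤ := Tri.rec (.ofNat 0) (fun k _ _ _ _ _ _ _ _ => k) t

theorem isZ_of (t : Tri) (hk : isz (ck t) = true) (h0 : isZ (ch0 t) = true) (h1 : isZ (ch1 t) = true)
    (h2 : isZ (ch2 t) = true) (h3 : isZ (ch3 t) = true) : isZ t = true := by
  cases t with
  | nil => rfl
  | node k a b c d =>
    have e0 : isZ a = true := h0
    have e1 : isZ b = true := h1
    have e2 : isZ c = true := h2
    have e3 : isZ d = true := h3
    have ek : isz k = true := hk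
    rw [isZ_node, ek, e0, e1, e2, e3]; rfl

end Pool.Agent.W429.TCI.C
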