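import Pool.Agent.W429.TCI.C.Idts
set_option autoImplicit false
set_option maxRecDepth 100000

/-! Certificate data (found by computer): skew-symmetry relations and instances of the two identities. -/

namespace Pool.Agent.W429.TCI.C.Data
open Pool.Agent.Helper805.NucCert Pool.Agent.W429.TCI.C

/-- constant polynomial -/
@[reducible] def K (k : ℤ) : Tri := .node k .nil .nil .nil .nil

def T2 : Tr := (.m .x .x)
def T3 : Tr := (.m .x .z)
def T4 : Tr := (.m .z .x)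
def T5 : Tr := (.m .z .z)
def T6 : Tr := (.m (.m .x .x) .x)
def T7 : Tr := (.m (.m .x .x) .z)
def T8 : Tr := (.m (.m .x .z) .x)
def T9 : Tr := (.m (.m .x .z) .z)
def T10 : Tr := (.m (.m .z .x) .x)
def T11 : Tr := (.m (.m .z .x) .z)
def T12 : Tr := (.m .x (.m .x .x))
def T13 : Tr := (.m .z (.m .x .x))
def T14 : Tr := (.m .z (.m .x .z))
def T15 : Tr := (.m .z (.m .z .x))
def T16 : Tr := (.m (.m (.m .x .z) .z) .x)
def T17 : Tr := (.m (.m (.m .z .x) .z) .x)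

def c_rrr : Cert := (.node [⟨.x, .z, (.node (.ofNat 0) (.node (.ofNat 0) .nil .nil (K (.negSucc 4283753)) (K (.ofNat 11465367))) (.node (.ofNat 0) .nil .nil (K (.negSucc 22991939)) (K (.ofNat 40391361))) (.node (.ofNat 0) (K (.ofNat 14483265)) (K (.negSucc 14063891)) .nil .nil) (.node (.ofNat 0) (K (.ofNat 26233857)) (K (.negSucc 31479011)) .nil .nil))⟩,
  ⟨T3, .x, (.node (.ofNat 0) .nil .nil (K (.negSucc 19322096)) (K (.ofNat 6136158)))⟩,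
  ⟨T3, .z, (.node (.ofNat 0) (K (.ofNat 79448535)) (K (.ofNat 96830332)) .nil .nil)⟩,
  ⟨T4, .x, (.node (.ofNat 0) .nil .nil (K (.ofNat 16330461)) (K (.ofNat 8889741)))⟩,
  ⟨T5, .x, (.node (.ofNat 0) (K (.negSucc 3238652)) (K (.negSucc 12008960)) .nil .nil)⟩,
  ⟨T9, .x, (K (.negSucc 697124))⟩,
  ⟨T3, T3, (K (.ofNat 25678101))⟩,
  ⟨T14, .x, (K (.negSucc 15145997))⟩,
  ⟨T15, .x, (K (.ofNat 8828013))⟩,
  ⟨T4, T3, (K (.negSucc 28120472))⟩,
  ⟨T4, T4, (K (.ofNat 14094435))⟩] (.node [⟨.x, .z, (.node (.ofNat 0) .nil .nil (K (.negSucc 8533025)) (K (.negSucc 29366195)))⟩,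
  ⟨T3, .z, (K (.negSucc 65313818))⟩,
  ⟨T5, .x, (K (.negSucc 31330082))⟩] .nil .nil (.node [⟨.x, .z, (K (.negSucc 13612397))⟩] .nil .nil .nil .nil) (.node [⟨.x, .z, (K (.ofNat 10280706))⟩] .nil .nil .nil .nil)) (.node [⟨.x, .z, (.node (.ofNat 0) .nil .nil (K (.negSucc 4995882)) (K (.ofNat 750220)))⟩,
  ⟨T3, .z, (K (.negSucc 31306761))⟩,
  ⟨T5, .x, (K (.negSucc 26305479))⟩] .nil .nil (.node [⟨.x, .z, (K (.negSucc 44056693))⟩] .nil .nil .nil .nil) (.node [⟨.x, .z, (K (.negSucc 16471321))⟩] .nil .nil .nil .nil)) (.node [⟨.x, .z, (.node (.ofNat 0) (K (.ofNat 39311460)) (K (.ofNat 75472567)) .nil .nil)⟩,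
  ⟨T3, .x, (K (.ofNat 48434139))⟩,
  ⟨T4, .x, (K (.negSucc 13825802))⟩] (.node [⟨.x, .z, (K (.ofNat 29002863))⟩] .nil .nil .nil .nil) (.node [⟨.x, .z, (K (.negSucc 38237213))⟩] .nil .nil .nil .nil) .nil .nil) (.node [⟨.x, .z, (.node (.ofNat 0) (K (.negSucc 29159369)) (K (.ofNat 3346806)) .nil .nil)⟩,
  ⟨T3, .x, (K (.negSucc 1297244))⟩] .nil (.node [⟨.x, .z, (K (.negSucc 31172588))⟩] .nil .nil .nil .nil) .nil .nil))
def c_rrl : Cert := (.node [⟨.x, .z, (.node (.ofNat 0) (.node (.ofNat 0) .nil .nil (K (.negSucc 368705297)) (K (.ofNat 12708373))) (.node (.ofNat 0) .nil .nil (K (.negSucc 16365336)) (K (.ofNat 386663010))) (.node (.ofNat 0) (K (.ofNat 399895440)) (K (.negSucc 10206270)) .nil .nil) (.node (.ofNat 0) (K (.ofNat 1667071)) (K (.negSucc 401952335)) .nil .nil))⟩,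
  ⟨T3, .x, (.node (.ofNat 0) .nil .nil (K (.negSucc 16780817)) (K (.ofNat 369599358)))⟩,
  ⟨T3, .z, (.node (.ofNat 0) (K (.ofNat 440666142)) (K (.negSucc 273465681)) .nil .nil)⟩,
  ⟨T4, .x, (.node (.ofNat 0) .nil .nil (K (.ofNat 370593576)) (K (.negSucc 619469)))⟩,
  ⟨T5, .x, (.node (.ofNat 0) (K (.ofNat 5822904)) (K (.negSucc 363436463)) .nil .nil)⟩,
  ⟨T9, .x, (K (.ofNat 3879162))⟩,
  ⟨T3, T3, (K (.ofNat 11095074))⟩,
  ⟨T14, .x, (K (.negSucc 10604525))⟩,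
  ⟨T15, .x, (K (.negSucc 2283839))⟩,
  ⟨T4, T3, (K (.negSucc 4394705))⟩,
  ⟨T4, T4, (K (.ofNat 6507816))⟩] (.node [⟨.x, .z, (.node (.ofNat 0) .nil .nil (K (.negSucc 32619699)) (K (.negSucc 385381645)))⟩,
  ⟨T3, .z, (K (.negSucc 409435965))⟩,
  ⟨T5, .x, (K (.negSucc 388244307))⟩] .nil .nil (.node [⟨.x, .z, (K (.negSucc 29784709))⟩] .nil .nil .nil .nil) (.node [⟨.x, .z, (K (.ofNat 399902583))⟩] .nil .nil .nil .nil)) (.node [⟨.x, .z, (.node (.ofNat 0) .nil .nil (K (.ofNat 343797218)) (K (.negSucc 8343103)))⟩,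
  ⟨T3, .z, (K (.ofNat 354315578))⟩,
  ⟨T5, .x, (K (.negSucc 20273601))⟩] .nil .nil (.node [⟨.x, .z, (K (.negSucc 430312050))⟩] .nil .nil .nil .nil) (.node [⟨.x, .z, (K (.negSucc 1298779))⟩] .nil .nil .nil .nil)) (.node [⟨.x, .z, (.node (.ofNat 0) (K (.ofNat 288480193)) (K (.ofNat 596669922)) .nil .nil)⟩,
  ⟨T3, .x, (K (.ofNat 356325427))⟩,
  ⟨T4, .x, (K (.negSucc 371585057))⟩] (.node [⟨.x, .z, (K (.negSucc 295076436))⟩] .nil .nil .nil .nil) (.node [⟨.x, .z, (K (.negSucc 438567154))⟩] .nil .nil .nil .nil) .nil .nil) (.node [⟨.x, .z, (.node (.ofNat 0) (K (.negSucc 18633492)) (K (.ofNat 380231212)) .nil .nil)⟩,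
  ⟨T3, .x, (K (.negSucc 12079240))⟩] .nil (.node [⟨.x, .z, (K (.negSucc 32812655))⟩] .nil .nil .nil .nil) .nil .nil))
def c_rrp : Cert := (.node [⟨.x, .z, (.node (.ofNat 0) (.node (.ofNat 0) (K (.ofNat 29643294)) (K (.ofNat 42206518)) .nil .nil) (.node (.ofNat 0) (K (.ofNat 12940146)) (K (.negSucc 5009475)) .nil .nil) .nil .nil)⟩,
  ⟨T3, .x, (.node (.ofNat 0) (K (.negSucc 48890879)) (K (.negSucc 93838917)) .nil .nil)⟩,
  ⟨T4, .x, (.node (.ofNat 0) (K (.ofNat 741708)) (K (.ofNat 11665392)) .nil .nil)⟩,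
  ⟨T2, T3, (K (.negSucc 20869289))⟩,
  ⟨T2, T4, (K (.negSucc 5657957))⟩] (.node [⟨.x, .z, (.node (.ofNat 0) (K (.negSucc 41827589)) (K (.negSucc 78264161)) .nil .nil)⟩,
  ⟨T3, .x, (K (.negSucc 20304047))⟩,
  ⟨T4, .x, (K (.ofNat 5890068))⟩] (.node [⟨.x, .z, (K (.ofNat 6166350))⟩] .nil .nil .nil .nil) (.node [⟨.x, .z, (K (.negSucc 30560993))⟩] .nil .nil .nil .nil) .nil .nil) (.node [⟨.x, .z, (.node (.ofNat 0) (K (.ofNat 431379831)) (K (.ofNat 402198624)) .nil .nil)⟩,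
  ⟨T3, .x, (K (.negSucc 49838160))⟩,
  ⟨T4, .x, (K (.negSucc 494050291))⟩] (.node [⟨.x, .z, (K (.negSucc 460707524))⟩] .nil .nil .nil .nil) (.node [⟨.x, .z, (K (.ofNat 4361808))⟩] .nil .nil .nil .nil) .nil .nil) .nil .nil)
def c_rrq : Cert := (.node [⟨.x, .z, (.node (.ofNat 0) (.node (.ofNat 0) (K (.ofNat 9091764)) (K (.ofNat 11320530)) .nil .nil) (.node (.ofNat 0) (K (.ofNat 2263320)) (K (.negSucc 6561143)) .nil .nil) .nil .nil)⟩,
  ⟨T3, .x, (.node (.ofNat 0) (K (.negSucc 16282343)) (K (.negSucc 22437463)) .nil .nil)⟩,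
  ⟨T2, T3, (K (.ofNat 4114926))⟩,
  ⟨T2, T4, (K (.negSucc 21550487))⟩] .nil (.node [⟨.x, .z, (.node (.ofNat 0) (K (.negSucc 98896713)) (K (.negSucc 188524243)) .nil .nil)⟩,
  ⟨T3, .x, (K (.negSucc 11010125))⟩,
  ⟨T4, .x, (K (.negSucc 5434919))⟩] (.node [⟨.x, .z, (K (.ofNat 73910182))⟩] .nil .nil .nil .nil) (.node [⟨.x, .z, (K (.negSucc 6608735))⟩] .nil .nil .nil .nil) .nil .nil) .nil .nil)
def c_rr : Cert := (.node [⟨.x, .z, (.node (.ofNat 0) (.node (.ofNat 0) (.node (.ofNat 0) .nil .nil (K (.ofNat 3490344)) (K (.negSucc 19772002))) (.node (.ofNat 0) .nil .nil (K (.ofNat 421033750)) (K (.ofNat 351340458))) (.node (.ofNat 0) (K (.negSucc 19217069)) (K (.ofNat 367597867)) .nil .nil) (.node (.ofNat 0) (K (.negSucc 22212707)) (K (.ofNat 15510489)) .nil .nil)) (.node (.ofNat 0) (.node (.ofNat 0) .nil .nil (K (.ofNat 40546619)) (K (.ofNat 364003290))) (.node (.ofNat 0) .nil .nil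 (K (.ofNat 49608863)) (K (.negSucc 28204445))) (.node (.ofNat 0) (K (.negSucc 10816239)) (K (.negSucc 327046049)) .nil .nil) (.node (.ofNat 0) (K (.ofNat 985896)) (K (.ofNat 707682)) .nil .nil)) (.node (.ofNat 0) (.node (.ofNat 0) (K (.negSucc 9320087)) (K (.negSucc 357733337)) .nil .nil) (.node (.ofNat 0) (K (.negSucc 389601993)) (K (.negSucc 357518440)) .nil .nil) .nil .nil) (.node (.ofNat 0) (.node (.ofNat 0) (K (.ofNat 10122743)) (K (.negSucc 35966419)) .nil .nil) (.node (.ofNat 0) (K (.negSucc 34561252)) (K (.ofNat 18218306)) .nil .nil) .nil .nil))⟩,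
  ⟨T3, .x, (.node (.ofNat 0) (.node (.ofNat 0) .nil .nil (K (.ofNat 32247492)) (K (.negSucc 19101573))) (.node (.ofNat 0) .nil .nil (K (.ofNat 67562206)) (K (.negSucc 17677457))) (.node (.ofNat 0) (K (.ofNat 33100340)) (K (.ofNat 74852854)) .nil .nil) (.node (.ofNat 0) .nil (K (.ofNat 76461708)) .nil .nil))⟩,
  ⟨T3, .z, (.node (.ofNat 0) (.node (.ofNat 0) (K (.ofNat 86041845)) (K (.ofNat 79145822)) .nil .nil) (.node (.ofNat 0) (K (.ofNat 12818823)) (K (.negSucc 2480611)) .nil .nil) .nil .nil)⟩,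
  ⟨T4, .x, (.node (.ofNat 0) (.node (.ofNat 0) .nil .nil (K (.negSucc 20234213)) (K (.negSucc 3914979))) (.node (.ofNat 0) .nil .nil (K (.negSucc 12840133)) (K (.negSucc 10436411))) (.node (.ofNat 0) (K (.ofNat 9886574)) (K (.negSucc 16200411)) .nil .nil) (.node (.ofNat 0) .nil (K (.negSucc 2814753)) .nil .nil))⟩,
  ⟨T5, .x, (.node (.ofNat 0) (.node (.ofNat 0) (K (.ofNat 2919821)) (K (.negSucc 16093207)) .nil .nil) (.node (.ofNat 0) (K (.negSucc 33150274)) (K (.negSucc 46751247)) .nil .nil) .nil .nil)⟩,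
  ⟨T8, .x, (.node (.ofNat 0) .nil .nil (K (.ofNat 13744836)) (K (.ofNat 17121468)))⟩,
  ⟨T9, .x, (.node (.ofNat 0) (K (.ofNat 18627054)) (K (.ofNat 24471098)) .nil .nil)⟩,
  ⟨T10, .x, (.node (.ofNat 0) .nil .nil (K (.negSucc 12924887)) (K (.negSucc 6231419)))⟩,
  ⟨T2, T3, (.node (.ofNat 0) .nil .nil (K (.negSucc 12905699)) (K (.negSucc 2844917)))⟩,
  ⟨T2, T4, (.node (.ofNat 0) .nil .nil (K (.ofNat 3806946)) (K (.negSucc 11817953)))⟩,
  ⟨T3, T3, (.node (.ofNat 0) (K (.negSucc 20195207)) (K (.negSucc 51436675)) .nil .nil)⟩,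
  ⟨T14, .x, (.node (.ofNat 0) (K (.ofNat 36985074)) (K (.ofNat 60626416)) .nil .nil)⟩,
  ⟨T15, .x, (.node (.ofNat 0) (K (.ofNat 1019022)) (K (.negSucc 6206777)) .nil .nil)⟩,
  ⟨T4, T3, (.node (.ofNat 0) (K (.ofNat 22423602)) (K (.ofNat 70344010)) .nil .nil)⟩,
  ⟨T4, T4, (.node (.ofNat 0) (K (.ofNat 1934982)) (K (.negSucc 8172401)) .nil .nil)⟩,
  ⟨T8, T3, (K (.negSucc 9804581))⟩,
  ⟨T8, T4, (K (.ofNat 7737210))⟩,
  ⟨T9, T2, (K (.negSucc 5135237))⟩,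
  ⟨T10, T3, (K (.ofNat 6933330))⟩,
  ⟨T11, T2, (K (.ofNat 11508228))⟩,
  ⟨T14, T2, (K (.ofNat 18774810))⟩,
  ⟨T15, T2, (K (.ofNat 5670558))⟩] c_rrr c_rrl c_rrp c_rrq)
def c_rlr : Cert := (.node [⟨.x, .z, (.node (.ofNat 0) (.node (.ofNat 0) .nil .nil (K (.negSucc 236164735)) (K (.negSucc 10558001))) (.node (.ofNat 0) .nil .nil (K (.ofNat 13864566)) (K (.ofNat 265298660))) (.node (.ofNat 0) (K (.ofNat 255762512)) (K (.ofNat 18613908)) .nil .nil) (.node (.ofNat 0) (K (.negSucc 21686777)) (K (.negSucc 280376965)) .nil .nil))⟩,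
  ⟨T3, .x, (.node (.ofNat 0) .nil .nil (K (.negSucc 11224439)) (K (.ofNat 253642040)))⟩,
  ⟨T3, .z, (.node (.ofNat 0) (K (.ofNat 248615468)) (K (.negSucc 258689846)) .nil .nil)⟩,
  ⟨T4, .x, (.node (.ofNat 0) .nil .nil (K (.ofNat 255765974)) (K (.ofNat 1002192)))⟩,
  ⟨T5, .x, (.node (.ofNat 0) (K (.negSucc 4256201)) (K (.negSucc 254858158)) .nil .nil)⟩,
  ⟨T9, .x, (K (.ofNat 9901044))⟩,
  ⟨T3, T3, (K (.ofNat 8943228))⟩,
  ⟨T14, .x, (K (.ofNat 2825100))⟩,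
  ⟨T15, .x, (K (.negSucc 1485737))⟩,
  ⟨T4, T3, (K (.negSucc 2816279))⟩,
  ⟨T4, T4, (K (.ofNat 8353224))⟩] (.node [⟨.x, .z, (.node (.ofNat 0) .nil .nil (K (.negSucc 380497)) (K (.negSucc 257758811)))⟩,
  ⟨T3, .z, (K (.negSucc 277137441))⟩,
  ⟨T5, .x, (K (.negSucc 265415151))⟩] .nil .nil (.node [⟨.x, .z, (K (.ofNat 23546078))⟩] .nil .nil .nil .nil) (.node [⟨.x, .z, (K (.ofNat 271297528))⟩] .nil .nil .nil .nil)) (.node [⟨.x, .z, (.node (.ofNat 0) .nil .nil (K (.ofNat 253205768)) (K (.negSucc 8786543)))⟩,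
  ⟨T3, .z, (K (.ofNat 225391892))⟩,
  ⟨T5, .x, (K (.negSucc 18954623))⟩] .nil .nil (.node [⟨.x, .z, (K (.negSucc 281035447))⟩] .nil .nil .nil .nil) (.node [⟨.x, .z, (K (.negSucc 8585123))⟩] .nil .nil .nil .nil)) (.node [⟨.x, .z, (.node (.ofNat 0) (K (.negSucc 116980295)) (K (.ofNat 68996254)) .nil .nil)⟩,
  ⟨T3, .x, (K (.ofNat 315512670))⟩,
  ⟨T4, .x, (K (.ofNat 117240400))⟩] (.node [⟨.x, .z, (K (.ofNat 147758706))⟩] .nil .nil .nil .nil) (.node [⟨.x, .z, (K (.negSucc 301167997))⟩] .nil .nil .nil .nil) .nil .nil) (.node [⟨.x, .z, (.node (.ofNat 0) (K (.ofNat 7106826)) (K (.ofNat 269506487)) .nil .nil)⟩,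
  ⟨T3, .x, (K (.ofNat 9629933))⟩] .nil (.node [⟨.x, .z, (K (.negSucc 48395753))⟩] .nil .nil .nil .nil) .nil .nil))
def c_rll : Cert := (.node [⟨.x, .z, (.node (.ofNat 0) (.node (.ofNat 0) .nil .nil (K (.ofNat 15513118)) (K (.ofNat 19777861))) (.node (.ofNat 0) .nil .nil (K (.negSucc 12364701)) (K (.negSucc 14347374))) (.node (.ofNat 0) (K (.ofNat 2730395)) (K (.negSucc 3733584)) .nil .nil) (.node (.ofNat 0) (K (.ofNat 7872607)) (K (.negSucc 1102861)) .nil .nil))⟩,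
  ⟨T3, .x, (.node (.ofNat 0) .nil .nil (K (.negSucc 17186)) (K (.negSucc 4240371)))⟩,
  ⟨T3, .z, (.node (.ofNat 0) (K (.ofNat 278561)) (K (.ofNat 16682594)) .nil .nil)⟩,
  ⟨T4, .x, (.node (.ofNat 0) .nil .nil (K (.negSucc 12454656)) (K (.negSucc 3406910)))⟩,
  ⟨T5, .x, (.node (.ofNat 0) (K (.ofNat 7950477)) (K (.ofNat 27826819)) .nil .nil)⟩,
  ⟨T9, .x, (K (.ofNat 843909))⟩,
  ⟨T3, T3, (K (.negSucc 2773280))⟩,
  ⟨T14, .x, (K (.ofNat 11266596))⟩,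
  ⟨T15, .x, (K (.negSucc 5605184))⟩,
  ⟨T4, T3, (K (.negSucc 6011606))⟩,
  ⟨T4, T4, (K (.ofNat 2236365))⟩] (.node [⟨.x, .z, (.node (.ofNat 0) .nil .nil (K (.ofNat 2921418)) (K (.ofNat 17762350)))⟩,
  ⟨T3, .z, (K (.ofNat 6231367))⟩,
  ⟨T5, .x, (K (.ofNat 14741233))⟩] .nil .nil (.node [⟨.x, .z, (K (.negSucc 18313289))⟩] .nil .nil .nil .nil) (.node [⟨.x, .z, (K (.negSucc 10454437))⟩] .nil .nil .nil .nil)) (.node [⟨.x, .z, (.node (.ofNat 0) .nil .nil (K (.negSucc 26479936)) (K (.negSucc 9373261)))⟩,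
  ⟨T3, .z, (K (.negSucc 5730049))⟩,
  ⟨T5, .x, (K (.ofNat 2146082))⟩] .nil .nil (.node [⟨.x, .z, (K (.ofNat 2441460))⟩] .nil .nil .nil .nil) (.node [⟨.x, .z, (K (.ofNat 10068556))⟩] .nil .nil .nil .nil)) (.node [⟨.x, .z, (.node (.ofNat 0) (K (.ofNat 19049961)) (K (.negSucc 555933)) .nil .nil)⟩,
  ⟨T3, .x, (K (.ofNat 15820307))⟩,
  ⟨T4, .x, (K (.negSucc 54908606))⟩] (.node [⟨.x, .z, (K (.ofNat 11220360))⟩] .nil .nil .nil .nil) (.node [⟨.x, .z, (K (.ofNat 138428))⟩] .nil .nil .nil .nil) .nil .nil) (.node [⟨.x, .z, (.node (.ofNat 0) (K (.negSucc 9388455)) (K (.negSucc 30994313)) .nil .nil)⟩,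
  ⟨T3, .x, (K (.negSucc 6121492))⟩] .nil (.node [⟨.x, .z, (K (.negSucc 5154152))⟩] .nil .nil .nil .nil) .nil .nil))
def c_rlp : Cert := (.node [⟨.x, .z, (.node (.ofNat 0) (.node (.ofNat 0) (K (.ofNat 13620079)) (K (.negSucc 16001734)) .nil .nil) (.node (.ofNat 0) (K (.ofNat 33415157)) (K (.ofNat 4042601)) .nil .nil) .nil .nil)⟩,
  ⟨T3, .x, (.node (.ofNat 0) (K (.ofNat 2322043)) (K (.negSucc 9071723)) .nil .nil)⟩,
  ⟨T4, .x, (.node (.ofNat 0) (K (.ofNat 186546)) (K (.ofNat 35213235)) .nil .nil)⟩,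
  ⟨T2, T3, (K (.negSucc 29233673))⟩,
  ⟨T2, T4, (K (.negSucc 5677751))⟩] (.node [⟨.x, .z, (.node (.ofNat 0) (K (.ofNat 45127909)) (K (.ofNat 85718472)) .nil .nil)⟩,
  ⟨T3, .x, (K (.negSucc 10615139))⟩,
  ⟨T4, .x, (K (.negSucc 90403625))⟩] (.node [⟨.x, .z, (K (.negSucc 69628812))⟩] .nil .nil .nil .nil) (.node [⟨.x, .z, (K (.negSucc 149123))⟩] .nil .nil .nil .nil) .nil .nil) (.node [⟨.x, .z, (.node (.ofNat 0) (K (.negSucc 126787711)) (K (.negSucc 102149362)) .nil .nil)⟩,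
  ⟨T3, .x, (K (.ofNat 11637329))⟩,
  ⟨T4, .x, (K (.ofNat 75045958))⟩] (.node [⟨.x, .z, (K (.ofNat 134226638))⟩] .nil .nil .nil .nil) (.node [⟨.x, .z, (K (.ofNat 12745212))⟩] .nil .nil .nil .nil) .nil .nil) .nil .nil)
def c_rlq : Cert := (.node [⟨.x, .z, (.node (.ofNat 0) (.node (.ofNat 0) (K (.ofNat 5310533)) (K (.negSucc 3464260)) .nil .nil) (.node (.ofNat 0) (K (.negSucc 9032254)) (K (.negSucc 29984361)) .nil .nil) .nil .nil)⟩,
  ⟨T3, .x, (.node (.ofNat 0) (K (.negSucc 24458026)) (K (.ofNat 126688)) .nil .nil)⟩,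
  ⟨T2, T3, (K (.negSucc 4359185))⟩,
  ⟨T2, T4, (K (.negSucc 4648499))⟩] .nil (.node [⟨.x, .z, (.node (.ofNat 0) (K (.ofNat 226723304)) (K (.ofNat 259748341)) .nil .nil)⟩,
  ⟨T3, .x, (K (.negSucc 52693205))⟩,
  ⟨T4, .x, (K (.negSucc 250862941))⟩] (.node [⟨.x, .z, (K (.negSucc 201558469))⟩] .nil .nil .nil .nil) (.node [⟨.x, .z, (K (.ofNat 2727594))⟩] .nil .nil .nil .nil) .nil .nil) .nil .nil)
def c_rl : Cert := (.node [⟨.x, .z, (.node (.ofNat 0) (.node (.ofNat 0) (.node (.ofNat 0) .nil .nil (K (.negSucc 18144017)) (K (.negSucc 5153798))) (.node (.ofNat 0) .nil .nil (K (.ofNat 83085235)) (K (.ofNat 59904206))) (.node (.ofNat 0) (K (.negSucc 16584935)) (K (.ofNat 65727753)) .nil .nil) (.node (.ofNat 0) (K (.negSucc 5605451)) (K (.ofNat 24590420)) .nil .nil)) (.node (.ofNat 0) (.node (.ofNat 0) .nil .nil (K (.negSucc 9195063)) (K (.ofNat 57634790))) (.node (.ofNat 0) .nil .nil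 (K (.ofNat 20505608)) (K (.negSucc 1346945))) (.node (.ofNat 0) (K (.negSucc 3354166)) (K (.negSucc 42737066)) .nil .nil) (.node (.ofNat 0) (K (.ofNat 4401066)) (K (.ofNat 28926297)) .nil .nil)) (.node (.ofNat 0) (.node (.ofNat 0) (K (.ofNat 293547)) (K (.negSucc 67927372)) .nil .nil) (.node (.ofNat 0) (K (.negSucc 58300449)) (K (.negSucc 50678158)) .nil .nil) .nil .nil) (.node (.ofNat 0) (.node (.ofNat 0) (K (.negSucc 5524862)) (K (.ofNat 5056740)) .nil .nil) (.node (.ofNat 0) (K (.negSucc 11329333)) (K (.ofNat 5446264)) .nil .nil) .nil .nil))⟩,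
  ⟨T3, .x, (.node (.ofNat 0) (.node (.ofNat 0) .nil .nil (K (.ofNat 9630960)) (K (.negSucc 3276553))) (.node (.ofNat 0) .nil .nil (K (.ofNat 47722328)) (K (.ofNat 9496674))) (.node (.ofNat 0) (K (.negSucc 6139891)) (K (.ofNat 5436389)) .nil .nil) (.node (.ofNat 0) .nil (K (.ofNat 47232900)) .nil .nil))⟩,
  ⟨T3, .z, (.node (.ofNat 0) (.node (.ofNat 0) (K (.ofNat 69747600)) (K (.ofNat 82046521)) .nil .nil) (.node (.ofNat 0) (K (.ofNat 932130)) (K (.ofNat 14259890)) .nil .nil) .nil .nil)⟩,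
  ⟨T4, .x, (.node (.ofNat 0) (.node (.ofNat 0) .nil .nil (K (.ofNat 12394752)) (K (.ofNat 8403670))) (.node (.ofNat 0) .nil .nil (K (.negSucc 5250315)) (K (.negSucc 8716205))) (.node (.ofNat 0) (K (.ofNat 9983938)) (K (.ofNat 17922967)) .nil .nil) (.node (.ofNat 0) .nil (K (.ofNat 527785)) .nil .nil))⟩,
  ⟨T5, .x, (.node (.ofNat 0) (.node (.ofNat 0) (K (.ofNat 14930872)) (K (.ofNat 14056919)) .nil .nil) (.node (.ofNat 0) (K (.negSucc 13548069)) (K (.negSucc 16686928)) .nil .nil) .nil .nil)⟩,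
  ⟨T8, .x, (.node (.ofNat 0) .nil .nil (K (.ofNat 5634774)) (K (.ofNat 25559556)))⟩,
  ⟨T9, .x, (.node (.ofNat 0) (K (.negSucc 15538805)) (K (.negSucc 39319870)) .nil .nil)⟩,
  ⟨T10, .x, (.node (.ofNat 0) .nil .nil (K (.negSucc 5765639)) (K (.negSucc 5631215)))⟩,
  ⟨T2, T3, (.node (.ofNat 0) .nil .nil (K (.negSucc 569153)) (K (.ofNat 11327376)))⟩,
  ⟨T2, T4, (.node (.ofNat 0) .nil .nil (K (.ofNat 945564)) (K (.negSucc 5701481)))⟩,
  ⟨T3, T3, (.node (.ofNat 0) (K (.ofNat 14607078)) (K (.ofNat 41878211)) .nil .nil)⟩,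
  ⟨T14, .x, (.node (.ofNat 0) (K (.ofNat 10736532)) (K (.ofNat 21141452)) .nil .nil)⟩,
  ⟨T15, .x, (.node (.ofNat 0) (K (.ofNat 6129828)) (K (.negSucc 1653218)) .nil .nil)⟩,
  ⟨T4, T3, (.node (.ofNat 0) (K (.ofNat 1811100)) (K (.negSucc 36222480)) .nil .nil)⟩,
  ⟨T4, T4, (.node (.ofNat 0) (K (.ofNat 3536205)) (K (.ofNat 15828531)) .nil .nil)⟩,
  ⟨T8, T3, (K (.negSucc 974411))⟩,
  ⟨T9, T2, (K (.negSucc 4868957))⟩,
  ⟨T10, T3, (K (.negSucc 2865257))⟩,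
  ⟨T14, T2, (K (.ofNat 12892518))⟩,
  ⟨T15, T2, (K (.negSucc 5047409))⟩] c_rlr c_rll c_rlp c_rlq)
def c_rpr : Cert := (.node [⟨.x, .z, (.node (.ofNat 0) (.node (.ofNat 0) (K (.negSucc 28075290)) (K (.negSucc 18085339)) .nil .nil) (.node (.ofNat 0) (K (.negSucc 9981436)) (K (.negSucc 8456505)) .nil .nil) .nil .nil)⟩,
  ⟨T3, .x, (.node (.ofNat 0) (K (.ofNat 9183846)) (K (.ofNat 14097870)) .nil .nil)⟩,
  ⟨T4, .x, (.node (.ofNat 0) (K (.negSucc 16537271)) (K (.negSucc 14128673)) .nil .nil)⟩,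
  ⟨T8, .x, (K (.ofNat 7413696))⟩,
  ⟨T10, .x, (K (.negSucc 4219409))⟩,
  ⟨T2, T3, (K (.ofNat 8228160))⟩,
  ⟨T2, T4, (K (.negSucc 4653785))⟩] (.node [⟨.x, .z, (.node (.ofNat 0) (K (.negSucc 1150331)) (K (.negSucc 6979703)) .nil .nil)⟩,
  ⟨T3, .x, (K (.ofNat 3297042))⟩,
  ⟨T4, .x, (K (.ofNat 864360))⟩] (.node [⟨.x, .z, (K (.ofNat 38952))⟩] .nil .nil .nil .nil) (.node [⟨.x, .z, (K (.negSucc 1383833))⟩] .nil .nil .nil .nil) .nil .nil) (.node [⟨.x, .z, (.node (.ofNat 0) (K (.negSucc 292048202)) (K (.negSucc 294988581)) .nil .nil)⟩,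
  ⟨T3, .x, (K (.negSucc 26371180))⟩,
  ⟨T4, .x, (K (.ofNat 260287526))⟩] (.node [⟨.x, .z, (K (.ofNat 287957019))⟩] .nil .nil .nil .nil) (.node [⟨.x, .z, (K (.ofNat 10655526))⟩] .nil .nil .nil .nil) .nil .nil) .nil .nil)
def c_rpl : Cert := (.node [⟨.x, .z, (.node (.ofNat 0) (.node (.ofNat 0) (K (.negSucc 9322802)) (K (.negSucc 22502784)) .nil .nil) (.node (.ofNat 0) (K (.ofNat 933375)) (K (.negSucc 26974003)) .nil .nil) .nil .nil)⟩,
  ⟨T3, .x, (.node (.ofNat 0) (K (.negSucc 45888970)) (K (.negSucc 82843392)) .nil .nil)⟩,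
  ⟨T4, .x, (.node (.ofNat 0) (K (.ofNat 6053460)) (K (.ofNat 36129702)) .nil .nil)⟩,
  ⟨T8, .x, (K (.ofNat 10966584))⟩,
  ⟨T10, .x, (K (.ofNat 426972))⟩,
  ⟨T2, T3, (K (.negSucc 18105989))⟩,
  ⟨T2, T4, (K (.ofNat 4223664))⟩] (.node [⟨.x, .z, (.node (.ofNat 0) (K (.negSucc 164021185)) (K (.negSucc 139454572)) .nil .nil)⟩,
  ⟨T3, .x, (K (.negSucc 76729916))⟩,
  ⟨T4, .x, (K (.ofNat 106576096))⟩] (.node [⟨.x, .z, (K (.ofNat 148437410))⟩] .nil .nil .nil .nil) (.node [⟨.x, .z, (K (.ofNat 5650284))⟩] .nil .nil .nil .nil) .nil .nil) (.node [⟨.x, .z, (.node (.ofNat 0) (K (.negSucc 25344728)) (K (.ofNat 25407190)) .nil .nil)⟩,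
  ⟨T3, .x, (K (.negSucc 83482486))⟩] (.node [⟨.x, .z, (K (.ofNat 7112079))⟩] .nil .nil .nil .nil) (.node [⟨.x, .z, (K (.negSucc 4139687))⟩] .nil .nil .nil .nil) .nil .nil) .nil .nil)
def c_rpp : Cert := (.node [⟨T2, T2, (K (.ofNat 189360))⟩] .nil .nil .nil .nil)
def c_rpq : Cert := (.node [⟨T2, T2, (K (.ofNat 1635423))⟩] .nil .nil .nil .nil)
def c_rp : Cert := (.node [⟨.x, .z, (.node (.ofNat 0) (.node (.ofNat 0) (.node (.ofNat 0) (K (.ofNat 136864)) (K (.negSucc 3099471)) .nil .nil) (.node (.ofNat 0) (K (.negSucc 708705)) (K (.negSucc 19623163)) .nil .nil) .nil .nil) (.node (.ofNat 0) (.node (.ofNat 0) (K (.ofNat 22955813)) (K (.ofNat 25086904)) .nil .nil) (.node (.ofNat 0) (K (.ofNat 34624603)) (K (.ofNat 19699868)) .nil .nil) .nil .nil) .nil .nil)⟩,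
  ⟨T3, .x, (.node (.ofNat 0) (.node (.ofNat 0) (K (.negSucc 47031178)) (K (.negSucc 33604411)) .nil .nil) (.node (.ofNat 0) (K (.negSucc 21721254)) (K (.negSucc 28909977)) .nil .nil) .nil .nil)⟩,
  ⟨T4, .x, (.node (.ofNat 0) (.node (.ofNat 0) (K (.negSucc 10135024)) (K (.negSucc 17809029)) .nil .nil) (.node (.ofNat 0) (K (.negSucc 6890532)) (K (.negSucc 657337)) .nil .nil) .nil .nil)⟩,
  ⟨T2, T2, (.node (.ofNat 0) .nil .nil (K (.negSucc 1799231)) (K (.ofNat 1224048)))⟩,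
  ⟨T2, T3, (.node (.ofNat 0) (K (.ofNat 30036156)) (K (.ofNat 50271234)) .nil .nil)⟩,
  ⟨T2, T4, (.node (.ofNat 0) (K (.ofNat 7524792)) (K (.ofNat 6734778)) .nil .nil)⟩,
  ⟨T8, T2, (K (.ofNat 465768))⟩,
  ⟨T10, T2, (K (.negSucc 459575))⟩] c_rpr c_rpl c_rpp c_rpq)
def c_rql : Cert := (.node [⟨.x, .z, (.node (.ofNat 0) (.node (.ofNat 0) (K (.negSucc 42158346)) (K (.negSucc 89206263)) .nil .nil) (.node (.ofNat 0) (K (.negSucc 42820)) (K (.negSucc 1915045)) .nil .nil) .nil .nil)⟩,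
  ⟨T3, .x, (.node (.ofNat 0) (K (.ofNat 15530598)) (K (.negSucc 15914597)) .nil .nil)⟩,
  ⟨T4, .x, (.node (.ofNat 0) (K (.ofNat 15500550)) (K (.ofNat 57172668)) .nil .nil)⟩,
  ⟨T8, .x, (K (.ofNat 4940046))⟩,
  ⟨T10, .x, (K (.negSucc 5324861))⟩,
  ⟨T2, T3, (K (.ofNat 3028746))⟩,
  ⟨T2, T4, (K (.negSucc 650135))⟩] (.node [⟨.x, .z, (.node (.ofNat 0) (K (.ofNat 6260436)) (K (.ofNat 44573710)) .nil .nil)⟩] (.node [⟨.x, .z, (K (.ofNat 18353076))⟩] .nil .nil .nil .nil) (.node [⟨.x, .z, (K (.ofNat 59762106))⟩] .nil .nil .nil .nil) .nil .nil) (.node [⟨.x, .z, (.node (.ofNat 0) (K (.negSucc 27607395)) (K (.negSucc 27548933)) .nil .nil)⟩,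
  ⟨T3, .x, (K (.ofNat 31373264))⟩,
  ⟨T4, .x, (K (.negSucc 3378429))⟩] (.node [⟨.x, .z, (K (.ofNat 38914624))⟩] .nil .nil .nil .nil) (.node [⟨.x, .z, (K (.negSucc 78647))⟩] .nil .nil .nil .nil) .nil .nil) .nil .nil)
def c_rqp : Cert := (.node [⟨T2, T2, (K (.ofNat 1446879))⟩] .nil .nil .nil .nil)
def c_rqq : Cert := (.node [⟨T2, T2, (K (.negSucc 185867))⟩] .nil .nil .nil .nil)
def c_rq : Cert := (.node [⟨.x, .z, (.node (.ofNat 0) (.node (.ofNat 0) (.node (.ofNat 0) (K (.ofNat 15105474)) (K (.negSucc 13187555)) .nil .nil) (.node (.ofNat 0) (K (.negSucc 2836817)) (K (.negSucc 16774721)) .nil .nil) .nil .nil) (.node (.ofNat 0) (.node (.ofNat 0) (K (.ofNat 14904042)) (K (.negSucc 4558289)) .nil .nil) (.node (.ofNat 0) (K (.negSucc 2280677)) (K (.negSucc 8787917)) .nil .nil) .nil .nil) .nil .nil)⟩,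
  ⟨T3, .x, (.node (.ofNat 0) (.node (.ofNat 0) (K (.negSucc 10312016)) (K (.negSucc 30116659)) .nil .nil) (.node (.ofNat 0) (K (.negSucc 16238756)) (K (.negSucc 25417131)) .nil .nil) .nil .nil)⟩,
  ⟨T2, T2, (.node (.ofNat 0) .nil .nil (K (.negSucc 603167)) (K (.ofNat 3404547)))⟩,
  ⟨T2, T3, (.node (.ofNat 0) (K (.negSucc 2364881)) (K (.negSucc 5213381)) .nil .nil)⟩,
  ⟨T2, T4, (.node (.ofNat 0) (K (.ofNat 6835794)) (K (.ofNat 12606996)) .nil .nil)⟩,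
  ⟨T8, T2, (K (.negSucc 723593))⟩,
  ⟨T10, T2, (K (.ofNat 3851970))⟩,
  ⟨T13, T2, (K (.negSucc 4300523))⟩] .nil c_rql c_rqp c_rqq)
def c_r : Cert := (.node [⟨.x, .z, (.node (.ofNat 0) (.node (.ofNat 0) (.node (.ofNat 0) (.node (.ofNat 0) .nil .nil (K (.negSucc 472835)) (K (.ofNat 28084668))) (.node (.ofNat 0) .nil .nil (K (.negSucc 241916384)) (K (.negSucc 233554009))) (.node (.ofNat 0) (K (.negSucc 28948097)) (K (.negSucc 284485693)) .nil .nil) (.node (.ofNat 0) (K (.ofNat 670068)) (K (.ofNat 13976318)) .nil .nil)) (.node (.ofNat 0) (.node (.ofNat 0) .nil .nil (K (.negSucc 2671986)) (K (.negSucc 248650885))) (.node (.ofNat 0) .nil .nil (K (.ofNat 32089079)) (K (.ofNat 1149522))) (.node (.ofNat 0) (K (.negSucc 2879549)) (K (.ofNat 240045234)) .nil .nil) (.node (.ofNat 0) (K (.ofNat 1315116)) (K (.ofNat 40097856)) .nil .nil)) (.node (.ofNat 0) (.node (.ofNat 0) (K (.negSucc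 12237091)) (K (.ofNat 219304638)) .nil .nil) (.node (.ofNat 0) (K (.ofNat 220930811)) (K (.ofNat 185235956)) .nil .nil) .nil .nil) (.node (.ofNat 0) (.node (.ofNat 0) (K (.negSucc 13750051)) (K (.ofNat 5411018)) .nil .nil) (.node (.ofNat 0) (K (.negSucc 1297665)) (K (.negSucc 23839962)) .nil .nil) .nil .nil)) (.node (.ofNat 0) (.node (.ofNat 0) (.node (.ofNat 0) .nil .nil (K (.negSucc 6635795)) (K (.negSucc 12826008))) (.node (.ofNat 0) .nil .nil (K (.negSucc 245256829)) (K (.negSucc 260295171))) (.node (.ofNat 0) (K (.negSucc 31657014)) (K (.negSucc 307566439)) .nil .nil) (.node (.ofNat 0) (K (.negSucc 10518551)) (K (.ofNat 48286155)) .nil .nil)) (.node (.ofNat 0) (.node (.ofNat 0) .nil .nil (K (.negSucc 17157682)) (K (.negSucc 275282169))) (.node (.ofNat 0) .nil .nil (K (.negSucc 1834162)) (K (.ofNat 8568816))) (.node (.ofNat 0) (K (.negSucc 57664238)) (K (.ofNat 151271283))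 .nil .nil) (.node (.ofNat 0) (K (.ofNat 6037350)) (K (.ofNat 4577682)) .nil .nil)) (.node (.ofNat 0) (.node (.ofNat 0) (K (.negSucc 29672725)) (K (.ofNat 253249288)) .nil .nil) (.node (.ofNat 0) (K (.ofNat 160941323)) (K (.ofNat 76302549)) .nil .nil) .nil .nil) (.node (.ofNat 0) (.node (.ofNat 0) (K (.negSucc 19690269)) (K (.ofNat 2131714)) .nil .nil) (.node (.ofNat 0) (K (.negSucc 22618249)) (K (.negSucc 51429841)) .nil .nil) .nil .nil)) (.node (.ofNat 0) (.node (.ofNat 0) (.node (.ofNat 0) (K (.ofNat 7187041)) (K (.ofNat 25570538)) .nil .nil) (.node (.ofNat 0) (K (.negSucc 8630304)) (K (.ofNat 125878)) .nil .nil) .nil .nil) (.node (.ofNat 0) (.node (.ofNat 0) (K (.negSucc 36658945)) (K (.negSucc 17609843)) .nil .nil) (.node (.ofNat 0) (K (.negSucc 52104745)) (K (.negSucc 54901894)) .nil .nil) .nil .nil) .nil .nil) (.node (.ofNat 0) (.node (.ofNat 0) (.node (.ofNat 0) (K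 (.ofNat 7566724)) (K (.ofNat 28368587)) .nil .nil) (.node (.ofNat 0) (K (.ofNat 16654910)) (K (.ofNat 4357486)) .nil .nil) .nil .nil) (.node (.ofNat 0) (.node (.ofNat 0) (K (.negSucc 7846824)) (K (.ofNat 35600433)) .nil .nil) (.node (.ofNat 0) (K (.negSucc 30426627)) (K (.negSucc 15104997)) .nil .nil) .nil .nil) .nil .nil))⟩,
  ⟨T3, .x, (.node (.ofNat 0) (.node (.ofNat 0) (.node (.ofNat 0) .nil .nil (K (.ofNat 8871222)) (K (.ofNat 4197768))) (.node (.ofNat 0) .nil .nil (K (.negSucc 182629149)) (K (.negSucc 127878769))) (.node (.ofNat 0) (K (.negSucc 69460007)) (K (.negSucc 250081087)) .nil .nil) (.node (.ofNat 0) .nil (K (.negSucc 62076851)) .nil .nil)) (.node (.ofNat 0) (.node (.ofNat 0) .nil .nil (K (.negSucc 42260929)) (K (.negSucc 159241393))) (.node (.ofNat 0) .nil .nil (K (.negSucc 9166171)) (K (.ofNat 9084468))) (.node (.ofNat 0) (K (.negSucc 20589051)) (K (.ofNat 71516172))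 .nil .nil) (.node (.ofNat 0) .nil (K (.ofNat 33550992)) .nil .nil)) (.node (.ofNat 0) (.node (.ofNat 0) (K (.ofNat 6727635)) (K (.ofNat 144615172)) .nil .nil) (.node (.ofNat 0) (K (.ofNat 128088829)) (K (.ofNat 92124822)) .nil .nil) .nil .nil) (.node (.ofNat 0) .nil (.node (.ofNat 0) (K (.ofNat 36078224)) (K (.negSucc 29976201)) .nil .nil) .nil .nil))⟩,
  ⟨T3, .z, (.node (.ofNat 0) (.node (.ofNat 0) (.node (.ofNat 0) (K (.ofNat 4552794)) (K (.ofNat 17742307)) .nil .nil) (.node (.ofNat 0) (K (.ofNat 34047894)) (K (.ofNat 40368122)) .nil .nil) .nil .nil) (.node (.ofNat 0) (.node (.ofNat 0) (K (.ofNat 10856595)) (K (.ofNat 32071817)) .nil .nil) (.node (.ofNat 0) (K (.ofNat 38210745)) (K (.ofNat 37499851)) .nil .nil) .nil .nil) .nil .nil)⟩,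
  ⟨T4, .x, (.node (.ofNat 0) (.node (.ofNat 0) (.node (.ofNat 0) .nil .nil (K (.negSucc 7494785)) (K (.negSucc 2636360))) (.node (.ofNat 0) .nil .nil (K (.ofNat 398664520)) (K (.ofNat 389758900))) (.node (.ofNat 0) (K (.ofNat 26567388)) (K (.ofNat 458514727)) .nil .nil) (.node (.ofNat 0) .nil (K (.ofNat 600063)) .nil .nil)) (.node (.ofNat 0) (.node (.ofNat 0) .nil .nil (K (.ofNat 12823161)) (K (.ofNat 385899916))) (.node (.ofNat 0) .nil .nil (K (.ofNat 21540891)) (K (.ofNat 2242536))) (.node (.ofNat 0) (K (.ofNat 15323208)) (K (.negSucc 310386561)) .nil .nil) (.node (.ofNat 0) .nil (K (.ofNat 21122616)) .nil .nil)) (.node (.ofNat 0) (.node (.ofNat 0) (K (.negSucc 2558756)) (K (.negSucc 416681559)) .nil .nil) (.node (.ofNat 0) (K (.negSucc 374008170)) (K (.negSucc 338854944)) .nil .nil) .nil .nil) (.node (.ofNat 0) .nil (.node (.ofNat 0) .nil (K (.ofNat 9417444)) .nil .nil)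 .nil .nil))⟩,
  ⟨T5, .x, (.node (.ofNat 0) (.node (.ofNat 0) (.node (.ofNat 0) (K (.ofNat 14062590)) (K (.ofNat 36548079)) .nil .nil) (.node (.ofNat 0) (K (.ofNat 11240646)) (K (.ofNat 14760906)) .nil .nil) .nil .nil) (.node (.ofNat 0) (.node (.ofNat 0) (K (.negSucc 5370299)) (K (.ofNat 21003885)) .nil .nil) (.node (.ofNat 0) (K (.negSucc 11788685)) (K (.negSucc 14402462)) .nil .nil) .nil .nil) .nil .nil)⟩,
  ⟨T8, .x, (.node (.ofNat 0) (.node (.ofNat 0) .nil .nil (K (.ofNat 12557382)) (K (.ofNat 16282740))) (.node (.ofNat 0) .nil .nil (K (.negSucc 7732235)) (K (.ofNat 682932))) (.node (.ofNat 0) (K (.negSucc 20525249)) (K (.negSucc 75319013)) .nil .nil) (.node (.ofNat 0) .nil (K (.negSucc 26344943)) .nil .nil))⟩,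
  ⟨T9, .x, (.node (.ofNat 0) (.node (.ofNat 0) (K (.ofNat 14742435)) (K (.ofNat 30846812)) .nil .nil) (.node (.ofNat 0) (K (.ofNat 17199957)) (K (.ofNat 22189114)) .nil .nil) .nil .nil)⟩,
  ⟨T10, .x, (.node (.ofNat 0) (.node (.ofNat 0) .nil .nil (K (.negSucc 4894445)) (K (.ofNat 2679258))) (.node (.ofNat 0) .nil .nil (K (.negSucc 12823931)) (K (.negSucc 213863))) (.node (.ofNat 0) (K (.ofNat 5621046)) (K (.ofNat 12945222)) .nil .nil) (.node (.ofNat 0) .nil (K (.ofNat 2070216)) .nil .nil))⟩,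
  ⟨T12, .x, (.node (.ofNat 0) .nil .nil (.node (.ofNat 0) .nil .nil (K (.negSucc 12649001)) (K (.negSucc 289001))) .nil)⟩,
  ⟨T2, T2, (.node (.ofNat 0) .nil .nil (.node (.ofNat 0) .nil .nil (K (.ofNat 11644314)) (K (.ofNat 4036140))) (.node (.ofNat 0) .nil .nil (K (.ofNat 3644079)) (K (.ofNat 359016))))⟩,
  ⟨T2, T3, (.node (.ofNat 0) (.node (.ofNat 0) .nil .nil (K (.negSucc 4226129)) (K (.negSucc 17415059))) (.node (.ofNat 0) .nil .nil (K (.ofNat 12684318)) (K (.negSucc 994583))) (.node (.ofNat 0) (K (.ofNat 6705060)) (K (.negSucc 2652383)) .nil .nil) (.node (.ofNat 0) .nil (K (.ofNat 23891934)) .nil .nil))⟩,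
  ⟨T2, T4, (.node (.ofNat 0) (.node (.ofNat 0) .nil .nil (K (.ofNat 1114686)) (K (.negSucc 5142089))) (.node (.ofNat 0) .nil .nil (K (.negSucc 6274811)) (K (.negSucc 880223))) (.node (.ofNat 0) (K (.negSucc 2680667)) (K (.ofNat 15361716)) .nil .nil) (.node (.ofNat 0) .nil (K (.ofNat 8452878)) .nil .nil))⟩,
  ⟨T3, T3, (.node (.ofNat 0) (.node (.ofNat 0) (K (.negSucc 53317077)) (K (.negSucc 67302027)) .nil .nil) (.node (.ofNat 0) (K (.negSucc 16163524)) (K (.negSucc 8290657)) .nil .nil) .nil .nil)⟩,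
  ⟨T14, .x, (.node (.ofNat 0) (.node (.ofNat 0) (K (.ofNat 14979702)) (K (.ofNat 6223498)) .nil .nil) (.node (.ofNat 0) (K (.negSucc 1855445)) (K (.negSucc 22755879)) .nil .nil) .nil .nil)⟩,
  ⟨T15, .x, (.node (.ofNat 0) (.node (.ofNat 0) (K (.negSucc 4945478)) (K (.ofNat 2912550)) .nil .nil) (.node (.ofNat 0) (K (.ofNat 1304505)) (K (.ofNat 16057110)) .nil .nil) .nil .nil)⟩,
  ⟨T4, T3, (.node (.ofNat 0) (.node (.ofNat 0) (K (.ofNat 33358429)) (K (.ofNat 52681248)) .nil .nil) (.node (.ofNat 0) (K (.negSucc 9082092)) (K (.negSucc 15873155)) .nil .nil) .nil .nil)⟩,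
  ⟨T4, T4, (.node (.ofNat 0) (.node (.ofNat 0) (K (.negSucc 231633)) (K (.negSucc 23377)) .nil .nil) (.node (.ofNat 0) (K (.ofNat 4345549)) (K (.negSucc 5895243)) .nil .nil) .nil .nil)⟩,
  ⟨T7, T2, (.node (.ofNat 0) .nil .nil (K (.ofNat 4796424)) .nil)⟩,
  ⟨T8, T2, (.node (.ofNat 0) .nil .nil (K (.negSucc 138377)) (K (.ofNat 2016360)))⟩,
  ⟨T8, T3, (.node (.ofNat 0) (K (.ofNat 17866908)) (K (.ofNat 22971204)) .nil .nil)⟩,
  ⟨T8, T4, (.node (.ofNat 0) (K (.negSucc 30130379)) (K (.negSucc 42466139)) .nil .nil)⟩,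
  ⟨T9, T2, (.node (.ofNat 0) (K (.ofNat 2196258)) (K (.ofNat 5155062)) .nil .nil)⟩,
  ⟨T10, T2, (.node (.ofNat 0) .nil .nil (K (.ofNat 1787442)) (K (.negSucc 1063799)))⟩,
  ⟨T10, T3, (.node (.ofNat 0) (K (.negSucc 4440041)) (K (.ofNat 1525572)) .nil .nil)⟩,
  ⟨T11, T2, (.node (.ofNat 0) (K (.negSucc 7534553)) (K (.negSucc 13480139)) .nil .nil)⟩,
  ⟨T13, T2, (.node (.ofNat 0) .nil .nil (K (.ofNat 855492)) (K (.ofNat 2640)))⟩,
  ⟨T14, T2, (.node (.ofNat 0) (K (.negSucc 32561075)) (K (.negSucc 50231561)) .nil .nil)⟩,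
  ⟨T15, T2, (.node (.ofNat 0) (K (.negSucc 7810055)) (K (.negSucc 6595817)) .nil .nil)⟩,
  ⟨T7, T8, (K (.ofNat 3573936))⟩,
  ⟨T10, T8, (K (.negSucc 3603455))⟩,
  ⟨T13, T8, (K (.ofNat 2276496))⟩,
  ⟨T13, T10, (K (.ofNat 31680))⟩] c_rr c_rl c_rp c_rq)
def c_lrr : Cert := (.node [⟨.x, .z, (.node (.ofNat 0) (.node (.ofNat 0) .nil .nil (K (.ofNat 135671300)) (K (.negSucc 3898728))) (.node (.ofNat 0) .nil .nil (K (.negSucc 27998579)) (K (.negSucc 98896236))) (.node (.ofNat 0) (K (.negSucc 118808790)) (K (.negSucc 2106407)) .nil .nil) (.node (.ofNat 0) (K (.ofNat 7728311)) (K (.ofNat 52191152)) .nil .nil))⟩,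
  ⟨T3, .x, (.node (.ofNat 0) .nil .nil (K (.negSucc 47796502)) (K (.negSucc 165287155)))⟩,
  ⟨T3, .z, (.node (.ofNat 0) (K (.negSucc 127927265)) (K (.ofNat 75090059)) .nil .nil)⟩,
  ⟨T4, .x, (.node (.ofNat 0) .nil .nil (K (.negSucc 112266960)) (K (.ofNat 6273369)))⟩,
  ⟨T5, .x, (.node (.ofNat 0) (K (.negSucc 821501)) (K (.ofNat 74818390)) .nil .nil)⟩,
  ⟨T9, .x, (K (.negSucc 6066838))⟩,
  ⟨T3, T3, (K (.ofNat 40102769))⟩,
  ⟨T14, .x, (K (.negSucc 30335049))⟩,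
  ⟨T15, .x, (K (.ofNat 15721671))⟩,
  ⟨T4, T3, (K (.negSucc 52938534))⟩,
  ⟨T4, T4, (K (.ofNat 20709063))⟩] (.node [⟨.x, .z, (.node (.ofNat 0) .nil .nil (K (.negSucc 5197693)) (K (.ofNat 107853954)))⟩,
  ⟨T3, .z, (K (.ofNat 35786827))⟩,
  ⟨T5, .x, (K (.ofNat 87023633))⟩] .nil .nil (.node [⟨.x, .z, (K (.negSucc 24694693))⟩] .nil .nil .nil .nil) (.node [⟨.x, .z, (K (.negSucc 101141268))⟩] .nil .nil .nil .nil)) (.node [⟨.x, .z, (.node (.ofNat 0) .nil .nil (K (.negSucc 134321988)) (K (.negSucc 3168893)))⟩,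
  ⟨T3, .z, (K (.negSucc 187807073))⟩,
  ⟨T5, .x, (K (.negSucc 34160471))⟩] .nil .nil (.node [⟨.x, .z, (K (.ofNat 152814998))⟩] .nil .nil .nil .nil) (.node [⟨.x, .z, (K (.negSucc 21410174))⟩] .nil .nil .nil .nil)) (.node [⟨.x, .z, (.node (.ofNat 0) (K (.negSucc 13792627)) (K (.negSucc 176845416)) .nil .nil)⟩,
  ⟨T3, .x, (K (.negSucc 36269250))⟩,
  ⟨T4, .x, (K (.negSucc 32218332))⟩] (.node [⟨.x, .z, (K (.ofNat 42516355))⟩] .nil .nil .nil .nil) (.node [⟨.x, .z, (K (.ofNat 93073630))⟩] .nil .nil .nil .nil) .nil .nil) (.node [⟨.x, .z, (.node (.ofNat 0) (K (.negSucc 3609196)) (K (.negSucc 80981080)) .nil .nil)⟩,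
  ⟨T3, .x, (K (.ofNat 36933801))⟩] .nil (.node [⟨.x, .z, (K (.ofNat 79004301))⟩] .nil .nil .nil .nil) .nil .nil))
def c_lrl : Cert := (.node [⟨.x, .z, (.node (.ofNat 0) (.node (.ofNat 0) .nil .nil (K (.ofNat 47971640)) (K (.ofNat 1100929))) (.node (.ofNat 0) .nil .nil (K (.negSucc 38486390)) (K (.negSucc 50151005))) (.node (.ofNat 0) (K (.negSucc 51789800)) (K (.ofNat 15057534)) .nil .nil) (.node (.ofNat 0) (K (.ofNat 22818949)) (K (.ofNat 45009788)) .nil .nil))⟩,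
  ⟨T3, .x, (.node (.ofNat 0) .nil .nil (K (.negSucc 31484793)) (K (.negSucc 99286543)))⟩,
  ⟨T3, .z, (.node (.ofNat 0) (K (.negSucc 44674125)) (K (.ofNat 111593804)) .nil .nil)⟩,
  ⟨T4, .x, (.node (.ofNat 0) .nil .nil (K (.negSucc 49375835)) (K (.ofNat 15079254)))⟩,
  ⟨T5, .x, (.node (.ofNat 0) (K (.ofNat 18808920)) (K (.ofNat 64275774)) .nil .nil)⟩,
  ⟨T9, .x, (K (.ofNat 8989286))⟩,
  ⟨T3, T3, (K (.ofNat 2585731))⟩,
  ⟨T14, .x, (K (.negSucc 17579965))⟩,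
  ⟨T15, .x, (K (.ofNat 6704010))⟩,
  ⟨T4, T3, (K (.negSucc 20681755))⟩,
  ⟨T4, T4, (K (.ofNat 20697120))⟩] (.node [⟨.x, .z, (.node (.ofNat 0) .nil .nil (K (.negSucc 34300517)) (K (.ofNat 51008034)))⟩,
  ⟨T3, .z, (K (.ofNat 17617042))⟩,
  ⟨T5, .x, (K (.ofNat 41358018))⟩] .nil .nil (.node [⟨.x, .z, (K (.negSucc 22088925))⟩] .nil .nil .nil .nil) (.node [⟨.x, .z, (K (.negSucc 28596093))⟩] .nil .nil .nil .nil)) (.node [⟨.x, .z, (.node (.ofNat 0) .nil .nil (K (.negSucc 103838889)) (K (.negSucc 23880445)))⟩,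
  ⟨T3, .z, (K (.negSucc 107531875))⟩,
  ⟨T5, .x, (K (.negSucc 29731317))⟩] .nil .nil (.node [⟨.x, .z, (K (.ofNat 57203513))⟩] .nil .nil .nil .nil) (.node [⟨.x, .z, (K (.negSucc 14830615))⟩] .nil .nil .nil .nil)) (.node [⟨.x, .z, (.node (.ofNat 0) (K (.ofNat 1344340)) (K (.negSucc 138225166)) .nil .nil)⟩,
  ⟨T3, .x, (K (.negSucc 100832438))⟩,
  ⟨T4, .x, (K (.negSucc 94163747))⟩] (.node [⟨.x, .z, (K (.ofNat 59470340))⟩] .nil .nil .nil .nil) (.node [⟨.x, .z, (K (.negSucc 5454617))⟩] .nil .nil .nil .nil) .nil .nil) (.node [⟨.x, .z, (.node (.ofNat 0) (K (.negSucc 48577968)) (K (.negSucc 192154453)) .nil .nil)⟩,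
  ⟨T3, .x, (K (.negSucc 24401682))⟩] .nil (.node [⟨.x, .z, (K (.ofNat 1831462))⟩] .nil .nil .nil .nil) .nil .nil))
def c_lrp : Cert := (.node [⟨.x, .z, (.node (.ofNat 0) (.node (.ofNat 0) (K (.ofNat 44162114)) (K (.ofNat 26991600)) .nil .nil) (.node (.ofNat 0) (K (.ofNat 82376827)) (K (.ofNat 200955939)) .nil .nil) .nil .nil)⟩,
  ⟨T3, .x, (.node (.ofNat 0) (K (.ofNat 74680711)) (K (.ofNat 142020447)) .nil .nil)⟩,
  ⟨T4, .x, (.node (.ofNat 0) (K (.negSucc 17321606)) (K (.negSucc 45496454)) .nil .nil)⟩,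
  ⟨T2, T3, (K (.negSucc 11233451))⟩,
  ⟨T2, T4, (K (.negSucc 15456407))⟩] (.node [⟨.x, .z, (.node (.ofNat 0) (K (.negSucc 90950630)) (K (.negSucc 54433234)) .nil .nil)⟩,
  ⟨T3, .x, (K (.ofNat 37254994))⟩,
  ⟨T4, .x, (K (.ofNat 80438656))⟩] (.node [⟨.x, .z, (K (.ofNat 74704542))⟩] .nil .nil .nil .nil) (.node [⟨.x, .z, (K (.negSucc 1079408))⟩] .nil .nil .nil .nil) .nil .nil) (.node [⟨.x, .z, (.node (.ofNat 0) (K (.negSucc 61714645)) (K (.negSucc 178314950)) .nil .nil)⟩,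
  ⟨T3, .x, (K (.ofNat 29926105))⟩,
  ⟨T4, .x, (K (.ofNat 5811792))⟩] (.node [⟨.x, .z, (K (.ofNat 53913581))⟩] .nil .nil .nil .nil) (.node [⟨.x, .z, (K (.negSucc 29291670))⟩] .nil .nil .nil .nil) .nil .nil) .nil .nil)
def c_lrq : Cert := (.node [⟨.x, .z, (.node (.ofNat 0) (.node (.ofNat 0) (K (.ofNat 4139085)) (K (.negSucc 21562532)) .nil .nil) (.node (.ofNat 0) (K (.ofNat 18755241)) (K (.negSucc 29995433)) .nil .nil) .nil .nil)⟩,
  ⟨T3, .x, (.node (.ofNat 0) (K (.ofNat 537906)) (K (.ofNat 21181442)) .nil .nil)⟩,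
  ⟨T2, T3, (K (.ofNat 7901040))⟩,
  ⟨T2, T4, (K (.negSucc 8643395))⟩] .nil (.node [⟨.x, .z, (.node (.ofNat 0) (K (.ofNat 266627485)) (K (.ofNat 268686249)) .nil .nil)⟩,
  ⟨T3, .x, (K (.negSucc 40542947))⟩,
  ⟨T4, .x, (K (.negSucc 288766357))⟩] (.node [⟨.x, .z, (K (.negSucc 210497063))⟩] .nil .nil .nil .nil) (.node [⟨.x, .z, (K (.negSucc 12436451))⟩] .nil .nil .nil .nil) .nil .nil) .nil .nil)
def c_lr : Cert := (.node [⟨.x, .z, (.node (.ofNat 0) (.node (.ofNat 0) (.node (.ofNat 0) .nil .nil (K (.ofNat 8027724)) (K (.negSucc 28948930))) (.node (.ofNat 0) .nil .nil (K (.ofNat 52484480)) (K (.negSucc 32247153))) (.node (.ofNat 0) (K (.negSucc 21117451)) (K (.negSucc 57164614)) .nil .nil) (.node (.ofNat 0) (K (.negSucc 13369085)) (K (.ofNat 57613661)) .nil .nil)) (.node (.ofNat 0) (.node (.ofNat 0) .nil .nil (K (.ofNat 84091237)) (K (.negSucc 32061006))) (.node (.ofNat 0) .nil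 .nil (K (.ofNat 112051786)) (K (.negSucc 660011))) (.node (.ofNat 0) (K (.negSucc 62780094)) (K (.ofNat 62470806)) .nil .nil) (.node (.ofNat 0) (K (.ofNat 26458440)) (K (.ofNat 91695291)) .nil .nil)) (.node (.ofNat 0) (.node (.ofNat 0) (K (.ofNat 23028093)) (K (.ofNat 81281185)) .nil .nil) (.node (.ofNat 0) (K (.negSucc 37737764)) (K (.negSucc 18597369)) .nil .nil) .nil .nil) (.node (.ofNat 0) (.node (.ofNat 0) (K (.negSucc 1767200)) (K (.ofNat 3657102)) .nil .nil) (.node (.ofNat 0) (K (.negSucc 119829108)) (K (.negSucc 55388233)) .nil .nil) .nil .nil))⟩,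
  ⟨T3, .x, (.node (.ofNat 0) (.node (.ofNat 0) .nil .nil (K (.ofNat 59275194)) (K (.ofNat 9181058))) (.node (.ofNat 0) .nil .nil (K (.ofNat 47319604)) (K (.negSucc 35967161))) (.node (.ofNat 0) (K (.negSucc 2638464)) (K (.ofNat 170697)) .nil .nil) (.node (.ofNat 0) .nil (K (.ofNat 27167104)) .nil .nil))⟩,
  ⟨T3, .z, (.node (.ofNat 0) (.node (.ofNat 0) (K (.ofNat 49165566)) (K (.ofNat 89001337)) .nil .nil) (.node (.ofNat 0) (K (.negSucc 5831144)) (K (.ofNat 73600013)) .nil .nil) .nil .nil)⟩,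
  ⟨T4, .x, (.node (.ofNat 0) (.node (.ofNat 0) .nil .nil (K (.negSucc 19603319)) (K (.ofNat 11326537))) (.node (.ofNat 0) .nil .nil (K (.negSucc 1204986)) (K (.negSucc 6887711))) (.node (.ofNat 0) (K (.ofNat 22430131)) (K (.ofNat 25052836)) .nil .nil) (.node (.ofNat 0) .nil (K (.ofNat 47076949)) .nil .nil))⟩,
  ⟨T5, .x, (.node (.ofNat 0) (.node (.ofNat 0) (K (.ofNat 2810540)) (K (.ofNat 15987523)) .nil .nil) (.node (.ofNat 0) (K (.negSucc 29279635)) (K (.ofNat 10822076)) .nil .nil) .nil .nil)⟩,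
  ⟨T8, .x, (.node (.ofNat 0) .nil .nil (K (.ofNat 19444146)) (K (.ofNat 5184540)))⟩,
  ⟨T9, .x, (.node (.ofNat 0) (K (.negSucc 18230950)) (K (.negSucc 24625214)) .nil .nil)⟩,
  ⟨T10, .x, (.node (.ofNat 0) .nil .nil (K (.ofNat 4765314)) (K (.ofNat 7118244)))⟩,
  ⟨T2, T3, (.node (.ofNat 0) .nil .nil (K (.negSucc 7909175)) (K (.negSucc 19834043)))⟩,
  ⟨T2, T4, (.node (.ofNat 0) .nil .nil (K (.ofNat 15077880)) (K (.ofNat 918774)))⟩,
  ⟨T3, T3, (.node (.ofNat 0) (K (.ofNat 50680241)) (K (.ofNat 52840929)) .nil .nil)⟩,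
  ⟨T14, .x, (.node (.ofNat 0) (K (.negSucc 5663013)) (K (.negSucc 15981533)) .nil .nil)⟩,
  ⟨T15, .x, (.node (.ofNat 0) (K (.ofNat 2956473)) (K (.ofNat 24502149)) .nil .nil)⟩,
  ⟨T4, T3, (.node (.ofNat 0) (K (.negSucc 42474738)) (K (.negSucc 74023790)) .nil .nil)⟩,
  ⟨T4, T4, (.node (.ofNat 0) (K (.ofNat 15098061)) (K (.ofNat 53408997)) .nil .nil)⟩,
  ⟨T8, T3, (K (.negSucc 215747))⟩,
  ⟨T8, T4, (K (.ofNat 21912408))⟩,
  ⟨T9, T2, (K (.negSucc 16989863))⟩,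
  ⟨T10, T3, (K (.negSucc 11361131))⟩,
  ⟨T11, T2, (K (.ofNat 9312570))⟩,
  ⟨T14, T2, (K (.ofNat 25290918))⟩,
  ⟨T15, T2, (K (.ofNat 1032258))⟩] c_lrr c_lrl c_lrp c_lrq)
def c_llr : Cert := (.node [⟨.x, .z, (.node (.ofNat 0) (.node (.ofNat 0) .nil .nil (K (.ofNat 44721706)) (K (.ofNat 17723724))) (.node (.ofNat 0) .nil .nil (K (.negSucc 35924401)) (K (.negSucc 6584179))) (.node (.ofNat 0) (K (.negSucc 42815737)) (K (.negSucc 7499827)) .nil .nil) (.node (.ofNat 0) (K (.ofNat 55811994)) (K (.ofNat 68361616)) .nil .nil))⟩,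
  ⟨T3, .x, (.node (.ofNat 0) .nil .nil (K (.negSucc 44883189)) (K (.negSucc 65850831)))⟩,
  ⟨T3, .z, (.node (.ofNat 0) (K (.ofNat 13663167)) (K (.ofNat 178228993)) .nil .nil)⟩,
  ⟨T4, .x, (.node (.ofNat 0) .nil .nil (K (.negSucc 14734873)) (K (.ofNat 21122196)))⟩,
  ⟨T5, .x, (.node (.ofNat 0) (K (.ofNat 46032021)) (K (.ofNat 156462665)) .nil .nil)⟩,
  ⟨T9, .x, (K (.negSucc 2777757))⟩,
  ⟨T3, T3, (K (.ofNat 9053158))⟩,
  ⟨T14, .x, (K (.negSucc 9013489))⟩,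
  ⟨T15, .x, (K (.ofNat 12594480))⟩,
  ⟨T4, T3, (K (.negSucc 49599757))⟩,
  ⟨T4, T4, (K (.ofNat 36584142))⟩] (.node [⟨.x, .z, (.node (.ofNat 0) .nil .nil (K (.negSucc 5715817)) (K (.ofNat 27057898)))⟩,
  ⟨T3, .z, (K (.negSucc 9271045))⟩,
  ⟨T5, .x, (K (.ofNat 9683538))⟩] .nil .nil (.node [⟨.x, .z, (K (.negSucc 37056509))⟩] .nil .nil .nil .nil) (.node [⟨.x, .z, (K (.negSucc 19906538))⟩] .nil .nil .nil .nil)) (.node [⟨.x, .z, (.node (.ofNat 0) .nil .nil (K (.negSucc 28933047)) (K (.negSucc 23954673)))⟩,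
  ⟨T3, .z, (K (.negSucc 91821625))⟩,
  ⟨T5, .x, (K (.negSucc 30250957))⟩] .nil .nil (.node [⟨.x, .z, (K (.ofNat 89780678))⟩] .nil .nil .nil .nil) (.node [⟨.x, .z, (K (.negSucc 52784148))⟩] .nil .nil .nil .nil)) (.node [⟨.x, .z, (.node (.ofNat 0) (K (.negSucc 49773717)) (K (.negSucc 41914641)) .nil .nil)⟩,
  ⟨T3, .x, (K (.negSucc 29734465))⟩,
  ⟨T4, .x, (K (.ofNat 10308220))⟩] (.node [⟨.x, .z, (K (.ofNat 113501672))⟩] .nil .nil .nil .nil) (.node [⟨.x, .z, (K (.ofNat 21184402))⟩] .nil .nil .nil .nil) .nil .nil) (.node [⟨.x, .z, (.node (.ofNat 0) (K (.negSucc 47820320)) (K (.negSucc 158316949)) .nil .nil)⟩,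
  ⟨T3, .x, (K (.negSucc 24434458))⟩] .nil (.node [⟨.x, .z, (K (.ofNat 47612310))⟩] .nil .nil .nil .nil) .nil .nil))
def c_lll : Cert := (.node [⟨.x, .z, (.node (.ofNat 0) (.node (.ofNat 0) .nil .nil (K (.negSucc 14675359)) (K (.negSucc 539240))) (.node (.ofNat 0) .nil .nil (K (.negSucc 3499593)) (K (.negSucc 77084))) (.node (.ofNat 0) (K (.negSucc 11815163)) (K (.negSucc 124588032)) .nil .nil) (.node (.ofNat 0) (K (.ofNat 3096033)) (K (.ofNat 11403256)) .nil .nil))⟩,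
  ⟨T3, .x, (.node (.ofNat 0) .nil .nil (K (.negSucc 5359462)) (K (.negSucc 12104763)))⟩,
  ⟨T3, .z, (.node (.ofNat 0) (K (.negSucc 54845422)) (K (.negSucc 118529299)) .nil .nil)⟩,
  ⟨T4, .x, (.node (.ofNat 0) .nil .nil (K (.ofNat 3651609)) (K (.ofNat 17168847)))⟩,
  ⟨T5, .x, (.node (.ofNat 0) (K (.negSucc 2106332)) (K (.ofNat 19665585)) .nil .nil)⟩,
  ⟨T9, .x, (K (.negSucc 6100870))⟩,
  ⟨T3, T3, (K (.negSucc 15897612))⟩,
  ⟨T14, .x, (K (.negSucc 5907549))⟩,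
  ⟨T15, .x, (K (.negSucc 1472282))⟩,
  ⟨T4, T3, (K (.ofNat 8158913))⟩,
  ⟨T4, T4, (K (.negSucc 1147274))⟩] (.node [⟨.x, .z, (.node (.ofNat 0) .nil .nil (K (.ofNat 10485928)) (K (.ofNat 798074)))⟩,
  ⟨T3, .z, (K (.negSucc 3974348))⟩,
  ⟨T5, .x, (K (.ofNat 15780121))⟩] .nil .nil (.node [⟨.x, .z, (K (.ofNat 21797058))⟩] .nil .nil .nil .nil) (.node [⟨.x, .z, (K (.negSucc 13812996))⟩] .nil .nil .nil .nil)) (.node [⟨.x, .z, (.node (.ofNat 0) .nil .nil (K (.negSucc 20425304)) (K (.negSucc 23194439)))⟩,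
  ⟨T3, .z, (K (.negSucc 45269131))⟩,
  ⟨T5, .x, (K (.ofNat 38880))⟩] .nil .nil (.node [⟨.x, .z, (K (.ofNat 39660036))⟩] .nil .nil .nil .nil) (.node [⟨.x, .z, (K (.ofNat 3671496))⟩] .nil .nil .nil .nil)) (.node [⟨.x, .z, (.node (.ofNat 0) (K (.negSucc 112149279)) (K (.negSucc 79395778)) .nil .nil)⟩,
  ⟨T3, .x, (K (.ofNat 17559463))⟩,
  ⟨T4, .x, (K (.ofNat 118834047))⟩] (.node [⟨.x, .z, (K (.ofNat 124366249))⟩] .nil .nil .nil .nil) (.node [⟨.x, .z, (K (.ofNat 13781689))⟩] .nil .nil .nil .nil) .nil .nil) (.node [⟨.x, .z, (.node (.ofNat 0) (K (.negSucc 1204367)) (K (.ofNat 27038808)) .nil .nil)⟩,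
  ⟨T3, .x, (K (.ofNat 2240195))⟩] .nil (.node [⟨.x, .z, (K (.negSucc 3452826))⟩] .nil .nil .nil .nil) .nil .nil))
def c_llp : Cert := (.node [⟨.x, .z, (.node (.ofNat 0) (.node (.ofNat 0) (K (.ofNat 72218824)) (K (.ofNat 59646486)) .nil .nil) (.node (.ofNat 0) (K (.ofNat 58033535)) (K (.negSucc 15928106)) .nil .nil) .nil .nil)⟩,
  ⟨T3, .x, (.node (.ofNat 0) (K (.ofNat 50409281)) (K (.negSucc 96366110)) .nil .nil)⟩,
  ⟨T4, .x, (.node (.ofNat 0) (K (.ofNat 19620495)) (K (.ofNat 47770881)) .nil .nil)⟩,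
  ⟨T2, T3, (K (.negSucc 20546495))⟩,
  ⟨T2, T4, (K (.negSucc 17008589))⟩] (.node [⟨.x, .z, (.node (.ofNat 0) (K (.negSucc 97241576)) (K (.negSucc 157065650)) .nil .nil)⟩,
  ⟨T3, .x, (K (.ofNat 38149270))⟩,
  ⟨T4, .x, (K (.ofNat 86425942))⟩] (.node [⟨.x, .z, (K (.ofNat 91766142))⟩] .nil .nil .nil .nil) (.node [⟨.x, .z, (K (.ofNat 17324955))⟩] .nil .nil .nil .nil) .nil .nil) (.node [⟨.x, .z, (.node (.ofNat 0) (K (.negSucc 58800278)) (K (.ofNat 30159608)) .nil .nil)⟩,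
  ⟨T3, .x, (K (.ofNat 111889769))⟩,
  ⟨T4, .x, (K (.ofNat 105327090))⟩] (.node [⟨.x, .z, (K (.ofNat 75448110))⟩] .nil .nil .nil .nil) (.node [⟨.x, .z, (K (.negSucc 19768366))⟩] .nil .nil .nil .nil) .nil .nil) .nil .nil)
def c_llq : Cert := (.node [⟨.x, .z, (.node (.ofNat 0) (.node (.ofNat 0) (K (.ofNat 16392)) (K (.negSucc 28034543)) .nil .nil) (.node (.ofNat 0) (K (.negSucc 28760849)) (K (.negSucc 16315259)) .nil .nil) .nil .nil)⟩,
  ⟨T3, .x, (.node (.ofNat 0) (K (.ofNat 6616897)) (K (.negSucc 4670522)) .nil .nil)⟩,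
  ⟨T2, T3, (K (.ofNat 19456452))⟩,
  ⟨T2, T4, (K (.negSucc 2561399))⟩] .nil (.node [⟨.x, .z, (.node (.ofNat 0) (K (.ofNat 43018831)) (K (.ofNat 5958909)) .nil .nil)⟩,
  ⟨T3, .x, (K (.ofNat 35348346))⟩,
  ⟨T4, .x, (K (.negSucc 29295647))⟩] (.node [⟨.x, .z, (K (.negSucc 16822423))⟩] .nil .nil .nil .nil) (.node [⟨.x, .z, (K (.negSucc 18119141))⟩] .nil .nil .nil .nil) .nil .nil) .nil .nil)
def c_ll : Cert := (.node [⟨.x, .z, (.node (.ofNat 0) (.node (.ofNat 0) (.node (.ofNat 0) .nil .nil (K (.ofNat 82320)) (K (.negSucc 8226072))) (.node (.ofNat 0) .nil .nil (K (.negSucc 106951790)) (K (.negSucc 94988875))) (.node (.ofNat 0) (K (.ofNat 988856)) (K (.negSucc 64769214)) .nil .nil) (.node (.ofNat 0) (K (.negSucc 4855211)) (K (.negSucc 63651944)) .nil .nil)) (.node (.ofNat 0) (.node (.ofNat 0) .nil .nil (K (.negSucc 12465295)) (K (.negSucc 84309166))) (.node (.ofNat 0) .nil .nil (K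 (.negSucc 33142534)) (K (.ofNat 4641762))) (.node (.ofNat 0) (K (.negSucc 3211767)) (K (.ofNat 96201381)) .nil .nil) (.node (.ofNat 0) (K (.negSucc 1161773)) (K (.negSucc 104814368)) .nil .nil)) (.node (.ofNat 0) (.node (.ofNat 0) (K (.ofNat 4708388)) (K (.ofNat 96855201)) .nil .nil) (.node (.ofNat 0) (K (.ofNat 113724425)) (K (.ofNat 98300395)) .nil .nil) .nil .nil) (.node (.ofNat 0) (.node (.ofNat 0) (K (.negSucc 16674136)) (K (.negSucc 52141962)) .nil .nil) (.node (.ofNat 0) (K (.ofNat 19250206)) (K (.ofNat 137641644)) .nil .nil) .nil .nil))⟩,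
  ⟨T3, .x, (.node (.ofNat 0) (.node (.ofNat 0) .nil .nil (K (.ofNat 7644438)) (K (.ofNat 23589190))) (.node (.ofNat 0) .nil .nil (K (.negSucc 39377157)) (K (.negSucc 27447515))) (.node (.ofNat 0) (K (.negSucc 8152468)) (K (.negSucc 46925288)) .nil .nil) (.node (.ofNat 0) .nil (K (.negSucc 114624129)) .nil .nil))⟩,
  ⟨T3, .z, (.node (.ofNat 0) (.node (.ofNat 0) (K (.negSucc 23466536)) (K (.negSucc 127041774)) .nil .nil) (.node (.ofNat 0) (K (.ofNat 7403430)) (K (.ofNat 120477736)) .nil .nil) .nil .nil)⟩,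
  ⟨T4, .x, (.node (.ofNat 0) (.node (.ofNat 0) .nil .nil (K (.negSucc 13294325)) (K (.ofNat 22093601))) (.node (.ofNat 0) .nil .nil (K (.ofNat 7827361)) (K (.ofNat 14273796))) (.node (.ofNat 0) (K (.ofNat 10396907)) (K (.negSucc 94612695)) .nil .nil) (.node (.ofNat 0) .nil (K (.ofNat 27389093)) .nil .nil))⟩,
  ⟨T5, .x, (.node (.ofNat 0) (.node (.ofNat 0) (K (.ofNat 7470485)) (K (.negSucc 17227276)) .nil .nil) (.node (.ofNat 0) (K (.ofNat 21096559)) (K (.ofNat 133661219)) .nil .nil) .nil .nil)⟩,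
  ⟨T8, .x, (.node (.ofNat 0) .nil .nil (K (.ofNat 7116888)) (K (.negSucc 13523741)))⟩,
  ⟨T9, .x, (.node (.ofNat 0) (K (.negSucc 15237648)) (K (.negSucc 9164162)) .nil .nil)⟩,
  ⟨T10, .x, (.node (.ofNat 0) .nil .nil (K (.negSucc 3411299)) (K (.ofNat 28654596)))⟩,
  ⟨T2, T3, (.node (.ofNat 0) .nil .nil (K (.ofNat 19346844)) (K (.negSucc 2837957)))⟩,
  ⟨T2, T4, (.node (.ofNat 0) .nil .nil (K (.ofNat 1694406)) (K (.ofNat 21937620)))⟩,
  ⟨T3, T3, (.node (.ofNat 0) (K (.negSucc 10005340)) (K (.negSucc 5909579)) .nil .nil)⟩,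
  ⟨T14, .x, (.node (.ofNat 0) (K (.negSucc 1412281)) (K (.negSucc 39628859)) .nil .nil)⟩,
  ⟨T15, .x, (.node (.ofNat 0) (K (.negSucc 4898792)) (K (.ofNat 1755267)) .nil .nil)⟩,
  ⟨T4, T3, (.node (.ofNat 0) (K (.negSucc 6389368)) (K (.ofNat 67450731)) .nil .nil)⟩,
  ⟨T4, T4, (.node (.ofNat 0) (K (.ofNat 525555)) (K (.negSucc 33074966)) .nil .nil)⟩,
  ⟨T8, T3, (K (.ofNat 30504834))⟩,
  ⟨T9, T2, (K (.negSucc 19396835))⟩,
  ⟨T10, T3, (K (.negSucc 17221589))⟩,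
  ⟨T14, T2, (K (.negSucc 6884495))⟩,
  ⟨T15, T2, (K (.ofNat 1470420))⟩] c_llr c_lll c_llp c_llq)
def c_lpr : Cert := (.node [⟨.x, .z, (.node (.ofNat 0) (.node (.ofNat 0) (K (.negSucc 61624508)) (K (.negSucc 20365475)) .nil .nil) (.node (.ofNat 0) (K (.negSucc 60461600)) (K (.negSucc 181071398)) .nil .nil) .nil .nil)⟩,
  ⟨T3, .x, (.node (.ofNat 0) (K (.negSucc 3384647)) (K (.negSucc 40306727)) .nil .nil)⟩,
  ⟨T4, .x, (.node (.ofNat 0) (K (.ofNat 11796396)) (K (.ofNat 43952556)) .nil .nil)⟩,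
  ⟨T8, .x, (K (.negSucc 6101711))⟩,
  ⟨T10, .x, (K (.negSucc 2799089))⟩,
  ⟨T2, T3, (K (.negSucc 6763475))⟩,
  ⟨T2, T4, (K (.ofNat 6772332))⟩] (.node [⟨.x, .z, (.node (.ofNat 0) (K (.negSucc 34781249)) (K (.negSucc 20975841)) .nil .nil)⟩,
  ⟨T3, .x, (K (.ofNat 8637344))⟩,
  ⟨T4, .x, (K (.ofNat 79322372))⟩] (.node [⟨.x, .z, (K (.ofNat 67069218))⟩] .nil .nil .nil .nil) (.node [⟨.x, .z, (K (.ofNat 23623788))⟩] .nil .nil .nil .nil) .nil .nil) (.node [⟨.x, .z, (.node (.ofNat 0) (K (.ofNat 204427995)) (K (.ofNat 259789304)) .nil .nil)⟩,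
  ⟨T3, .x, (K (.ofNat 2121337))⟩,
  ⟨T4, .x, (K (.negSucc 196836255))⟩] (.node [⟨.x, .z, (K (.negSucc 169976096))⟩] .nil .nil .nil .nil) (.node [⟨.x, .z, (K (.negSucc 13509365))⟩] .nil .nil .nil .nil) .nil .nil) .nil .nil)
def c_lpl : Cert := (.node [⟨.x, .z, (.node (.ofNat 0) (.node (.ofNat 0) (K (.ofNat 18592519)) (K (.ofNat 15927399)) .nil .nil) (.node (.ofNat 0) (K (.ofNat 20223173)) (K (.ofNat 95170350)) .nil .nil) .nil .nil)⟩,
  ⟨T3, .x, (.node (.ofNat 0) (K (.ofNat 64702115)) (K (.ofNat 17735071)) .nil .nil)⟩,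
  ⟨T4, .x, (.node (.ofNat 0) (K (.ofNat 28365810)) (K (.ofNat 27029748)) .nil .nil)⟩,
  ⟨T8, .x, (K (.negSucc 9084965))⟩,
  ⟨T10, .x, (K (.ofNat 11802516))⟩,
  ⟨T2, T3, (K (.negSucc 39990107))⟩,
  ⟨T2, T4, (K (.negSucc 8357))⟩] (.node [⟨.x, .z, (.node (.ofNat 0) (K (.ofNat 46443120)) (K (.ofNat 53609963)) .nil .nil)⟩,
  ⟨T3, .x, (K (.ofNat 57072629))⟩,
  ⟨T4, .x, (K (.negSucc 42069863))⟩] (.node [⟨.x, .z, (K (.negSucc 33625013))⟩] .nil .nil .nil .nil) (.node [⟨.x, .z, (K (.ofNat 740868))⟩] .nil .nil .nil .nil) .nil .nil) (.node [⟨.x, .z, (.node (.ofNat 0) (K (.ofNat 29557629)) (K (.ofNat 45789884)) .nil .nil)⟩,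
  ⟨T3, .x, (K (.ofNat 25061235))⟩] (.node [⟨.x, .z, (K (.negSucc 30688214))⟩] .nil .nil .nil .nil) (.node [⟨.x, .z, (K (.negSucc 10822463))⟩] .nil .nil .nil .nil) .nil .nil) .nil .nil)
def c_lpp : Cert := (.node [⟨T2, T2, (K (.ofNat 5257170))⟩] .nil .nil .nil .nil)
def c_lpq : Cert := (.node [⟨T2, T2, (K (.ofNat 5379273))⟩] .nil .nil .nil .nil)
def c_lp : Cert := (.node [⟨.x, .z, (.node (.ofNat 0) (.node (.ofNat 0) (.node (.ofNat 0) (K (.ofNat 42025678)) (K (.ofNat 49634648)) .nil .nil) (.node (.ofNat 0) (K (.ofNat 49103150)) (K (.ofNat 46312570)) .nil .nil) .nil .nil) (.node (.ofNat 0) (.node (.ofNat 0) (K (.ofNat 58290223)) (K (.ofNat 61027340)) .nil .nil) (.node (.ofNat 0) (K (.ofNat 46020311)) (K (.ofNat 1066123)) .nil .nil) .nil .nil) .nil .nil)⟩,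
  ⟨T3, .x, (.node (.ofNat 0) (.node (.ofNat 0) (K (.ofNat 2270715)) (K (.negSucc 12456055)) .nil .nil) (.node (.ofNat 0) (K (.ofNat 9741597)) (K (.negSucc 70171536)) .nil .nil) .nil .nil)⟩,
  ⟨T4, .x, (.node (.ofNat 0) (.node (.ofNat 0) (K (.negSucc 26055004)) (K (.negSucc 8628123)) .nil .nil) (.node (.ofNat 0) (K (.negSucc 35565768)) (K (.negSucc 19230928)) .nil .nil) .nil .nil)⟩,
  ⟨T2, T2, (.node (.ofNat 0) .nil .nil (K (.ofNat 899907)) (K (.negSucc 1171208)))⟩,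
  ⟨T2, T3, (.node (.ofNat 0) (K (.ofNat 70170510)) (K (.ofNat 123983760)) .nil .nil)⟩,
  ⟨T2, T4, (.node (.ofNat 0) (K (.negSucc 4514459)) (K (.negSucc 15665501)) .nil .nil)⟩,
  ⟨T8, T2, (K (.ofNat 288354))⟩,
  ⟨T10, T2, (K (.negSucc 5569115))⟩] c_lpr c_lpl c_lpp c_lpq)
def c_lql : Cert := (.node [⟨.x, .z, (.node (.ofNat 0) (.node (.ofNat 0) (K (.ofNat 25614133)) (K (.ofNat 97561588)) .nil .nil) (.node (.ofNat 0) (K (.ofNat 23743175)) (K (.negSucc 7219626)) .nil .nil) .nil .nil)⟩,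
  ⟨T3, .x, (.node (.ofNat 0) (K (.ofNat 56091702)) (K (.ofNat 22654248)) .nil .nil)⟩,
  ⟨T4, .x, (.node (.ofNat 0) (K (.negSucc 1495571)) (K (.negSucc 61938551)) .nil .nil)⟩,
  ⟨T8, .x, (K (.ofNat 31426788))⟩,
  ⟨T10, .x, (K (.ofNat 3442146))⟩,
  ⟨T2, T3, (K (.ofNat 701694))⟩,
  ⟨T2, T4, (K (.negSucc 2100149))⟩] (.node [⟨.x, .z, (.node (.ofNat 0) (K (.negSucc 58283)) (K (.negSucc 28071633)) .nil .nil)⟩] (.node [⟨.x, .z, (K (.negSucc 6368261))⟩] .nil .nil .nil .nil) (.node [⟨.x, .z, (K (.ofNat 7474710))⟩] .nil .nil .nil .nil) .nil .nil) (.node [⟨.x, .z, (.node (.ofNat 0) (K (.negSucc 9892799)) (K (.negSucc 11153561)) .nil .nil)⟩,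
  ⟨T3, .x, (K (.negSucc 3939821))⟩,
  ⟨T4, .x, (K (.negSucc 3377237))⟩] (.node [⟨.x, .z, (K (.negSucc 7956083))⟩] .nil .nil .nil .nil) (.node [⟨.x, .z, (K (.ofNat 4644108))⟩] .nil .nil .nil .nil) .nil .nil) .nil .nil)
def c_lqp : Cert := (.node [⟨T2, T2, (K (.ofNat 7630920))⟩] .nil .nil .nil .nil)
def c_lqq : Cert := (.node [⟨T2, T2, (K (.ofNat 3672))⟩] .nil .nil .nil .nil)
def c_lq : Cert := (.node [⟨.x, .z, (.node (.ofNat 0) (.node (.ofNat 0) (.node (.ofNat 0) (K (.negSucc 1380315)) (K (.negSucc 8172013)) .nil .nil) (.node (.ofNat 0) (K (.negSucc 11751583)) (K (.ofNat 5588486)) .nil .nil) .nil .nil) (.node (.ofNat 0) (.node (.ofNat 0) (K (.ofNat 1891544)) (K (.negSucc 17461189)) .nil .nil) (.node (.ofNat 0) (K (.negSucc 1865341)) (K (.negSucc 22298979)) .nil .nil) .nil .nil) .nil .nil)⟩,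
  ⟨T3, .x, (.node (.ofNat 0) (.node (.ofNat 0) (K (.negSucc 5083324)) (K (.negSucc 12968401)) .nil .nil) (.node (.ofNat 0) (K (.negSucc 17262102)) (K (.negSucc 29428578)) .nil .nil) .nil .nil)⟩,
  ⟨T2, T2, (.node (.ofNat 0) .nil .nil (K (.negSucc 3611153)) (K (.negSucc 3430925)))⟩,
  ⟨T2, T3, (.node (.ofNat 0) (K (.ofNat 14900124)) (K (.ofNat 19197720)) .nil .nil)⟩,
  ⟨T2, T4, (.node (.ofNat 0) (K (.ofNat 2361966)) (K (.ofNat 5667480)) .nil .nil)⟩,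
  ⟨T8, T2, (K (.negSucc 747485))⟩,
  ⟨T10, T2, (K (.ofNat 2543958))⟩,
  ⟨T13, T2, (K (.ofNat 210744))⟩] .nil c_lql c_lqp c_lqq)
def c_l : Cert := (.node [⟨.x, .z, (.node (.ofNat 0) (.node (.ofNat 0) (.node (.ofNat 0) (.node (.ofNat 0) .nil .nil (K (.ofNat 5721306)) (K (.ofNat 5655467))) (.node (.ofNat 0) .nil .nil (K (.negSucc 56607657)) (K (.negSucc 6666389))) (.node (.ofNat 0) (K (.ofNat 823212)) (K (.ofNat 50301691)) .nil .nil) (.node (.ofNat 0) (K (.ofNat 2522238)) (K (.negSucc 14489600)) .nil .nil)) (.node (.ofNat 0) (.node (.ofNat 0) .nil .nil (K (.negSucc 74033896)) (K (.ofNat 16246812))) (.node (.ofNat 0) .nil .nil (K (.negSucc 71020924)) (K (.ofNat 10279620))) (.node (.ofNat 0) (K (.negSucc 22744243)) (K (.negSucc 119671813)) .nil .nil) (.node (.ofNat 0) (K (.ofNat 1079982)) (K (.negSucc 96081515)) .nil .nil)) (.node (.ofNat 0) (.node (.ofNat 0) (K (.negSucc 54876815))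 (K (.negSucc 40645783)) .nil .nil) (.node (.ofNat 0) (K (.negSucc 16168963)) (K (.negSucc 111890196)) .nil .nil) .nil .nil) (.node (.ofNat 0) (.node (.ofNat 0) (K (.ofNat 10657638)) (K (.ofNat 7002492)) .nil .nil) (.node (.ofNat 0) (K (.ofNat 17248026)) (K (.ofNat 1262873)) .nil .nil) .nil .nil)) (.node (.ofNat 0) (.node (.ofNat 0) (.node (.ofNat 0) .nil .nil (K (.negSucc 2447681)) (K (.ofNat 21371633))) (.node (.ofNat 0) .nil .nil (K (.ofNat 36170066)) (K (.ofNat 91806708))) (.node (.ofNat 0) (K (.ofNat 7762710)) (K (.ofNat 165485659)) .nil .nil) (.node (.ofNat 0) (K (.negSucc 1138301)) (K (.negSucc 64160522)) .nil .nil)) (.node (.ofNat 0) (.node (.ofNat 0) .nil .nil (K (.negSucc 62416792)) (K (.ofNat 88299156))) (.node (.ofNat 0) .nil .nil (K (.negSucc 47515804)) (K (.ofNat 3506838))) (.node (.ofNat 0) (K (.ofNat 2534734)) (K (.negSucc 120427993)) .nil .nil) (.node (.ofNat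 0) (K (.ofNat 4771812)) (K (.negSucc 7810439)) .nil .nil)) (.node (.ofNat 0) (.node (.ofNat 0) (K (.negSucc 33260711)) (K (.negSucc 185970807)) .nil .nil) (.node (.ofNat 0) (K (.negSucc 63472363)) (K (.negSucc 42610348)) .nil .nil) .nil .nil) (.node (.ofNat 0) (.node (.ofNat 0) (K (.ofNat 31524182)) (K (.ofNat 75382516)) .nil .nil) (.node (.ofNat 0) (K (.ofNat 38723728)) (K (.negSucc 68160916)) .nil .nil) .nil .nil)) (.node (.ofNat 0) (.node (.ofNat 0) (.node (.ofNat 0) (K (.negSucc 4069327)) (K (.negSucc 57203718)) .nil .nil) (.node (.ofNat 0) (K (.ofNat 22440542)) (K (.ofNat 59932117)) .nil .nil) .nil .nil) (.node (.ofNat 0) (.node (.ofNat 0) (K (.ofNat 22679355)) (K (.ofNat 38807087)) .nil .nil) (.node (.ofNat 0) (K (.ofNat 44466645)) (K (.ofNat 43848223)) .nil .nil) .nil .nil) .nil .nil) (.node (.ofNat 0) (.node (.ofNat 0) (.node (.ofNat 0) (K (.ofNat 13691795)) (K (.ofNat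 8588728)) .nil .nil) (.node (.ofNat 0) (K (.ofNat 10591921)) (K (.negSucc 9030936)) .nil .nil) .nil .nil) (.node (.ofNat 0) (.node (.ofNat 0) (K (.ofNat 10716)) (K (.negSucc 58098781)) .nil .nil) (.node (.ofNat 0) (K (.ofNat 24534498)) (K (.ofNat 108620456)) .nil .nil) .nil .nil) .nil .nil))⟩,
  ⟨T3, .x, (.node (.ofNat 0) (.node (.ofNat 0) (.node (.ofNat 0) .nil .nil (K (.ofNat 46689012)) (K (.ofNat 21957470))) (.node (.ofNat 0) .nil .nil (K (.negSucc 89045123)) (K (.negSucc 78444697))) (.node (.ofNat 0) (K (.ofNat 9897600)) (K (.negSucc 134201781)) .nil .nil) (.node (.ofNat 0) .nil (K (.negSucc 60988963)) .nil .nil)) (.node (.ofNat 0) (.node (.ofNat 0) .nil .nil (K (.ofNat 28714540)) (K (.negSucc 51579955))) (.node (.ofNat 0) .nil .nil (K (.negSucc 29336125)) (K (.negSucc 8834243))) (.node (.ofNat 0) (K (.ofNat 42686434)) (K (.negSucc 24028287)) .nil .nil) (.node (.ofNat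 0) .nil (K (.negSucc 136070027)) .nil .nil)) (.node (.ofNat 0) (.node (.ofNat 0) (K (.negSucc 3101864)) (K (.ofNat 45005334)) .nil .nil) (.node (.ofNat 0) (K (.ofNat 85755465)) (K (.negSucc 1872758)) .nil .nil) .nil .nil) (.node (.ofNat 0) .nil (.node (.ofNat 0) (K (.ofNat 40228254)) (K (.ofNat 49091496)) .nil .nil) .nil .nil))⟩,
  ⟨T3, .z, (.node (.ofNat 0) (.node (.ofNat 0) (.node (.ofNat 0) (K (.ofNat 7912259)) (K (.ofNat 35452674)) .nil .nil) (.node (.ofNat 0) (K (.ofNat 34879909)) (K (.negSucc 7647770)) .nil .nil) .nil .nil) (.node (.ofNat 0) (.node (.ofNat 0) (K (.ofNat 23735536)) (K (.ofNat 76138716)) .nil .nil) (.node (.ofNat 0) (K (.ofNat 71024786)) (K (.ofNat 117181380)) .nil .nil) .nil .nil) .nil .nil)⟩,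
  ⟨T4, .x, (.node (.ofNat 0) (.node (.ofNat 0) (.node (.ofNat 0) .nil .nil (K (.ofNat 3759048)) (K (.negSucc 10767506))) (.node (.ofNat 0) .nil .nil (K (.negSucc 14555791)) (K (.negSucc 67215913))) (.node (.ofNat 0) (K (.negSucc 9405821)) (K (.negSucc 120695734)) .nil .nil) (.node (.ofNat 0) .nil (K (.ofNat 50492685)) .nil .nil)) (.node (.ofNat 0) (.node (.ofNat 0) .nil .nil (K (.ofNat 56165235)) (K (.negSucc 83682463))) (.node (.ofNat 0) .nil .nil (K (.ofNat 43805643)) (K (.negSucc 11016509))) (.node (.ofNat 0) (K (.ofNat 10314972)) (K (.ofNat 136787306)) .nil .nil) (.node (.ofNat 0) .nil (K (.ofNat 64658382)) .nil .nil)) (.node (.ofNat 0) (.node (.ofNat 0) (K (.ofNat 54842645)) (K (.ofNat 155808960)) .nil .nil) (.node (.ofNat 0) (K (.ofNat 72447039)) (K (.ofNat 29987812)) .nil .nil) .nil .nil) (.node (.ofNat 0) .nil (.node (.ofNat 0) .nil (K (.ofNat 1420785)) .nil .nil)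 .nil .nil))⟩,
  ⟨T5, .x, (.node (.ofNat 0) (.node (.ofNat 0) (.node (.ofNat 0) (K (.ofNat 8148603)) (K (.ofNat 43124334)) .nil .nil) (.node (.ofNat 0) (K (.ofNat 26096049)) (K (.ofNat 27169107)) .nil .nil) .nil .nil) (.node (.ofNat 0) (.node (.ofNat 0) (K (.negSucc 10960192)) (K (.ofNat 29153438)) .nil .nil) (.node (.ofNat 0) (K (.ofNat 13481609)) (K (.ofNat 53713063)) .nil .nil) .nil .nil) .nil .nil)⟩,
  ⟨T8, .x, (.node (.ofNat 0) (.node (.ofNat 0) .nil .nil (K (.ofNat 46366152)) (K (.ofNat 24504378))) (.node (.ofNat 0) .nil .nil (K (.negSucc 13745783)) (K (.negSucc 6631505))) (.node (.ofNat 0) (K (.ofNat 20275890)) (K (.negSucc 25175285)) .nil .nil) (.node (.ofNat 0) .nil (K (.negSucc 103816997)) .nil .nil))⟩,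
  ⟨T9, .x, (.node (.ofNat 0) (.node (.ofNat 0) (K (.negSucc 13867292)) (K (.negSucc 11702857)) .nil .nil) (.node (.ofNat 0) (K (.ofNat 1234581)) (K (.ofNat 15330719)) .nil .nil) .nil .nil)⟩,
  ⟨T10, .x, (.node (.ofNat 0) (.node (.ofNat 0) .nil .nil (K (.ofNat 3951654)) (K (.negSucc 22228913))) (.node (.ofNat 0) .nil .nil (K (.ofNat 15094464)) (K (.ofNat 1807974))) (.node (.ofNat 0) (K (.negSucc 642017)) (K (.ofNat 23739372)) .nil .nil) (.node (.ofNat 0) .nil (K (.ofNat 70191582)) .nil .nil))⟩,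
  ⟨T12, .x, (.node (.ofNat 0) .nil .nil (.node (.ofNat 0) .nil .nil (K (.negSucc 19411823)) (K (.negSucc 2299001))) .nil)⟩,
  ⟨T2, T2, (.node (.ofNat 0) .nil .nil (.node (.ofNat 0) .nil .nil (K (.ofNat 19365348)) (K (.ofNat 13008798))) (.node (.ofNat 0) .nil .nil (K (.ofNat 9389268)) (K (.ofNat 4777476))))⟩,
  ⟨T2, T3, (.node (.ofNat 0) (.node (.ofNat 0) .nil .nil (K (.ofNat 3667302)) (K (.ofNat 4081002))) (.node (.ofNat 0) .nil .nil (K (.negSucc 31724045)) (K (.negSucc 4824659))) (.node (.ofNat 0) (K (.ofNat 15116472)) (K (.negSucc 32338097)) .nil .nil) (.node (.ofNat 0) .nil (K (.negSucc 83155445)) .nil .nil))⟩,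
  ⟨T2, T4, (.node (.ofNat 0) (.node (.ofNat 0) .nil .nil (K (.negSucc 2556413)) (K (.negSucc 19205093))) (.node (.ofNat 0) .nil .nil (K (.ofNat 10430466)) (K (.ofNat 4029318))) (.node (.ofNat 0) (K (.ofNat 1773954)) (K (.ofNat 29119482)) .nil .nil) (.node (.ofNat 0) .nil (K (.ofNat 55380180)) .nil .nil))⟩,
  ⟨T3, T3, (.node (.ofNat 0) (.node (.ofNat 0) (K (.negSucc 7741072)) (K (.ofNat 10745347)) .nil .nil) (.node (.ofNat 0) (K (.negSucc 32562933)) (K (.negSucc 35189646)) .nil .nil) .nil .nil)⟩,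
  ⟨T14, .x, (.node (.ofNat 0) (.node (.ofNat 0) (K (.ofNat 10643598)) (K (.ofNat 44255750)) .nil .nil) (.node (.ofNat 0) (K (.ofNat 6519234)) (K (.ofNat 20580106)) .nil .nil) .nil .nil)⟩,
  ⟨T15, .x, (.node (.ofNat 0) (.node (.ofNat 0) (K (.negSucc 15567974)) (K (.negSucc 27790871)) .nil .nil) (.node (.ofNat 0) (K (.negSucc 5610710)) (K (.negSucc 25429268)) .nil .nil) .nil .nil)⟩,
  ⟨T4, T3, (.node (.ofNat 0) (.node (.ofNat 0) (K (.ofNat 951971)) (K (.negSucc 49955807)) .nil .nil) (.node (.ofNat 0) (K (.ofNat 10494511)) (K (.ofNat 89380107)) .nil .nil) .nil .nil)⟩,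
  ⟨T4, T4, (.node (.ofNat 0) (.node (.ofNat 0) (K (.ofNat 12503365)) (K (.ofNat 37949402)) .nil .nil) (.node (.ofNat 0) (K (.ofNat 11412284)) (K (.negSucc 34805764)) .nil .nil) .nil .nil)⟩,
  ⟨T8, T2, (.node (.ofNat 0) .nil .nil (K (.negSucc 3676373)) (K (.negSucc 1066955)))⟩,
  ⟨T8, T3, (.node (.ofNat 0) (K (.ofNat 7815240)) (K (.negSucc 24347303)) .nil .nil)⟩,
  ⟨T9, T2, (.node (.ofNat 0) (K (.negSucc 14996051)) (K (.negSucc 18935903)) .nil .nil)⟩,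
  ⟨T10, T2, (.node (.ofNat 0) .nil .nil (K (.ofNat 4561110)) (K (.ofNat 203646)))⟩,
  ⟨T10, T3, (.node (.ofNat 0) (K (.negSucc 13448843)) (K (.negSucc 7737749)) .nil .nil)⟩,
  ⟨T13, T2, (.node (.ofNat 0) .nil .nil (K (.negSucc 1743587)) (K (.negSucc 7915931)))⟩,
  ⟨T14, T2, (.node (.ofNat 0) (K (.negSucc 14607095)) (K (.negSucc 23581811)) .nil .nil)⟩,
  ⟨T15, T2, (.node (.ofNat 0) (K (.ofNat 10827156)) (K (.ofNat 14747682)) .nil .nil)⟩,
  ⟨T7, T8, (K (.negSucc 2279087))⟩,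
  ⟨T10, T8, (K (.ofNat 3532824))⟩,
  ⟨T13, T8, (K (.negSucc 4603679))⟩,
  ⟨T13, T10, (K (.negSucc 1288295))⟩] c_lr c_ll c_lp c_lq)
def c_prr : Cert := (.node [⟨.x, .z, (.node (.ofNat 0) (.node (.ofNat 0) (K (.negSucc 6719277)) (K (.ofNat 15413620)) .nil .nil) (.node (.ofNat 0) (K (.negSucc 2693677)) (K (.negSucc 7809147)) .nil .nil) .nil .nil)⟩,
  ⟨T3, .x, (.node (.ofNat 0) (K (.negSucc 4455767)) (K (.ofNat 153552)) .nil .nil)⟩,
  ⟨T4, .x, (.node (.ofNat 0) (K (.negSucc 421631)) (K (.ofNat 3331992)) .nil .nil)⟩,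
  ⟨T8, .x, (K (.negSucc 6076703))⟩,
  ⟨T10, .x, (K (.ofNat 4501992))⟩,
  ⟨T2, T3, (K (.negSucc 6398399))⟩,
  ⟨T2, T4, (K (.ofNat 4518264))⟩] (.node [⟨.x, .z, (.node (.ofNat 0) (K (.ofNat 4971618)) (K (.negSucc 9724121)) .nil .nil)⟩,
  ⟨T3, .x, (K (.negSucc 8364365))⟩,
  ⟨T4, .x, (K (.negSucc 518687))⟩] (.node [⟨.x, .z, (K (.negSucc 1207439))⟩] .nil .nil .nil .nil) (.node [⟨.x, .z, (K (.negSucc 1986365))⟩] .nil .nil .nil .nil) .nil .nil) (.node [⟨.x, .z, (.node (.ofNat 0) (K (.negSucc 34111477)) (K (.negSucc 40598921)) .nil .nil)⟩,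
  ⟨T3, .x, (K (.negSucc 10062139))⟩,
  ⟨T4, .x, (K (.ofNat 22519114))⟩] (.node [⟨.x, .z, (K (.ofNat 22849496))⟩] .nil .nil .nil .nil) (.node [⟨.x, .z, (K (.negSucc 3391589))⟩] .nil .nil .nil .nil) .nil .nil) .nil .nil)
def c_prl : Cert := (.node [⟨.x, .z, (.node (.ofNat 0) (.node (.ofNat 0) (K (.ofNat 5563991)) (K (.ofNat 3504409)) .nil .nil) (.node (.ofNat 0) (K (.ofNat 3067723)) (K (.ofNat 23630360)) .nil .nil) .nil .nil)⟩,
  ⟨T3, .x, (.node (.ofNat 0) (K (.negSucc 1992258)) (K (.ofNat 5531383)) .nil .nil)⟩,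
  ⟨T4, .x, (.node (.ofNat 0) (K (.negSucc 6612053)) (K (.negSucc 904265)) .nil .nil)⟩,
  ⟨T8, .x, (K (.negSucc 10977599))⟩,
  ⟨T10, .x, (K (.ofNat 5862648))⟩,
  ⟨T2, T3, (K (.negSucc 3354869))⟩,
  ⟨T2, T4, (K (.ofNat 2206308))⟩] (.node [⟨.x, .z, (.node (.ofNat 0) (K (.negSucc 80523828)) (K (.negSucc 120886750)) .nil .nil)⟩,
  ⟨T3, .x, (K (.negSucc 44921))⟩,
  ⟨T4, .x, (K (.ofNat 77465400))⟩] (.node [⟨.x, .z, (K (.ofNat 69058483))⟩] .nil .nil .nil .nil) (.node [⟨.x, .z, (K (.negSucc 9907421))⟩] .nil .nil .nil .nil) .nil .nil) (.node [⟨.x, .z, (.node (.ofNat 0) (K (.negSucc 164482373)) (K (.negSucc 185974957)) .nil .nil)⟩,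
  ⟨T3, .x, (K (.ofNat 12592682))⟩,
  ⟨T4, .x, (K (.ofNat 150418384))⟩] (.node [⟨.x, .z, (K (.ofNat 142340502))⟩] .nil .nil .nil .nil) (.node [⟨.x, .z, (K (.negSucc 2369669))⟩] .nil .nil .nil .nil) .nil .nil) .nil .nil)
def c_prp : Cert := (.node [⟨T2, T2, (K (.ofNat 172440))⟩] .nil .nil .nil .nil)
def c_prq : Cert := (.node [⟨T2, T2, (K (.negSucc 3443822))⟩] .nil .nil .nil .nil)
def c_pr : Cert := (.node [⟨.x, .z, (.node (.ofNat 0) (.node (.ofNat 0) (.node (.ofNat 0) (K (.negSucc 4514704)) (K (.negSucc 10734)) .nil .nil) (.node (.ofNat 0) (K (.ofNat 501185)) (K (.ofNat 13004668)) .nil .nil) .nil .nil) (.node (.ofNat 0) (.node (.ofNat 0) (K (.ofNat 12758891)) (K (.ofNat 618493)) .nil .nil) (.node (.ofNat 0) (K (.ofNat 17759161)) (K (.ofNat 27591515)) .nil .nil) .nil .nil) .nil .nil)⟩,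
  ⟨T3, .x, (.node (.ofNat 0) (.node (.ofNat 0) (K (.ofNat 9539650)) (K (.negSucc 14253669)) .nil .nil) (.node (.ofNat 0) (K (.ofNat 2565398)) (K (.negSucc 32152093)) .nil .nil) .nil .nil)⟩,
  ⟨T4, .x, (.node (.ofNat 0) (.node (.ofNat 0) (K (.ofNat 7890592)) (K (.ofNat 22002794)) .nil .nil) (.node (.ofNat 0) (K (.negSucc 1421085)) (K (.negSucc 1607341)) .nil .nil) .nil .nil)⟩,
  ⟨T8, .x, (.node (.ofNat 0) (K (.negSucc 1368083)) (K (.negSucc 29177309)) .nil .nil)⟩,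
  ⟨T10, .x, (.node (.ofNat 0) (K (.ofNat 3396192)) (K (.ofNat 29578806)) .nil .nil)⟩,
  ⟨T12, .x, (.node (.ofNat 0) .nil .nil (K (.ofNat 289002)) (K (.negSucc 289001)))⟩,
  ⟨T2, T2, (.node (.ofNat 0) .nil .nil (K (.ofNat 4172031)) (K (.ofNat 775944)))⟩,
  ⟨T2, T3, (.node (.ofNat 0) (K (.negSucc 6495647)) (K (.negSucc 30604961)) .nil .nil)⟩,
  ⟨T2, T4, (.node (.ofNat 0) (K (.ofNat 5797368)) (K (.ofNat 29010546)) .nil .nil)⟩,
  ⟨T8, T2, (K (.ofNat 221760))⟩,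
  ⟨T10, T2, (K (.negSucc 958319))⟩,
  ⟨T13, T2, (K (.negSucc 524159))⟩] c_prr c_prl c_prp c_prq)
def c_plr : Cert := (.node [⟨.x, .z, (.node (.ofNat 0) (.node (.ofNat 0) (K (.negSucc 68665972)) (K (.negSucc 22653612)) .nil .nil) (.node (.ofNat 0) (K (.negSucc 64028526)) (K (.negSucc 86095111)) .nil .nil) .nil .nil)⟩,
  ⟨T3, .x, (.node (.ofNat 0) (K (.ofNat 1858157)) (K (.ofNat 9220525)) .nil .nil)⟩,
  ⟨T4, .x, (.node (.ofNat 0) (K (.negSucc 8350121)) (K (.ofNat 2421564)) .nil .nil)⟩,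
  ⟨T8, .x, (K (.negSucc 5266553))⟩,
  ⟨T10, .x, (K (.negSucc 6823091))⟩,
  ⟨T2, T3, (K (.ofNat 743460))⟩,
  ⟨T2, T4, (K (.negSucc 1372469))⟩] (.node [⟨.x, .z, (.node (.ofNat 0) (K (.negSucc 89743054)) (K (.negSucc 109544894)) .nil .nil)⟩,
  ⟨T3, .x, (K (.ofNat 26099020))⟩,
  ⟨T4, .x, (K (.ofNat 137903074))⟩] (.node [⟨.x, .z, (K (.ofNat 110467205))⟩] .nil .nil .nil .nil) (.node [⟨.x, .z, (K (.ofNat 20182356))⟩] .nil .nil .nil .nil) .nil .nil) (.node [⟨.x, .z, (.node (.ofNat 0) (K (.negSucc 91692233)) (K (.negSucc 116470393)) .nil .nil)⟩,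
  ⟨T3, .x, (K (.negSucc 22989291))⟩,
  ⟨T4, .x, (K (.ofNat 69635278))⟩] (.node [⟨.x, .z, (K (.ofNat 112670760))⟩] .nil .nil .nil .nil) (.node [⟨.x, .z, (K (.ofNat 7308144))⟩] .nil .nil .nil .nil) .nil .nil) .nil .nil)
def c_pll : Cert := (.node [⟨.x, .z, (.node (.ofNat 0) (.node (.ofNat 0) (K (.negSucc 29176868)) (K (.negSucc 9528086)) .nil .nil) (.node (.ofNat 0) (K (.negSucc 8881406)) (K (.ofNat 7288806)) .nil .nil) .nil .nil)⟩,
  ⟨T3, .x, (.node (.ofNat 0) (K (.ofNat 10922039)) (K (.ofNat 10490059)) .nil .nil)⟩] (.node [⟨.x, .z, (.node (.ofNat 0) (K (.negSucc 10806128)) (K (.negSucc 40908002)) .nil .nil)⟩,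
  ⟨T3, .x, (K (.negSucc 23982209))⟩] (.node [⟨.x, .z, (K (.ofNat 14365935))⟩] .nil .nil .nil .nil) (.node [⟨.x, .z, (K (.ofNat 305496))⟩] .nil .nil .nil .nil) .nil .nil) (.node [⟨.x, .z, (.node (.ofNat 0) (K (.negSucc 20976843)) (K (.negSucc 46758895)) .nil .nil)⟩,
  ⟨T3, .x, (K (.negSucc 58203907))⟩] (.node [⟨.x, .z, (K (.ofNat 20914258))⟩] .nil .nil .nil .nil) (.node [⟨.x, .z, (K (.negSucc 1642007))⟩] .nil .nil .nil .nil) .nil .nil) .nil .nil)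
def c_plp : Cert := (.node [⟨T2, T2, (K (.ofNat 2248083))⟩] .nil .nil .nil .nil)
def c_plq : Cert := (.node [⟨T2, T2, (K (.negSucc 1066082))⟩] .nil .nil .nil .nil)
def c_pl : Cert := (.node [⟨.x, .z, (.node (.ofNat 0) (.node (.ofNat 0) (.node (.ofNat 0) (K (.ofNat 41113048)) (K (.ofNat 37954922)) .nil .nil) (.node (.ofNat 0) (K (.ofNat 41634008)) (K (.ofNat 33034690)) .nil .nil) .nil .nil) (.node (.ofNat 0) (.node (.ofNat 0) (K (.ofNat 41274380)) (K (.ofNat 28661884)) .nil .nil) (.node (.ofNat 0) (K (.ofNat 48224506)) (K (.ofNat 42245822)) .nil .nil) .nil .nil) .nil .nil)⟩,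
  ⟨T3, .x, (.node (.ofNat 0) (.node (.ofNat 0) (K (.negSucc 17960815)) (K (.negSucc 48475707)) .nil .nil) (.node (.ofNat 0) (K (.ofNat 1165718)) (K (.negSucc 48997207)) .nil .nil) .nil .nil)⟩,
  ⟨T4, .x, (.node (.ofNat 0) (.node (.ofNat 0) (K (.negSucc 31551487)) (K (.ofNat 8773844)) .nil .nil) (.node (.ofNat 0) (K (.negSucc 30290349)) (K (.negSucc 7536367)) .nil .nil) .nil .nil)⟩,
  ⟨T8, .x, (.node (.ofNat 0) (K (.negSucc 1953071)) (K (.negSucc 38187455)) .nil .nil)⟩,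
  ⟨T10, .x, (.node (.ofNat 0) (K (.ofNat 1918566)) (K (.ofNat 36398724)) .nil .nil)⟩,
  ⟨T12, .x, (.node (.ofNat 0) .nil .nil (K (.ofNat 2299002)) (K (.negSucc 2299001)))⟩,
  ⟨T2, T2, (.node (.ofNat 0) .nil .nil (K (.negSucc 416216)) (K (.negSucc 7627223)))⟩,
  ⟨T2, T3, (.node (.ofNat 0) (K (.ofNat 53277144)) (K (.ofNat 61108878)) .nil .nil)⟩,
  ⟨T2, T4, (.node (.ofNat 0) (K (.ofNat 8759382)) (K (.ofNat 35419776)) .nil .nil)⟩,
  ⟨T8, T2, (K (.ofNat 770094))⟩,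
  ⟨T10, T2, (K (.negSucc 5032313))⟩,
  ⟨T13, T2, (K (.ofNat 7055568))⟩] c_plr c_pll c_plp c_plq)
def c_ppr : Cert := (.node [⟨T12, .x, (K (.negSucc 1546559))⟩,
  ⟨T2, T2, (K (.ofNat 113184))⟩] .nil .nil .nil .nil)
def c_ppl : Cert := (.node [⟨T12, .x, (K (.ofNat 1936656))⟩,
  ⟨T2, T2, (K (.negSucc 25925))⟩] .nil .nil .nil .nil)
def c_pp : Cert := (.node [⟨T2, T2, (.node (.ofNat 0) (K (.ofNat 802923)) (K (.ofNat 265140)) .nil .nil)⟩,
  ⟨T12, T2, (K (.ofNat 337824))⟩] c_ppr c_ppl .nil .nil)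
def c_pql : Cert := (.node [⟨T2, T2, (K (.negSucc 3774548))⟩] .nil .nil .nil .nil)
def c_pq : Cert := (.node [⟨T2, T2, (.node (.ofNat 0) (K (.negSucc 2494649)) (K (.ofNat 264933)) .nil .nil)⟩,
  ⟨T12, T2, (K (.ofNat 990048))⟩] .nil c_pql .nil .nil)
def c_p : Cert := (.node [⟨.x, .z, (.node (.ofNat 0) (.node (.ofNat 0) (.node (.ofNat 0) (.node (.ofNat 0) (K (.ofNat 5647578)) (K (.negSucc 9546767)) .nil .nil) (.node (.ofNat 0) (K (.negSucc 8724053)) (K (.negSucc 8452049)) .nil .nil) .nil .nil) (.node (.ofNat 0) (.node (.ofNat 0) (K (.ofNat 3027642)) (K (.negSucc 2697557)) .nil .nil) (.node (.ofNat 0) (K (.negSucc 9897245)) (K (.negSucc 6247643)) .nil .nil) .nil .nil) .nil .nil) (.node (.ofNat 0) (.node (.ofNat 0) (.node (.ofNat 0) (K (.ofNat 2293737)) (K (.negSucc 15181484)) .nil .nil) (.node (.ofNat 0) (K (.negSucc 9479006)) (K (.negSucc 43251929)) .nil .nil) .nil .nil) (.node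 (.ofNat 0) (.node (.ofNat 0) (K (.negSucc 1171178)) (K (.negSucc 32190020)) .nil .nil) (.node (.ofNat 0) (K (.negSucc 8948264)) (K (.negSucc 23057192)) .nil .nil) .nil .nil) .nil .nil) .nil .nil)⟩,
  ⟨T3, .x, (.node (.ofNat 0) (.node (.ofNat 0) (.node (.ofNat 0) (K (.negSucc 18618914)) (K (.negSucc 29438186)) .nil .nil) (.node (.ofNat 0) (K (.negSucc 32816660)) (K (.negSucc 72136655)) .nil .nil) .nil .nil) (.node (.ofNat 0) (.node (.ofNat 0) (K (.negSucc 27720764)) (K (.negSucc 54862952)) .nil .nil) (.node (.ofNat 0) (K (.negSucc 38781584)) (K (.negSucc 58048178)) .nil .nil) .nil .nil) .nil .nil)⟩,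
  ⟨T4, .x, (.node (.ofNat 0) (.node (.ofNat 0) (.node (.ofNat 0) (K (.negSucc 654176)) (K (.ofNat 19101315)) .nil .nil) (.node (.ofNat 0) (K (.negSucc 2145614)) (K (.ofNat 3661134)) .nil .nil) .nil .nil) (.node (.ofNat 0) (.node (.ofNat 0) (K (.negSucc 9222206)) (K (.ofNat 2908509)) .nil .nil) (.node (.ofNat 0) (K (.negSucc 6161528)) (K (.negSucc 14347130)) .nil .nil) .nil .nil) .nil .nil)⟩,
  ⟨T2, T2, (.node (.ofNat 0) (.node (.ofNat 0) .nil .nil (K (.negSucc 779996)) (K (.ofNat 1251635))) (.node (.ofNat 0) .nil .nil (K (.negSucc 4162894)) (K (.negSucc 1632911))) (.node (.ofNat 0) (K (.ofNat 3543725)) (K (.negSucc 1061034)) .nil .nil) (.node (.ofNat 0) .nil (K (.negSucc 1471635)) .nil .nil))⟩,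
  ⟨T2, T3, (.node (.ofNat 0) (.node (.ofNat 0) (K (.ofNat 35214352)) (K (.ofNat 35621792)) .nil .nil) (.node (.ofNat 0) (K (.ofNat 33505394)) (K (.ofNat 36532996)) .nil .nil) .nil .nil)⟩,
  ⟨T2, T4, (.node (.ofNat 0) (.node (.ofNat 0) (K (.negSucc 2949019)) (K (.negSucc 11041635)) .nil .nil) (.node (.ofNat 0) (K (.ofNat 5444330)) (K (.ofNat 14984620)) .nil .nil) .nil .nil)⟩,
  ⟨T8, T2, (.node (.ofNat 0) (K (.negSucc 1046927)) (K (.ofNat 1910412)) .nil .nil)⟩,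
  ⟨T10, T2, (.node (.ofNat 0) (K (.negSucc 159797)) (K (.negSucc 893735)) .nil .nil)⟩,
  ⟨T12, T2, (.node (.ofNat 0) .nil .nil (K (.ofNat 1228212)) (K (.ofNat 58848)))⟩,
  ⟨T12, T8, (K (.ofNat 1332000))⟩] c_pr c_pl c_pp c_pq)
def c_qlr : Cert := (.node [⟨.x, .z, (.node (.ofNat 0) (.node (.ofNat 0) (K (.negSucc 27086279)) (K (.negSucc 15475175)) .nil .nil) (.node (.ofNat 0) (K (.negSucc 30900905)) (K (.negSucc 75576851)) .nil .nil) .nil .nil)⟩] (.node [⟨.x, .z, (.node (.ofNat 0) (K (.ofNat 13461850)) (K (.negSucc 9641931)) .nil .nil)⟩] (.node [⟨.x, .z, (K (.negSucc 17842131))⟩] .nil .nil .nil .nil) (.node [⟨.x, .z, (K (.negSucc 1510073))⟩] .nil .nil .nil .nil) .nil .nil) (.node [⟨.x, .z, (.node (.ofNat 0) (K (.ofNat 14161338)) (K (.negSucc 7435601)) .nil .nil)⟩] (.node [⟨.x, .z, (K (.negSucc 11496911))⟩] .nil .nil .nil .nil) (.node [⟨.x, .z, (K (.negSucc 63323))⟩] .nil .nil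 .nil .nil) .nil .nil) .nil .nil)
def c_qll : Cert := (.node [⟨.x, .z, (.node (.ofNat 0) (.node (.ofNat 0) (K (.negSucc 6130381)) (K (.negSucc 6830373)) .nil .nil) (.node (.ofNat 0) (K (.negSucc 6148929)) (K (.ofNat 17273470)) .nil .nil) .nil .nil)⟩,
  ⟨T3, .x, (.node (.ofNat 0) (K (.ofNat 2276544)) (K (.negSucc 4566545)) .nil .nil)⟩,
  ⟨T4, .x, (.node (.ofNat 0) (K (.ofNat 398970)) (K (.ofNat 33120)) .nil .nil)⟩,
  ⟨T8, .x, (K (.ofNat 1745418))⟩,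
  ⟨T10, .x, (K (.ofNat 7222956))⟩,
  ⟨T2, T3, (K (.negSucc 96335))⟩,
  ⟨T2, T4, (K (.ofNat 658656))⟩] (.node [⟨.x, .z, (.node (.ofNat 0) (K (.negSucc 6427341)) (K (.negSucc 48254927)) .nil .nil)⟩,
  ⟨T3, .x, (K (.ofNat 24919598))⟩,
  ⟨T4, .x, (K (.negSucc 11932251))⟩] (.node [⟨.x, .z, (K (.negSucc 7496245))⟩] .nil .nil .nil .nil) (.node [⟨.x, .z, (K (.negSucc 17715785))⟩] .nil .nil .nil .nil) .nil .nil) (.node [⟨.x, .z, (.node (.ofNat 0) (K (.ofNat 4465662)) (K (.ofNat 1785636)) .nil .nil)⟩,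
  ⟨T3, .x, (K (.ofNat 1118592))⟩,
  ⟨T4, .x, (K (.ofNat 75402))⟩] (.node [⟨.x, .z, (K (.negSucc 18338189))⟩] .nil .nil .nil .nil) (.node [⟨.x, .z, (K (.negSucc 1190303))⟩] .nil .nil .nil .nil) .nil .nil) .nil .nil)
def c_qlp : Cert := (.node [⟨T2, T2, (K (.ofNat 3742656))⟩] .nil .nil .nil .nil)
def c_qlq : Cert := (.node [⟨T2, T2, (K (.ofNat 1187136))⟩] .nil .nil .nil .nil)
def c_ql : Cert := (.node [⟨.x, .z, (.node (.ofNat 0) (.node (.ofNat 0) (.node (.ofNat 0) (K (.ofNat 37485673)) (K (.ofNat 55505165)) .nil .nil) (.node (.ofNat 0) (K (.ofNat 32636633)) (K (.ofNat 36421600)) .nil .nil) .nil .nil) (.node (.ofNat 0) (.node (.ofNat 0) (K (.ofNat 7520093)) (K (.ofNat 3465805)) .nil .nil) (.node (.ofNat 0) (K (.ofNat 245527)) (K (.negSucc 1594284)) .nil .nil) .nil .nil) .nil .nil)⟩,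
  ⟨T3, .x, (.node (.ofNat 0) (.node (.ofNat 0) (K (.negSucc 14588287)) (K (.negSucc 75733863)) .nil .nil) (.node (.ofNat 0) (K (.ofNat 14133416)) (K (.negSucc 37130995)) .nil .nil) .nil .nil)⟩,
  ⟨T4, .x, (.node (.ofNat 0) (.node (.ofNat 0) (K (.negSucc 18157063)) (K (.ofNat 6189002)) .nil .nil) (.node (.ofNat 0) (K (.negSucc 23485941)) (K (.negSucc 14025325)) .nil .nil) .nil .nil)⟩,
  ⟨T8, .x, (.node (.ofNat 0) (K (.negSucc 40826327)) (K (.negSucc 94774841)) .nil .nil)⟩,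
  ⟨T10, .x, (.node (.ofNat 0) (K (.ofNat 2267832)) (K (.ofNat 32892042)) .nil .nil)⟩,
  ⟨T2, T2, (.node (.ofNat 0) .nil .nil (K (.negSucc 560207)) (K (.negSucc 584306)))⟩,
  ⟨T2, T3, (.node (.ofNat 0) (K (.ofNat 3290478)) (K (.negSucc 3844493)) .nil .nil)⟩,
  ⟨T2, T4, (.node (.ofNat 0) (K (.negSucc 1983509)) (K (.ofNat 1040268)) .nil .nil)⟩,
  ⟨T8, T2, (K (.ofNat 219456))⟩,
  ⟨T10, T2, (K (.negSucc 457775))⟩,
  ⟨T13, T2, (K (.ofNat 611208))⟩] c_qlr c_qll c_qlp c_qlq)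
def c_qp : Cert := (.node [⟨T2, T2, (.node (.ofNat 0) (K (.ofNat 853323)) (K (.negSucc 387974)) .nil .nil)⟩,
  ⟨T12, T2, (K (.ofNat 1034988))⟩] .nil .nil .nil .nil)
def c_qql : Cert := (.node [⟨T2, T2, (K (.negSucc 424223))⟩] .nil .nil .nil .nil)
def c_qq : Cert := (.node [⟨T2, T2, (.node (.ofNat 0) (K (.negSucc 11207)) (K (.ofNat 176448)) .nil .nil)⟩,
  ⟨T12, T2, (K (.ofNat 443664))⟩] .nil c_qql .nil .nil)
def c_q : Cert := (.node [⟨.x, .z, (.node (.ofNat 0) (.node (.ofNat 0) (.node (.ofNat 0) (.node (.ofNat 0) (K (.ofNat 4101072)) (K (.ofNat 4964826)) .nil .nil) (.node (.ofNat 0) (K (.ofNat 6486372)) (K (.ofNat 6626010)) .nil .nil) .nil .nil) (.node (.ofNat 0) (.node (.ofNat 0) (K (.negSucc 2795411)) (K (.ofNat 7826766)) .nil .nil) (.node (.ofNat 0) (K (.ofNat 181770)) (K (.ofNat 12180264)) .nil .nil) .nil .nil) .nil .nil) (.node (.ofNat 0) (.node (.ofNat 0) (.node (.ofNat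 0) (K (.ofNat 2474700)) (K (.ofNat 6382650)) .nil .nil) (.node (.ofNat 0) (K (.ofNat 8925126)) (K (.ofNat 4881216)) .nil .nil) .nil .nil) (.node (.ofNat 0) (.node (.ofNat 0) (K (.ofNat 1958184)) (K (.negSucc 2693519)) .nil .nil) (.node (.ofNat 0) (K (.negSucc 897977)) (K (.ofNat 1109406)) .nil .nil) .nil .nil) .nil .nil) .nil .nil)⟩,
  ⟨T3, .x, (.node (.ofNat 0) (.node (.ofNat 0) (.node (.ofNat 0) (K (.ofNat 10170201)) (K (.ofNat 17368155)) .nil .nil) (.node (.ofNat 0) (K (.ofNat 8584107)) (K (.ofNat 990240)) .nil .nil) .nil .nil) (.node (.ofNat 0) (.node (.ofNat 0) (K (.negSucc 14148530)) (K (.negSucc 13025750)) .nil .nil) (.node (.ofNat 0) (K (.negSucc 24575480)) (K (.negSucc 48337550)) .nil .nil) .nil .nil) .nil .nil)⟩,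
  ⟨T2, T2, (.node (.ofNat 0) (.node (.ofNat 0) .nil .nil (K (.ofNat 3350400)) (K (.ofNat 5194591))) (.node (.ofNat 0) .nil .nil (K (.negSucc 10314033)) (K (.negSucc 4333871))) (.node (.ofNat 0) (K (.ofNat 863086)) (K (.negSucc 8932669)) .nil .nil) (.node (.ofNat 0) .nil (K (.negSucc 3286375)) .nil .nil))⟩,
  ⟨T2, T3, (.node (.ofNat 0) (.node (.ofNat 0) (K (.ofNat 14216432)) (K (.ofNat 14706832)) .nil .nil) (.node (.ofNat 0) (K (.ofNat 5358580)) (K (.negSucc 15314163)) .nil .nil) .nil .nil)⟩,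
  ⟨T2, T4, (.node (.ofNat 0) (.node (.ofNat 0) (K (.ofNat 5123258)) (K (.ofNat 2388646)) .nil .nil) (.node (.ofNat 0) (K (.ofNat 4275388)) (K (.ofNat 21101480)) .nil .nil) .nil .nil)⟩,
  ⟨T8, T2, (.node (.ofNat 0) (K (.negSucc 3255077)) (K (.ofNat 1477590)) .nil .nil)⟩,
  ⟨T10, T2, (.node (.ofNat 0) (K (.ofNat 4120710)) (K (.negSucc 2708813)) .nil .nil)⟩,
  ⟨T12, T2, (.node (.ofNat 0) .nil .nil (K (.ofNat 1124208)) (K (.ofNat 1243164)))⟩,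
  ⟨T13, T2, (.node (.ofNat 0) (K (.negSucc 1791719)) (K (.ofNat 2938752)) .nil .nil)⟩,
  ⟨T12, T8, (K (.ofNat 2322432))⟩] .nil c_ql c_qp c_qq)
def cert : Cert := (.node [⟨.x, .z, (.node (.ofNat 0) (.node (.ofNat 0) (.node (.ofNat 0) (.node (.ofNat 0) (.node (.ofNat 0) .nil .nil (K (.negSucc 4978901)) (K (.negSucc 13651632))) (.node (.ofNat 0) .nil .nil (K (.negSucc 151303140)) (K (.negSucc 123126483))) (.node (.ofNat 0) (K (.ofNat 8027406)) (K (.negSucc 122334758)) .nil .nil) (.node (.ofNat 0) (K (.ofNat 7108566)) (K (.negSucc 29511166)) .nil .nil)) (.node (.ofNat 0) (.node (.ofNat 0) .nil .nil (K (.negSucc 18650307)) (K (.negSucc 103025445))) (.node (.ofNat 0) .nil .nil (K (.negSucc 59709597)) (K (.ofNat 1687014))) (.node (.ofNat 0) (K (.negSucc 23009077)) (K (.ofNat 58646668)) .nil .nil) (.node (.ofNat 0) (K (.ofNat 5458878)) (K (.negSucc 47391437)) .nil .nil)) (.node (.ofNat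 0) (.node (.ofNat 0) (K (.ofNat 18079982)) (K (.ofNat 155309810)) .nil .nil) (.node (.ofNat 0) (K (.ofNat 137657639)) (K (.ofNat 169514819)) .nil .nil) .nil .nil) (.node (.ofNat 0) (.node (.ofNat 0) (K (.negSucc 999537)) (K (.ofNat 2978134)) .nil .nil) (.node (.ofNat 0) (K (.negSucc 4742101)) (K (.ofNat 6159783)) .nil .nil) .nil .nil)) (.node (.ofNat 0) (.node (.ofNat 0) (.node (.ofNat 0) .nil .nil (K (.ofNat 11106852)) (K (.ofNat 2017690))) (.node (.ofNat 0) .nil .nil (K (.negSucc 256927975)) (K (.negSucc 224439989))) (.node (.ofNat 0) (K (.negSucc 6676516)) (K (.negSucc 270901726)) .nil .nil) (.node (.ofNat 0) (K (.ofNat 6695238)) (K (.negSucc 24172523)) .nil .nil)) (.node (.ofNat 0) (.node (.ofNat 0) .nil .nil (K (.negSucc 5740395)) (K (.negSucc 198615707))) (.node (.ofNat 0) .nil .nil (K (.negSucc 41379927)) (K (.ofNat 3829668))) (.node (.ofNat 0) (K (.negSucc 13720856))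 (K (.ofNat 151308775)) .nil .nil) (.node (.ofNat 0) (K (.ofNat 3360054)) (K (.negSucc 36756497)) .nil .nil)) (.node (.ofNat 0) (.node (.ofNat 0) (K (.ofNat 32851076)) (K (.ofNat 258873874)) .nil .nil) (.node (.ofNat 0) (K (.ofNat 227439257)) (K (.ofNat 206716152)) .nil .nil) .nil .nil) (.node (.ofNat 0) (.node (.ofNat 0) (K (.ofNat 6319490)) (K (.ofNat 1797142)) .nil .nil) (.node (.ofNat 0) (K (.ofNat 2901166)) (K (.negSucc 5481593)) .nil .nil) .nil .nil)) (.node (.ofNat 0) (.node (.ofNat 0) (.node (.ofNat 0) (K (.ofNat 16694810)) (K (.ofNat 26865286)) .nil .nil) (.node (.ofNat 0) (K (.ofNat 28072510)) (K (.ofNat 55993346)) .nil .nil) .nil .nil) (.node (.ofNat 0) (.node (.ofNat 0) (K (.ofNat 19497784)) (K (.ofNat 30559838)) .nil .nil) (.node (.ofNat 0) (K (.ofNat 1218396)) (K (.negSucc 561614)) .nil .nil) .nil .nil) .nil .nil) (.node (.ofNat 0) (.node (.ofNat 0) (.node (.ofNat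 0) (K (.negSucc 8676129)) (K (.ofNat 14421346)) .nil .nil) (.node (.ofNat 0) (K (.ofNat 1614268)) (K (.ofNat 24772328)) .nil .nil) .nil .nil) (.node (.ofNat 0) (.node (.ofNat 0) (K (.ofNat 18145250)) (K (.ofNat 12564862)) .nil .nil) (.node (.ofNat 0) (K (.ofNat 2310339)) (K (.negSucc 11576078)) .nil .nil) .nil .nil) .nil .nil)) (.node (.ofNat 0) (.node (.ofNat 0) (.node (.ofNat 0) (.node (.ofNat 0) .nil .nil (K (.ofNat 516588)) (K (.negSucc 23472752))) (.node (.ofNat 0) .nil .nil (K (.negSucc 143876886)) (K (.negSucc 138754633))) (.node (.ofNat 0) (K (.ofNat 1885356)) (K (.negSucc 153763306)) .nil .nil) (.node (.ofNat 0) (K (.negSucc 327035)) (K (.negSucc 2044702)) .nil .nil)) (.node (.ofNat 0) (.node (.ofNat 0) .nil .nil (K (.negSucc 9134887)) (K (.negSucc 140051203))) (.node (.ofNat 0) .nil .nil (K (.negSucc 31791055)) (K (.ofNat 9803394))) (.node (.ofNat 0) (K (.negSucc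 13869065)) (K (.ofNat 91487146)) .nil .nil) (.node (.ofNat 0) (K (.negSucc 2090915)) (K (.negSucc 37093715)) .nil .nil)) (.node (.ofNat 0) (.node (.ofNat 0) (K (.ofNat 9448412)) (K (.ofNat 170767506)) .nil .nil) (.node (.ofNat 0) (K (.ofNat 154258445)) (K (.ofNat 174609279)) .nil .nil) .nil .nil) (.node (.ofNat 0) (.node (.ofNat 0) (K (.negSucc 10624349)) (K (.ofNat 3153186)) .nil .nil) (.node (.ofNat 0) (K (.negSucc 4836203)) (K (.negSucc 1585794)) .nil .nil) .nil .nil)) (.node (.ofNat 0) (.node (.ofNat 0) (.node (.ofNat 0) .nil .nil (K (.ofNat 11416212)) (K (.negSucc 1181757))) (.node (.ofNat 0) .nil .nil (K (.negSucc 165203851)) (K (.negSucc 153091653))) (.node (.ofNat 0) (K (.negSucc 6544576)) (K (.negSucc 189793326)) .nil .nil) (.node (.ofNat 0) (K (.ofNat 3260838)) (K (.negSucc 33562211)) .nil .nil)) (.node (.ofNat 0) (.node (.ofNat 0) .nil .nil (K (.ofNat 5986408))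 (K (.negSucc 142301589))) (.node (.ofNat 0) .nil .nil (K (.negSucc 28524787)) (K (.negSucc 8261531))) (.node (.ofNat 0) (K (.ofNat 9748883)) (K (.ofNat 138971125)) .nil .nil) (.node (.ofNat 0) (K (.ofNat 3470406)) (K (.negSucc 6478265)) .nil .nil)) (.node (.ofNat 0) (.node (.ofNat 0) (K (.ofNat 10394882)) (K (.ofNat 163892948)) .nil .nil) (.node (.ofNat 0) (K (.ofNat 150068669)) (K (.ofNat 183417808)) .nil .nil) .nil .nil) (.node (.ofNat 0) (.node (.ofNat 0) (K (.ofNat 5103920)) (K (.negSucc 847627)) .nil .nil) (.node (.ofNat 0) (K (.ofNat 7811854)) (K (.ofNat 9370474)) .nil .nil) .nil .nil)) (.node (.ofNat 0) (.node (.ofNat 0) (.node (.ofNat 0) (K (.ofNat 27796412)) (K (.ofNat 35855506)) .nil .nil) (.node (.ofNat 0) (K (.ofNat 38690404)) (K (.ofNat 23553920)) .nil .nil) .nil .nil) (.node (.ofNat 0) (.node (.ofNat 0) (K (.negSucc 5079191)) (K (.negSucc 6023675)) .nil .nil)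 (.node (.ofNat 0) (K (.negSucc 27920773)) (K (.negSucc 38381244)) .nil .nil) .nil .nil) .nil .nil) (.node (.ofNat 0) (.node (.ofNat 0) (.node (.ofNat 0) (K (.negSucc 12879609)) (K (.ofNat 14935030)) .nil .nil) (.node (.ofNat 0) (K (.ofNat 1646068)) (K (.ofNat 13402616)) .nil .nil) .nil .nil) (.node (.ofNat 0) (.node (.ofNat 0) (K (.ofNat 8421978)) (K (.ofNat 9514890)) .nil .nil) (.node (.ofNat 0) (K (.negSucc 19363542)) (K (.negSucc 42064354)) .nil .nil) .nil .nil) .nil .nil)) (.node (.ofNat 0) (.node (.ofNat 0) (.node (.ofNat 0) (.node (.ofNat 0) (K (.ofNat 2055945)) (K (.negSucc 18346652)) .nil .nil) (.node (.ofNat 0) (K (.negSucc 3624602)) (K (.negSucc 37416239)) .nil .nil) .nil .nil) (.node (.ofNat 0) (.node (.ofNat 0) (K (.negSucc 3098286)) (K (.negSucc 32471710)) .nil .nil) (.node (.ofNat 0) (K (.negSucc 11488282)) (K (.negSucc 34539006)) .nil .nil) .nil .nil) .nil .nil)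 (.node (.ofNat 0) (.node (.ofNat 0) (.node (.ofNat 0) (K (.ofNat 35712078)) (K (.ofNat 39343938)) .nil .nil) (.node (.ofNat 0) (K (.ofNat 19635042)) (K (.ofNat 21245130)) .nil .nil) .nil .nil) (.node (.ofNat 0) (.node (.ofNat 0) (K (.negSucc 16942237)) (K (.ofNat 5750030)) .nil .nil) (.node (.ofNat 0) (K (.negSucc 36658551)) (K (.negSucc 57185995)) .nil .nil) .nil .nil) .nil .nil) .nil .nil) (.node (.ofNat 0) (.node (.ofNat 0) (.node (.ofNat 0) (.node (.ofNat 0) (K (.ofNat 1413919)) (K (.ofNat 18531653)) .nil .nil) (.node (.ofNat 0) (K (.ofNat 11981147)) (K (.ofNat 18708490)) .nil .nil) .nil .nil) (.node (.ofNat 0) (.node (.ofNat 0) (K (.ofNat 2702379)) (K (.negSucc 505844)) .nil .nil) (.node (.ofNat 0) (K (.ofNat 17662161)) (K (.ofNat 15137091)) .nil .nil) .nil .nil) .nil .nil) (.node (.ofNat 0) (.node (.ofNat 0) (.node (.ofNat 0) (K (.ofNat 13819358)) (K (.ofNat 10802944))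 .nil .nil) (.node (.ofNat 0) (K (.ofNat 23530084)) (K (.ofNat 32278214)) .nil .nil) .nil .nil) (.node (.ofNat 0) (.node (.ofNat 0) (K (.ofNat 139884)) (K (.ofNat 3185778)) .nil .nil) (.node (.ofNat 0) (K (.ofNat 1125096)) (K (.ofNat 5627832)) .nil .nil) .nil .nil) .nil .nil) .nil .nil))⟩,
  ⟨T3, .x, (.node (.ofNat 0) (.node (.ofNat 0) (.node (.ofNat 0) (.node (.ofNat 0) .nil .nil (K (.ofNat 1546452)) (K (.negSucc 20248093))) (.node (.ofNat 0) .nil .nil (K (.negSucc 149467129)) (K (.negSucc 129201259))) (.node (.ofNat 0) (K (.negSucc 54613207)) (K (.negSucc 195043563)) .nil .nil) (.node (.ofNat 0) .nil (K (.negSucc 20997921)) .nil .nil)) (.node (.ofNat 0) (.node (.ofNat 0) .nil .nil (K (.negSucc 39941791)) (K (.negSucc 135606287))) (.node (.ofNat 0) .nil .nil (K (.negSucc 43990437)) (K (.negSucc 1841069))) (.node (.ofNat 0) (K (.ofNat 2153998)) (K (.ofNat 99744202)) .nil .nil)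 (.node (.ofNat 0) .nil (K (.negSucc 31766493)) .nil .nil)) (.node (.ofNat 0) (.node (.ofNat 0) (K (.negSucc 53531067)) (K (.ofNat 84419598)) .nil .nil) (.node (.ofNat 0) (K (.ofNat 129583508)) (K (.ofNat 108721014)) .nil .nil) .nil .nil) (.node (.ofNat 0) .nil (.node (.ofNat 0) (K (.ofNat 52861346)) (K (.ofNat 78083778)) .nil .nil) .nil .nil)) (.node (.ofNat 0) (.node (.ofNat 0) (.node (.ofNat 0) .nil .nil (K (.ofNat 6819492)) (K (.negSucc 15225613))) (.node (.ofNat 0) .nil .nil (K (.negSucc 161710003)) (K (.negSucc 132895153))) (.node (.ofNat 0) (K (.negSucc 57680463)) (K (.negSucc 201585421)) .nil .nil) (.node (.ofNat 0) .nil (K (.negSucc 27838161)) .nil .nil)) (.node (.ofNat 0) (.node (.ofNat 0) .nil .nil (K (.negSucc 43125775)) (K (.negSucc 127319169))) (.node (.ofNat 0) .nil .nil (K (.negSucc 60618089)) (K (.negSucc 4599353))) (.node (.ofNat 0) (K (.ofNat 638588)) (K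 (.ofNat 77286946)) .nil .nil) (.node (.ofNat 0) .nil (K (.negSucc 32286787)) .nil .nil)) (.node (.ofNat 0) (.node (.ofNat 0) (K (.negSucc 79351005)) (K (.ofNat 49293582)) .nil .nil) (.node (.ofNat 0) (K (.ofNat 122606686)) (K (.ofNat 60410938)) .nil .nil) .nil .nil) (.node (.ofNat 0) .nil (.node (.ofNat 0) (K (.ofNat 55984434)) (K (.ofNat 48683762)) .nil .nil) .nil .nil)) (.node (.ofNat 0) (.node (.ofNat 0) (.node (.ofNat 0) (K (.negSucc 15142362)) (K (.ofNat 193549)) .nil .nil) (.node (.ofNat 0) (K (.negSucc 5444116)) (K (.negSucc 1003611)) .nil .nil) .nil .nil) (.node (.ofNat 0) (.node (.ofNat 0) (K (.negSucc 63990924)) (K (.negSucc 72264412)) .nil .nil) (.node (.ofNat 0) (K (.ofNat 1781041)) (K (.negSucc 24360654)) .nil .nil) .nil .nil) .nil .nil) (.node (.ofNat 0) .nil (.node (.ofNat 0) (.node (.ofNat 0) (K (.negSucc 452091)) (K (.negSucc 44545651)) .nil .nil) (.node (.ofNat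 0) (K (.ofNat 23190424)) (K (.ofNat 1067618)) .nil .nil) .nil .nil) .nil .nil))⟩,
  ⟨T3, .z, (.node (.ofNat 0) (.node (.ofNat 0) (.node (.ofNat 0) (.node (.ofNat 0) (K (.negSucc 11486228)) (K (.negSucc 10255808)) .nil .nil) (.node (.ofNat 0) (K (.ofNat 5209683)) (K (.ofNat 4888524)) .nil .nil) .nil .nil) (.node (.ofNat 0) (.node (.ofNat 0) (K (.ofNat 18303027)) (K (.ofNat 3514845)) .nil .nil) (.node (.ofNat 0) (K (.ofNat 29618949)) (K (.ofNat 44341755)) .nil .nil) .nil .nil) .nil .nil) (.node (.ofNat 0) (.node (.ofNat 0) (.node (.ofNat 0) (K (.ofNat 13760328)) (K (.ofNat 37531716)) .nil .nil) (.node (.ofNat 0) (K (.ofNat 18581496)) (K (.ofNat 74617302)) .nil .nil) .nil .nil) (.node (.ofNat 0) (.node (.ofNat 0) (K (.ofNat 13424532)) (K (.ofNat 42290958)) .nil .nil) (.node (.ofNat 0) (K (.ofNat 14139318)) (K (.ofNat 30504048)) .nil .nil) .nil .nil) .nil .nil) .nil .nil)⟩,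
  ⟨T4, .x, (.node (.ofNat 0) (.node (.ofNat 0) (.node (.ofNat 0) (.node (.ofNat 0) .nil .nil (K (.ofNat 571080)) (K (.ofNat 12434575))) (.node (.ofNat 0) .nil .nil (K (.ofNat 160345911)) (K (.ofNat 139718738))) (.node (.ofNat 0) (K (.ofNat 6008980)) (K (.ofNat 174023031)) .nil .nil) (.node (.ofNat 0) .nil (K (.ofNat 3028215)) .nil .nil)) (.node (.ofNat 0) (.node (.ofNat 0) .nil .nil (K (.ofNat 17221196)) (K (.ofNat 139512136))) (.node (.ofNat 0) .nil .nil (K (.ofNat 35306604)) (K (.negSucc 10177757))) (.node (.ofNat 0) (K (.ofNat 16930958)) (K (.negSucc 82007389)) .nil .nil) (.node (.ofNat 0) .nil (K (.ofNat 39808616)) .nil .nil)) (.node (.ofNat 0) (.node (.ofNat 0) (K (.negSucc 27985209)) (K (.negSucc 181385931)) .nil .nil) (.node (.ofNat 0) (K (.negSucc 164674844)) (K (.negSucc 155271862)) .nil .nil) .nil .nil) (.node (.ofNat 0) .nil (.node (.ofNat 0) .nil (K (.ofNat 5703079))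 .nil .nil) .nil .nil)) (.node (.ofNat 0) (.node (.ofNat 0) (.node (.ofNat 0) .nil .nil (K (.negSucc 5194715)) (K (.ofNat 12460654))) (.node (.ofNat 0) .nil .nil (K (.ofNat 237641916)) (K (.ofNat 216546402))) (.node (.ofNat 0) (K (.ofNat 10515019)) (K (.ofNat 250714945)) .nil .nil) (.node (.ofNat 0) .nil (K (.ofNat 15774182)) .nil .nil)) (.node (.ofNat 0) (.node (.ofNat 0) .nil .nil (K (.ofNat 13955932)) (K (.ofNat 210182206))) (.node (.ofNat 0) .nil .nil (K (.ofNat 27598596)) (K (.negSucc 6799523))) (.node (.ofNat 0) (K (.ofNat 14902231)) (K (.negSucc 166878656)) .nil .nil) (.node (.ofNat 0) .nil (K (.ofNat 35639344)) .nil .nil)) (.node (.ofNat 0) (.node (.ofNat 0) (K (.negSucc 28701419)) (K (.negSucc 244221281)) .nil .nil) (.node (.ofNat 0) (K (.negSucc 226628454)) (K (.negSucc 214003395)) .nil .nil) .nil .nil) (.node (.ofNat 0) .nil (.node (.ofNat 0) .nil (K (.ofNat 25958192))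 .nil .nil) .nil .nil)) (.node (.ofNat 0) (.node (.ofNat 0) (.node (.ofNat 0) (K (.negSucc 2370252)) (K (.negSucc 3054124)) .nil .nil) (.node (.ofNat 0) (K (.negSucc 5114620)) (K (.negSucc 18937893)) .nil .nil) .nil .nil) (.node (.ofNat 0) (.node (.ofNat 0) (K (.negSucc 26829824)) (K (.negSucc 28166348)) .nil .nil) (.node (.ofNat 0) (K (.negSucc 24810120)) (K (.negSucc 40652797)) .nil .nil) .nil .nil) .nil .nil) (.node (.ofNat 0) .nil (.node (.ofNat 0) .nil (.node (.ofNat 0) (K (.ofNat 8825023)) (K (.negSucc 9279234)) .nil .nil) .nil .nil) .nil .nil))⟩,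
  ⟨T5, .x, (.node (.ofNat 0) (.node (.ofNat 0) (.node (.ofNat 0) (.node (.ofNat 0) (K (.ofNat 1934137)) (K (.ofNat 12971015)) .nil .nil) (.node (.ofNat 0) (K (.ofNat 12364139)) (K (.ofNat 19515226)) .nil .nil) .nil .nil) (.node (.ofNat 0) (.node (.ofNat 0) (K (.ofNat 2455607)) (K (.ofNat 8298895)) .nil .nil) (.node (.ofNat 0) (K (.ofNat 3684073)) (K (.ofNat 6611141)) .nil .nil) .nil .nil) .nil .nil) (.node (.ofNat 0) (.node (.ofNat 0) (.node (.ofNat 0) (K (.ofNat 3701837)) (K (.ofNat 24169039)) .nil .nil) (.node (.ofNat 0) (K (.ofNat 963877)) (K (.ofNat 30177134)) .nil .nil) .nil .nil) (.node (.ofNat 0) (.node (.ofNat 0) (K (.negSucc 5391232)) (K (.ofNat 17690087)) .nil .nil) (.node (.ofNat 0) (K (.negSucc 12312186)) (K (.negSucc 6745588)) .nil .nil) .nil .nil) .nil .nil) .nil .nil)⟩,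
  ⟨T8, .x, (.node (.ofNat 0) (.node (.ofNat 0) (.node (.ofNat 0) .nil .nil (K (.negSucc 1015643)) (K (.negSucc 49665161))) (.node (.ofNat 0) .nil .nil (K (.negSucc 109504193)) (K (.negSucc 141612665))) (.node (.ofNat 0) (K (.negSucc 57020159)) (K (.negSucc 182807093)) .nil .nil) (.node (.ofNat 0) .nil (K (.ofNat 54158604)) .nil .nil)) (.node (.ofNat 0) (.node (.ofNat 0) .nil .nil (K (.negSucc 22506161)) (K (.negSucc 148995047))) (.node (.ofNat 0) .nil .nil (K (.negSucc 13781741)) (K (.ofNat 1184550))) (.node (.ofNat 0) (K (.negSucc 52342427)) (K (.ofNat 53523696)) .nil .nil) (.node (.ofNat 0) .nil (K (.negSucc 29282813)) .nil .nil)) (.node (.ofNat 0) (.node (.ofNat 0) (K (.negSucc 22280639)) (K (.ofNat 132573714)) .nil .nil) (.node (.ofNat 0) (K (.ofNat 78363834)) .nil .nil .nil) .nil .nil) (.node (.ofNat 0) .nil (.node (.ofNat 0) .nil (K (.negSucc 1369589)) .nil .nil) .nil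 .nil))⟩,
  ⟨T9, .x, (.node (.ofNat 0) (.node (.ofNat 0) (.node (.ofNat 0) (K (.negSucc 14560934)) (K (.negSucc 22503044)) .nil .nil) (.node (.ofNat 0) (K (.negSucc 11762906)) (K (.ofNat 1470144)) .nil .nil) .nil .nil) (.node (.ofNat 0) (.node (.ofNat 0) (K (.ofNat 14750019)) (K (.ofNat 15500247)) .nil .nil) (.node (.ofNat 0) (K (.ofNat 25997367)) (K (.ofNat 52310793)) .nil .nil) .nil .nil) .nil .nil)⟩,
  ⟨T10, .x, (.node (.ofNat 0) (.node (.ofNat 0) (.node (.ofNat 0) .nil .nil (K (.negSucc 4367153)) (K (.ofNat 7948308))) (.node (.ofNat 0) .nil .nil (K (.ofNat 91479774)) (K (.ofNat 89051214))) (.node (.ofNat 0) (K (.ofNat 8633538)) (K (.ofNat 116854176)) .nil .nil) (.node (.ofNat 0) .nil (K (.negSucc 29283509)) .nil .nil)) (.node (.ofNat 0) (.node (.ofNat 0) .nil .nil (K (.ofNat 8961300)) (K (.ofNat 83126640))) (.node (.ofNat 0) .nil .nil (K (.ofNat 12958878)) (K (.negSucc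 10786907))) (.node (.ofNat 0) (K (.ofNat 22768380)) (K (.negSucc 18761771)) .nil .nil) (.node (.ofNat 0) .nil (K (.ofNat 33135528)) .nil .nil)) (.node (.ofNat 0) (.node (.ofNat 0) (K (.ofNat 8332866)) (K (.negSucc 95889191)) .nil .nil) (.node (.ofNat 0) (K (.negSucc 67468763)) .nil .nil .nil) .nil .nil) (.node (.ofNat 0) .nil (.node (.ofNat 0) .nil (K (.ofNat 41112)) .nil .nil) .nil .nil))⟩,
  ⟨T12, .x, (.node (.ofNat 0) (.node (.ofNat 0) .nil .nil (.node (.ofNat 0) .nil .nil (K (.ofNat 2360952)) (K (.ofNat 605706))) (.node (.ofNat 0) .nil .nil (K (.negSucc 4066037)) (K (.negSucc 5593757)))) (.node (.ofNat 0) .nil .nil (.node (.ofNat 0) .nil .nil (K (.ofNat 2759550)) (K (.ofNat 592464))) (.node (.ofNat 0) .nil .nil .nil (K (.negSucc 2382065)))) (.node (.ofNat 0) (.node (.ofNat 0) .nil .nil (K (.ofNat 198276)) (K (.ofNat 4365432))) (.node (.ofNat 0) .nil .nil (K (.ofNat 1733640))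 .nil) (.node (.ofNat 0) (K (.ofNat 11117574)) (K (.negSucc 1032155)) .nil .nil) (.node (.ofNat 0) .nil (K (.negSucc 571391)) .nil .nil)) (.node (.ofNat 0) .nil (.node (.ofNat 0) .nil .nil .nil (K (.ofNat 164580))) .nil .nil))⟩,
  ⟨T2, T2, (.node (.ofNat 0) (.node (.ofNat 0) .nil .nil (.node (.ofNat 0) .nil .nil (K (.negSucc 2809247)) (K (.negSucc 3817598))) (.node (.ofNat 0) .nil .nil (K (.negSucc 3382115)) (K (.negSucc 1161631)))) (.node (.ofNat 0) .nil .nil (.node (.ofNat 0) .nil .nil (K (.ofNat 5757155)) (K (.negSucc 4243717))) (.node (.ofNat 0) .nil .nil (K (.negSucc 1033296)) (K (.ofNat 63504)))) (.node (.ofNat 0) (.node (.ofNat 0) .nil .nil (K (.ofNat 4958652)) (K (.negSucc 6021002))) (.node (.ofNat 0) .nil .nil (K (.ofNat 8414681)) (K (.negSucc 483612))) (.node (.ofNat 0) (K (.negSucc 7266745)) (K (.ofNat 3678944)) .nil .nil) (.node (.ofNat 0) .nil (K (.negSucc 3491986))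 .nil .nil)) (.node (.ofNat 0) .nil (.node (.ofNat 0) .nil .nil (K (.ofNat 2619419)) (K (.negSucc 2265023))) .nil (.node (.ofNat 0) .nil (K (.negSucc 2187891)) .nil .nil)))⟩,
  ⟨T2, T3, (.node (.ofNat 0) (.node (.ofNat 0) (.node (.ofNat 0) .nil .nil (K (.negSucc 378335)) (K (.negSucc 23125669))) (.node (.ofNat 0) .nil .nil (K (.ofNat 37077654)) (K (.negSucc 12647103))) (.node (.ofNat 0) (K (.ofNat 194682)) (K (.ofNat 17799850)) .nil .nil) (.node (.ofNat 0) .nil (K (.ofNat 52056480)) .nil .nil)) (.node (.ofNat 0) (.node (.ofNat 0) .nil .nil (K (.ofNat 22730534)) (K (.negSucc 13601163))) (.node (.ofNat 0) .nil .nil (K (.ofNat 28713098)) (K (.ofNat 349842))) (.node (.ofNat 0) (K (.ofNat 1360010)) (K (.ofNat 46502844)) .nil .nil) (.node (.ofNat 0) .nil (K (.negSucc 29010449)) .nil .nil)) (.node (.ofNat 0) (.node (.ofNat 0) (K (.ofNat 14327264)) (K (.ofNat 14498510)) .nil .nil)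 (.node (.ofNat 0) (K (.ofNat 15812434)) .nil .nil .nil) .nil .nil) (.node (.ofNat 0) .nil (.node (.ofNat 0) .nil (K (.ofNat 34295554)) .nil .nil) .nil .nil))⟩,
  ⟨T2, T4, (.node (.ofNat 0) (.node (.ofNat 0) (.node (.ofNat 0) .nil .nil (K (.ofNat 709584)) (K (.ofNat 11429164))) (.node (.ofNat 0) .nil .nil (K (.ofNat 75944772)) (K (.ofNat 66162920))) (.node (.ofNat 0) (K (.negSucc 1403297)) (K (.ofNat 59814058)) .nil .nil) (.node (.ofNat 0) .nil (K (.negSucc 12518399)) .nil .nil)) (.node (.ofNat 0) (.node (.ofNat 0) .nil .nil (K (.ofNat 15377828)) (K (.ofNat 59681978))) (.node (.ofNat 0) .nil .nil (K (.ofNat 16738388)) (K (.negSucc 11198387))) (.node (.ofNat 0) (K (.ofNat 20880104)) (K (.negSucc 10103333)) .nil .nil) (.node (.ofNat 0) .nil (K (.ofNat 32691576)) .nil .nil)) (.node (.ofNat 0) (.node (.ofNat 0) (K (.ofNat 1675028)) (K (.negSucc 63951723)) .nil .nil) (.node (.ofNat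 0) (K (.negSucc 54825307)) .nil .nil .nil) .nil .nil) (.node (.ofNat 0) .nil (.node (.ofNat 0) .nil (K (.ofNat 15052228)) .nil .nil) .nil .nil))⟩,
  ⟨T3, T3, (.node (.ofNat 0) (.node (.ofNat 0) (.node (.ofNat 0) (K (.negSucc 1960480)) (K (.ofNat 10221551)) .nil .nil) (.node (.ofNat 0) (K (.ofNat 3517199)) (K (.ofNat 16627852)) .nil .nil) .nil .nil) (.node (.ofNat 0) (.node (.ofNat 0) (K (.ofNat 10307078)) (K (.ofNat 31799107)) .nil .nil) (.node (.ofNat 0) (K (.negSucc 16307428)) (K (.negSucc 8381058)) .nil .nil) .nil .nil) .nil .nil)⟩,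
  ⟨T14, .x, (.node (.ofNat 0) (.node (.ofNat 0) (.node (.ofNat 0) (K (.ofNat 12858720)) (K (.ofNat 18294930)) .nil .nil) (.node (.ofNat 0) (K (.ofNat 20928648)) (K (.ofNat 35925426)) .nil .nil) .nil .nil) (.node (.ofNat 0) (.node (.ofNat 0) (K (.ofNat 18369222)) (K (.ofNat 19617738)) .nil .nil) (.node (.ofNat 0) (K (.ofNat 26888502)) (K (.ofNat 33741462)) .nil .nil) .nil .nil) .nil .nil)⟩,
  ⟨T15, .x, (.node (.ofNat 0) (.node (.ofNat 0) (.node (.ofNat 0) (K (.negSucc 1591892)) (K (.negSucc 21022058)) .nil .nil) (.node (.ofNat 0) (K (.ofNat 1591215)) (K (.negSucc 4175933)) .nil .nil) .nil .nil) (.node (.ofNat 0) (.node (.ofNat 0) (K (.ofNat 8318031)) (K (.negSucc 4935596)) .nil .nil) (.node (.ofNat 0) (K (.ofNat 6483327)) (K (.ofNat 15021843)) .nil .nil) .nil .nil) .nil .nil)⟩,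
  ⟨T4, T3, (.node (.ofNat 0) (.node (.ofNat 0) (.node (.ofNat 0) (K (.negSucc 3544212)) (K (.negSucc 6244276)) .nil .nil) (.node (.ofNat 0) (K (.ofNat 1263307)) (K (.negSucc 6579093)) .nil .nil) .nil .nil) (.node (.ofNat 0) (.node (.ofNat 0) (K (.ofNat 10859773)) (K (.ofNat 13226195)) .nil .nil) (.node (.ofNat 0) (K (.ofNat 23621441)) (K (.ofNat 34854439)) .nil .nil) .nil .nil) .nil .nil)⟩,
  ⟨T4, T4, (.node (.ofNat 0) (.node (.ofNat 0) (.node (.ofNat 0) (K (.ofNat 811135)) (K (.ofNat 4601189)) .nil .nil) (.node (.ofNat 0) (K (.negSucc 131073)) (K (.ofNat 8012860)) .nil .nil) .nil .nil) (.node (.ofNat 0) (.node (.ofNat 0) (K (.ofNat 4083257)) (K (.ofNat 9054841)) .nil .nil) (.node (.ofNat 0) (K (.ofNat 1607395)) (K (.negSucc 301536)) .nil .nil) .nil .nil) .nil .nil)⟩,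
  ⟨T7, T2, (.node (.ofNat 0) (.node (.ofNat 0) .nil .nil (K (.negSucc 5696183)) (K (.ofNat 63964))) (.node (.ofNat 0) .nil .nil (K (.ofNat 1175828)) (K (.ofNat 2907276))) (.node (.ofNat 0) (K (.negSucc 5572315)) (K (.negSucc 3397303)) .nil .nil) (.node (.ofNat 0) .nil (K (.ofNat 3038800)) .nil .nil))⟩,
  ⟨T8, T2, (.node (.ofNat 0) (.node (.ofNat 0) .nil .nil (K (.negSucc 2295515)) (K (.ofNat 562800))) (.node (.ofNat 0) .nil .nil (K (.negSucc 1492709)) (K (.ofNat 578940))) (.node (.ofNat 0) (K (.negSucc 2703209)) (K (.negSucc 512879)) .nil .nil) (.node (.ofNat 0) .nil (K (.ofNat 746472)) .nil .nil))⟩,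
  ⟨T8, T3, (.node (.ofNat 0) (.node (.ofNat 0) (K (.ofNat 1177266)) (K (.negSucc 23443067)) .nil .nil) (.node (.ofNat 0) (K (.ofNat 19469772)) (K (.ofNat 8393166)) .nil .nil) .nil .nil)⟩,
  ⟨T8, T4, (.node (.ofNat 0) (.node (.ofNat 0) (K (.negSucc 18320891)) (K (.negSucc 16784003)) .nil .nil) (.node (.ofNat 0) (K (.negSucc 24937343)) (K (.negSucc 29869793)) .nil .nil) .nil .nil)⟩,
  ⟨T9, T2, (.node (.ofNat 0) (.node (.ofNat 0) (K (.negSucc 14429839)) (K (.negSucc 15049407)) .nil .nil) (.node (.ofNat 0) (K (.negSucc 5847171)) (K (.ofNat 15080884)) .nil .nil) .nil .nil)⟩,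
  ⟨T10, T2, (.node (.ofNat 0) (.node (.ofNat 0) .nil .nil (K (.negSucc 77819)) (K (.ofNat 979794))) (.node (.ofNat 0) .nil .nil (K (.negSucc 3746903)) (K (.negSucc 1494419))) (.node (.ofNat 0) (K (.ofNat 2235966)) (K (.negSucc 4642769)) .nil .nil) (.node (.ofNat 0) .nil (K (.negSucc 954983)) .nil .nil))⟩,
  ⟨T10, T3, (.node (.ofNat 0) (.node (.ofNat 0) (K (.negSucc 8345381)) (K (.negSucc 439409)) .nil .nil) (.node (.ofNat 0) (K (.negSucc 5407667)) (K (.ofNat 8714394)) .nil .nil) .nil .nil)⟩,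
  ⟨T10, T4, (.node (.ofNat 0) (.node (.ofNat 0) (K (.negSucc 5120195)) (K (.ofNat 22704)) .nil .nil) .nil .nil .nil)⟩,
  ⟨T11, T2, (.node (.ofNat 0) (.node (.ofNat 0) (K (.negSucc 3772699)) (K (.negSucc 12742125)) .nil .nil) (.node (.ofNat 0) (K (.negSucc 11240601)) (K (.negSucc 29737039)) .nil .nil) .nil .nil)⟩,
  ⟨T12, T2, (.node (.ofNat 0) .nil .nil (.node (.ofNat 0) .nil .nil (K (.ofNat 441432)) (K (.ofNat 907320))) (.node (.ofNat 0) .nil .nil (K (.ofNat 924060)) (K (.ofNat 470928))))⟩,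
  ⟨T12, T3, (.node (.ofNat 0) (.node (.ofNat 0) .nil .nil (K (.negSucc 2144519)) (K (.ofNat 141672))) (.node (.ofNat 0) .nil .nil (K (.negSucc 2247623)) (K (.ofNat 405924))) (.node (.ofNat 0) (K (.negSucc 2123015)) (K (.negSucc 2194439)) .nil .nil) (.node (.ofNat 0) .nil (K (.ofNat 351516)) .nil .nil))⟩,
  ⟨T12, T4, (.node (.ofNat 0) (.node (.ofNat 0) .nil .nil (K (.ofNat 2614908)) (K (.negSucc 164639))) (.node (.ofNat 0) .nil .nil (K (.negSucc 32111)) (K (.ofNat 33336))) (.node (.ofNat 0) (K (.ofNat 2495988)) .nil .nil .nil) .nil)⟩,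
  ⟨T13, T2, (.node (.ofNat 0) (.node (.ofNat 0) .nil .nil (K (.negSucc 3670379)) (K (.negSucc 702771))) (.node (.ofNat 0) .nil .nil (K (.ofNat 5286640)) (K (.ofNat 4698732))) (.node (.ofNat 0) (K (.negSucc 3878511)) (K (.ofNat 3069272)) .nil .nil) (.node (.ofNat 0) .nil (K (.ofNat 5418716)) .nil .nil))⟩,
  ⟨T14, T2, (.node (.ofNat 0) (.node (.ofNat 0) (K (.negSucc 26764011)) (K (.negSucc 29773477)) .nil .nil) (.node (.ofNat 0) (K (.negSucc 26327725)) (K (.negSucc 37724415)) .nil .nil) .nil .nil)⟩,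
  ⟨T15, T2, (.node (.ofNat 0) (.node (.ofNat 0) (K (.negSucc 309555)) (K (.ofNat 7925188)) .nil .nil) (.node (.ofNat 0) (K (.negSucc 8717161)) (K (.negSucc 14972523)) .nil .nil) .nil .nil)⟩,
  ⟨T16, T2, (.node (.ofNat 0) (K (.ofNat 6480)) (K (.ofNat 76464)) .nil .nil)⟩,
  ⟨T17, T2, (.node (.ofNat 0) (K (.negSucc 76463)) (K (.negSucc 6479)) .nil .nil)⟩,
  ⟨T7, T8, (.node (.ofNat 0) (K (.ofNat 2322108)) (K (.negSucc 3531635)) .nil .nil)⟩,
  ⟨T7, T10, (.node (.ofNat 0) (K (.negSucc 127475)) (K (.negSucc 201923)) .nil .nil)⟩,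
  ⟨T10, T8, (.node (.ofNat 0) (K (.negSucc 3555323)) (K (.ofNat 3689676)) .nil .nil)⟩,
  ⟨T12, T7, (.node (.ofNat 0) .nil .nil (K (.negSucc 110591)) .nil)⟩,
  ⟨T12, T8, (.node (.ofNat 0) .nil .nil (K (.negSucc 2388671)) (K (.negSucc 1348703)))⟩,
  ⟨T12, T10, (.node (.ofNat 0) .nil .nil (K (.ofNat 117792)) (K (.negSucc 34847)))⟩,
  ⟨T12, T13, (.node (.ofNat 0) .nil .nil (K (.negSucc 60191)) (K (.ofNat 4896)))⟩,
  ⟨T12, T14, (.node (.ofNat 0) (K (.ofNat 9576)) (K (.negSucc 54071)) .nil .nil)⟩,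
  ⟨T13, T8, (.node (.ofNat 0) (K (.ofNat 4641192)) (K (.negSucc 2392199)) .nil .nil)⟩,
  ⟨T13, T10, (.node (.ofNat 0) (K (.ofNat 1132344)) (K (.negSucc 235151)) .nil .nil)⟩,
  ⟨T16, T6, (K (.negSucc 27647))⟩,
  ⟨T16, T12, (K (.negSucc 55295))⟩,
  ⟨T17, T6, (K (.ofNat 55296))⟩,
  ⟨T17, T12, (K (.ofNat 27648))⟩] c_r c_l c_p c_q)

def rels : List RI := [
  ⟨.ofNat 1980, phL, [1, 1], [some .z, some .x, none], [0, 1, 2, 0, 1, 1], []⟩,
  ⟨.negSucc 13967, phL, [], [some .z, some .x, none], [0, 1, 2, 0, 1, 1], [1, 0]⟩,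
  ⟨.ofNat 12420, phL, [0, 1], [some .z, some .x, none], [0, 1, 2, 0, 1, 1], []⟩,
  ⟨.ofNat 9216, phL, [], [some .z, some .x, none], [0, 1, 2, 0, 1, 1], [1, 1]⟩,
  ⟨.negSucc 11159, phL, [0, 0], [some .z, some .x, none], [0, 1, 2, 0, 1, 1], []⟩,
  ⟨.negSucc 1763, phL, [1], [some .z, some .x, none], [0, 1, 2, 0, 1, 1], [1]⟩,
  ⟨.ofNat 12996, phL, [1], [some .z, some .x, none], [0, 1, 2, 0, 1, 1], [0]⟩,
  ⟨.ofNat 9072, phL, [0], [some .z, some .x, none], [0, 1, 2, 0, 1, 1], [0]⟩,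
  ⟨.ofNat 23184, phL, [], [some .z, some .x, none], [0, 1, 2, 0, 1, 1], [0, 0]⟩,
  ⟨.negSucc 9071, phL, [0], [some .z, some .x, none], [0, 1, 2, 0, 1, 1], [1]⟩,
  ⟨.ofNat 24624, phL, [3], [some .z, some .x, some (.m .x .x), none], [0, 1, 2, 1, 3, 1], []⟩,
  ⟨.ofNat 25920, phL, [0], [some .z, some .x, none, some (.m .x .z)], [0, 1, 2, 1, 3, 1], []⟩,
  ⟨.negSucc 32183, phL, [0], [some .z, some .x, some (.m .x .z), none], [0, 1, 2, 1, 3, 1], []⟩,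
  ⟨.ofNat 5616, phL, [], [some .z, some .x, none, some (.m .x .z)], [0, 1, 2, 1, 3, 1], [0]⟩,
  ⟨.negSucc 33407, phL, [], [some .z, some (.m .x .x), none, some .x], [0, 1, 2, 0, 3, 3], [0]⟩,
  ⟨.negSucc 71, phL, [1], [some .x, some (.m .x .x), none, some .z], [0, 1, 2, 3, 0, 3], []⟩,
  ⟨.negSucc 24623, phL, [2], [some .z, some .x, some (.m .x .x), none], [0, 1, 2, 1, 3, 1], []⟩,
  ⟨.ofNat 6192, phL, [], [some .z, some .x, none, some (.m .x .x)], [0, 1, 2, 1, 3, 1], [3]⟩,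
  ⟨.negSucc 6551, phL, [1], [some .z, some .x, some (.m .x .x), none], [0, 1, 2, 1, 3, 0], []⟩,
  ⟨.negSucc 4463, phL, [], [some .z, some .x, none, some (.m .x .x)], [0, 1, 2, 0, 3, 1], [0]⟩,
  ⟨.ofNat 6696, phL, [0], [some .z, some .x, some (.m .x .x), none], [0, 1, 2, 1, 3, 0], []⟩,
  ⟨.ofNat 13392, phL, [], [some .z, some .x, none, some (.m .x .x)], [0, 1, 2, 1, 3, 0], [1]⟩,
  ⟨.ofNat 21888, phL, [], [some .z, some .x, none, some (.m .x .x)], [0, 1, 2, 0, 3, 1], [1]⟩,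
  ⟨.ofNat 16848, phL, [], [some .x, some (.m .z .x), none, some .z], [0, 1, 2, 3, 0, 0], [0]⟩,
  ⟨.ofNat 72, phL, [0], [some .z, some .x, some (.m .x .x), none], [0, 1, 2, 0, 1, 3], []⟩,
  ⟨.ofNat 10656, phL, [], [some .z, some .x, some (.m .x .x), none], [0, 1, 2, 1, 3, 1], [3]⟩,
  ⟨.negSucc 26351, phL, [], [some .z, some .x, none, some (.m .x .x)], [0, 1, 2, 1, 3, 0], [0]⟩,
  ⟨.negSucc 25199, phL, [1], [some .x, some (.m .x .z), none, some .z], [0, 1, 2, 3, 0, 0], []⟩,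
  ⟨.negSucc 6515, phL, [1], [some .z, some .x, some (.m .x .z), none], [0, 1, 2, 1, 3, 1], []⟩,
  ⟨.negSucc 5615, phL, [], [some .z, some .x, some (.m .x .z), none], [0, 1, 2, 1, 3, 1], [1]⟩,
  ⟨.negSucc 4463, phL, [], [some .z, some .x, some (.m .x .x), none], [0, 1, 2, 1, 3, 1], [2]⟩,
  ⟨.negSucc 6479, phL, [], [some .z, some .x, some (.m .x .x), none], [0, 1, 2, 0, 1, 3], [0]⟩,
  ⟨.ofNat 19656, phL, [0], [some .z, some .x, some (.m .z .x), none], [0, 1, 2, 1, 3, 1], []⟩,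
  ⟨.ofNat 51192, phL, [0], [some .z, some (.m .x .x), none, some .x], [0, 1, 2, 0, 3, 3], []⟩,
  ⟨.negSucc 25703, phL, [1], [some .z, some .x, some (.m .x .x), none], [0, 1, 2, 0, 3, 1], []⟩,
  ⟨.ofNat 18684, phL, [1], [some .z, some .x, some (.m .z .x), none], [0, 1, 2, 1, 3, 1], []⟩,
  ⟨.ofNat 15696, phL, [], [some .z, some .x, some (.m .x .x), none], [0, 1, 2, 0, 3, 1], [1]⟩,
  ⟨.negSucc 35, nfL, [], [some .x, none, some .z], [0, 0, 0, 0, 1, 2, 0], [3]⟩,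
  ⟨.negSucc 1295, nfL, [], [some .x, none, some .z], [0, 0, 0, 0, 1, 0, 2], [3]⟩,
  ⟨.ofNat 6480, phL, [], [some .x, some (.m .x .x), none, some .z], [0, 1, 2, 3, 0, 3], [1]⟩,
  ⟨.ofNat 18, nfL, [], [some .z, some .x, none], [0, 1, 1, 1, 1, 2, 1], [3]⟩,
  ⟨.ofNat 552, nfL, [], [some .z, some .x, none], [0, 1, 1, 1, 1, 1, 2], [3]⟩,
  ⟨.negSucc 6191, phL, [], [some .x, some (.m .x .x), none, some .z], [0, 1, 2, 3, 0, 0], [2]⟩,
  ⟨.ofNat 189, nfL, [1], [some .z, some .x, none], [0, 1, 1, 1, 1, 2, 0], []⟩,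
  ⟨.negSucc 29, nfL, [2], [some .x, none, some .z], [0, 0, 0, 0, 1, 2, 0], []⟩,
  ⟨.negSucc 797, nfL, [], [some .z, some .x, none], [0, 1, 1, 1, 1, 0, 2], [1]⟩,
  ⟨.ofNat 1026, nfL, [2], [some .z, some .x, none], [0, 1, 1, 1, 1, 1, 2], []⟩,
  ⟨.negSucc 551, nfL, [], [some .z, some .x, none], [0, 1, 1, 1, 1, 1, 2], [2]⟩,
  ⟨.negSucc 359, nfL, [], [some .z, some .x, none], [0, 1, 1, 1, 1, 2, 0], [0]⟩,
  ⟨.negSucc 251, nfL, [1], [some .z, some .x, none], [0, 0, 1, 1, 1, 2, 1], []⟩,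
  ⟨.negSucc 119, nfL, [2], [some .x, none, some .z], [0, 0, 0, 0, 1, 0, 2], []⟩,
  ⟨.ofNat 120, nfL, [3], [some .x, none, some .z], [0, 0, 0, 0, 1, 0, 2], []⟩,
  ⟨.negSucc 53, nfL, [0], [some .z, some .x, none], [0, 1, 1, 1, 1, 0, 2], []⟩,
  ⟨.negSucc 188, nfL, [0], [some .z, some .x, none], [0, 1, 1, 1, 1, 2, 0], []⟩,
  ⟨.ofNat 30, nfL, [3], [some .z, some .x, none], [0, 1, 1, 1, 1, 2, 1], []⟩,
  ⟨.negSucc 200, nfL, [1], [some .x, none, some .z], [0, 0, 0, 0, 1, 2, 2], []⟩,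
  ⟨.negSucc 17, nfL, [], [some .z, some .x, none], [0, 1, 1, 1, 1, 2, 1], [2]⟩,
  ⟨.ofNat 360, nfL, [], [some .z, some .x, none], [0, 1, 1, 1, 1, 2, 0], [1]⟩,
  ⟨.negSucc 521, nfL, [], [some .x, none, some .z], [0, 0, 0, 0, 1, 2, 2], [1]⟩,
  ⟨.ofNat 201, nfL, [0], [some .x, none, some .z], [0, 0, 0, 0, 1, 2, 2], []⟩,
  ⟨.negSucc 1025, nfL, [3], [some .z, some .x, none], [0, 1, 1, 1, 1, 1, 2], []⟩,
  ⟨.ofNat 54, nfL, [1], [some .z, some .x, none], [0, 1, 1, 1, 1, 0, 2], []⟩,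
  ⟨.ofNat 30, nfL, [3], [some .x, none, some .z], [0, 0, 0, 0, 1, 2, 0], []⟩,
  ⟨.negSucc 1115, nfL, [], [some .z, some .x, none], [0, 0, 1, 1, 1, 2, 1], [1]⟩,
  ⟨.ofNat 252, nfL, [0], [some .z, some .x, none], [0, 0, 1, 1, 1, 2, 1], []⟩,
  ⟨.ofNat 522, nfL, [], [some .x, none, some .z], [0, 0, 0, 0, 1, 2, 2], [0]⟩,
  ⟨.ofNat 798, nfL, [], [some .z, some .x, none], [0, 1, 1, 1, 1, 0, 2], [0]⟩,
  ⟨.ofNat 1296, nfL, [], [some .x, none, some .z], [0, 0, 0, 0, 1, 0, 2], [2]⟩,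
  ⟨.ofNat 36, nfL, [], [some .x, none, some .z], [0, 0, 0, 0, 1, 2, 0], [2]⟩,
  ⟨.negSucc 29, nfL, [2], [some .z, some .x, none], [0, 1, 1, 1, 1, 2, 1], []⟩,
  ⟨.ofNat 1116, nfL, [], [some .z, some .x, none], [0, 0, 1, 1, 1, 2, 1], [0]⟩,
  ⟨.negSucc 119, nfL, [0], [some .z, some .x, none], [0, 1, 1, 1, 2, 0, 1], []⟩,
  ⟨.ofNat 120, nfL, [1], [some .z, some .x, none], [0, 1, 1, 1, 2, 0, 1], []⟩,
  ⟨.ofNat 216, nfL, [], [some .z, some .x, none], [0, 1, 1, 1, 2, 0, 1], [1]⟩,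
  ⟨.negSucc 215, nfL, [], [some .z, some .x, none], [0, 1, 1, 1, 2, 0, 1], [0]⟩,
  ⟨.ofNat 12312, phL, [], [some .z, some (.m .x .x), some .x, none], [0, 1, 1, 0, 2, 3], []⟩,
  ⟨.ofNat 15984, phL, [], [some .z, some .x, some (.m .x .x), none], [0, 1, 2, 2, 3, 0], []⟩,
  ⟨.ofNat 58320, phL, [], [some .x, some (.m .x .x), none, some .z], [0, 1, 2, 3, 1, 3], []⟩,
  ⟨.ofNat 13824, phL, [], [some (.m .z .x), some (.m .x .x), none, some .z, some .x], [0, 1, 2, 3, 4, 4], []⟩,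
  ⟨.negSucc 37367, phL, [], [some .z, some .x, none, some (.m .x .x)], [0, 1, 2, 3, 3, 0], []⟩,
  ⟨.ofNat 13824, phL, [], [some (.m .x .z), some (.m .x .x), none, some .z, some .x], [0, 1, 2, 3, 4, 4], []⟩,
  ⟨.ofNat 234, nfL, [], [some .x, none, some (.m .z .z)], [0, 0, 0, 0, 1, 2, 0], []⟩,
  ⟨.ofNat 702, nfL, [], [some .x, some (.m .z .z), none], [0, 0, 0, 0, 1, 0, 2], []⟩]

end Pool.Agent.W429.TCI.C.Data
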