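import Pool.Agent.W429.TCI.C.SE
set_option autoImplicit false

/-! The two identities. -/

namespace Pool.Agent.W429.TCI.C

/-- leaves `0..4`: the skew arguments of `nf`, `5` its last argument, `6` the other factor of the commutator -/
def nfL : FS := [
  (.ofNat 1, .br (.br (.br (.v 0) (.v 5)) (.jo (.br (.v 1) (.v 2)) (.br (.v 3) (.v 4)))) (.v 6)),
  (.negSucc 0, .br (.br (.br (.v 0) (.v 5)) (.jo (.br (.v 1) (.v 3)) (.br (.v 2) (.v 4)))) (.v 6)),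
  (.ofNat 1, .br (.br (.br (.v 0) (.v 5)) (.jo (.br (.v 1) (.v 4)) (.br (.v 2) (.v 3)))) (.v 6)),
  (.negSucc 0, .br (.br (.br (.v 1) (.v 5)) (.jo (.br (.v 0) (.v 2)) (.br (.v 3) (.v 4)))) (.v 6)),
  (.ofNat 1, .br (.br (.br (.v 1) (.v 5)) (.jo (.br (.v 0) (.v 3)) (.br (.v 2) (.v 4)))) (.v 6)),
  (.negSucc 0, .br (.br (.br (.v 1) (.v 5)) (.jo (.br (.v 0) (.v 4)) (.br (.v 2) (.v 3)))) (.v 6)),
  (.ofNat 1, .br (.br (.br (.v 2) (.v 5)) (.jo (.br (.v 0) (.v 1)) (.br (.v 3) (.v 4)))) (.v 6)),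
  (.negSucc 0, .br (.br (.br (.v 2) (.v 5)) (.jo (.br (.v 0) (.v 3)) (.br (.v 1) (.v 4)))) (.v 6)),
  (.ofNat 1, .br (.br (.br (.v 2) (.v 5)) (.jo (.br (.v 0) (.v 4)) (.br (.v 1) (.v 3)))) (.v 6)),
  (.negSucc 0, .br (.br (.br (.v 3) (.v 5)) (.jo (.br (.v 0) (.v 1)) (.br (.v 2) (.v 4)))) (.v 6)),
  (.ofNat 1, .br (.br (.br (.v 3) (.v 5)) (.jo (.br (.v 0) (.v 2)) (.br (.v 1) (.v 4)))) (.v 6)),
  (.negSucc 0, .br (.br (.br (.v 3) (.v 5)) (.jo (.br (.v 0) (.v 4)) (.br (.v 1) (.v 2)))) (.v 6)),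
  (.ofNat 1, .br (.br (.br (.v 4) (.v 5)) (.jo (.br (.v 0) (.v 1)) (.br (.v 2) (.v 3)))) (.v 6)),
  (.negSucc 0, .br (.br (.br (.v 4) (.v 5)) (.jo (.br (.v 0) (.v 2)) (.br (.v 1) (.v 3)))) (.v 6)),
  (.ofNat 1, .br (.br (.br (.v 4) (.v 5)) (.jo (.br (.v 0) (.v 3)) (.br (.v 1) (.v 2)))) (.v 6)),
  (.negSucc 1, .br (.jo (.br (.v 0) (.as (.v 2) (.v 3) (.v 4))) (.br (.v 1) (.v 5))) (.v 6)),
  (.ofNat 2, .br (.jo (.br (.v 0) (.as (.v 1) (.v 3) (.v 4))) (.br (.v 2) (.v 5))) (.v 6)),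
  (.negSucc 1, .br (.jo (.br (.v 0) (.as (.v 1) (.v 2) (.v 4))) (.br (.v 3) (.v 5))) (.v 6)),
  (.ofNat 2, .br (.jo (.br (.v 0) (.as (.v 1) (.v 2) (.v 3))) (.br (.v 4) (.v 5))) (.v 6)),
  (.ofNat 2, .br (.jo (.br (.v 1) (.as (.v 2) (.v 3) (.v 4))) (.br (.v 0) (.v 5))) (.v 6)),
  (.negSucc 1, .br (.jo (.br (.v 1) (.as (.v 0) (.v 3) (.v 4))) (.br (.v 2) (.v 5))) (.v 6)),
  (.ofNat 2, .br (.jo (.br (.v 1) (.as (.v 0) (.v 2) (.v 4))) (.br (.v 3) (.v 5))) (.v 6)),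
  (.negSucc 1, .br (.jo (.br (.v 1) (.as (.v 0) (.v 2) (.v 3))) (.br (.v 4) (.v 5))) (.v 6)),
  (.negSucc 1, .br (.jo (.br (.v 2) (.as (.v 1) (.v 3) (.v 4))) (.br (.v 0) (.v 5))) (.v 6)),
  (.ofNat 2, .br (.jo (.br (.v 2) (.as (.v 0) (.v 3) (.v 4))) (.br (.v 1) (.v 5))) (.v 6)),
  (.negSucc 1, .br (.jo (.br (.v 2) (.as (.v 0) (.v 1) (.v 4))) (.br (.v 3) (.v 5))) (.v 6)),
  (.ofNat 2, .br (.jo (.br (.v 2) (.as (.v 0) (.v 1) (.v 3))) (.br (.v 4) (.v 5))) (.v 6)),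
  (.ofNat 2, .br (.jo (.br (.v 3) (.as (.v 1) (.v 2) (.v 4))) (.br (.v 0) (.v 5))) (.v 6)),
  (.negSucc 1, .br (.jo (.br (.v 3) (.as (.v 0) (.v 2) (.v 4))) (.br (.v 1) (.v 5))) (.v 6)),
  (.ofNat 2, .br (.jo (.br (.v 3) (.as (.v 0) (.v 1) (.v 4))) (.br (.v 2) (.v 5))) (.v 6)),
  (.negSucc 1, .br (.jo (.br (.v 3) (.as (.v 0) (.v 1) (.v 2))) (.br (.v 4) (.v 5))) (.v 6)),
  (.negSucc 1, .br (.jo (.br (.v 4) (.as (.v 1) (.v 2) (.v 3))) (.br (.v 0) (.v 5))) (.v 6)),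
  (.ofNat 2, .br (.jo (.br (.v 4) (.as (.v 0) (.v 2) (.v 3))) (.br (.v 1) (.v 5))) (.v 6)),
  (.negSucc 1, .br (.jo (.br (.v 4) (.as (.v 0) (.v 1) (.v 3))) (.br (.v 2) (.v 5))) (.v 6)),
  (.ofNat 2, .br (.jo (.br (.v 4) (.as (.v 0) (.v 1) (.v 2))) (.br (.v 3) (.v 5))) (.v 6)),
  (.ofNat 4, .br (.jo (.br (.v 5) (.as (.v 2) (.v 3) (.v 4))) (.br (.v 0) (.v 1))) (.v 6)),
  (.negSucc 3, .br (.jo (.br (.v 5) (.as (.v 1) (.v 3) (.v 4))) (.br (.v 0) (.v 2))) (.v 6)),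
  (.ofNat 4, .br (.jo (.br (.v 5) (.as (.v 1) (.v 2) (.v 4))) (.br (.v 0) (.v 3))) (.v 6)),
  (.negSucc 3, .br (.jo (.br (.v 5) (.as (.v 1) (.v 2) (.v 3))) (.br (.v 0) (.v 4))) (.v 6)),
  (.ofNat 4, .br (.jo (.br (.v 5) (.as (.v 0) (.v 3) (.v 4))) (.br (.v 1) (.v 2))) (.v 6)),
  (.negSucc 3, .br (.jo (.br (.v 5) (.as (.v 0) (.v 2) (.v 4))) (.br (.v 1) (.v 3))) (.v 6)),
  (.ofNat 4, .br (.jo (.br (.v 5) (.as (.v 0) (.v 2) (.v 3))) (.br (.v 1) (.v 4))) (.v 6)),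
  (.ofNat 4, .br (.jo (.br (.v 5) (.as (.v 0) (.v 1) (.v 4))) (.br (.v 2) (.v 3))) (.v 6)),
  (.negSucc 3, .br (.jo (.br (.v 5) (.as (.v 0) (.v 1) (.v 3))) (.br (.v 2) (.v 4))) (.v 6)),
  (.ofNat 4, .br (.jo (.br (.v 5) (.as (.v 0) (.v 1) (.v 2))) (.br (.v 3) (.v 4))) (.v 6))]

/-- leaves `0,1,2`: symmetrized, `3,4`, and `5` the other factor of the commutator -/
def phL : FS := [
  (.ofNat 1, .br (.br (.jo (.br (.v 0) (.v 3)) (.br (.v 1) (.v 4))) (.v 2)) (.v 5)),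
  (.ofNat 1, .br (.br (.jo (.br (.v 0) (.v 3)) (.br (.v 2) (.v 4))) (.v 1)) (.v 5)),
  (.ofNat 1, .br (.br (.jo (.br (.v 1) (.v 3)) (.br (.v 0) (.v 4))) (.v 2)) (.v 5)),
  (.ofNat 1, .br (.br (.jo (.br (.v 1) (.v 3)) (.br (.v 2) (.v 4))) (.v 0)) (.v 5)),
  (.ofNat 1, .br (.br (.jo (.br (.v 2) (.v 3)) (.br (.v 0) (.v 4))) (.v 1)) (.v 5)),
  (.ofNat 1, .br (.br (.jo (.br (.v 2) (.v 3)) (.br (.v 1) (.v 4))) (.v 0)) (.v 5))]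

end Pool.Agent.W429.TCI.C
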