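import Pool.Agent.Helper805.NucCert.Cert
set_option autoImplicit false

/-! Structured multilinear terms, their ordinary and super values, and their operator words. -/

namespace Pool.Agent.W429.TCI.C
open Pool.Agent.Helper805.NucCert Pool.Agent.Helper805.NucCert.Tri

/-- structured multilinear terms -/
inductive Tm
  | v : ℕ → Tm
  | mul : Tm → Tm → Tm
  | br : Tm → Tm → Tm
  | jo : Tm → Tm → Tm
  | as : Tm → Tm → Tm → Tm

namespace Tm

/-- leaves, from left to right -/
noncomputable def lv (t : Tm) : List ℕ :=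
  Tm.rec (motive := fun _ => List ℕ) (fun i => [i]) (fun _ _ a b => List.append a b) (fun _ _ a b => List.append a b)
    (fun _ _ a b => List.append a b) (fun _ _ _ a b c => List.append a (List.append b c)) t

/-- renaming of the leaves -/
noncomputable def map (s : ℕ → ℕ) (t : Tm) : Tm :=
  Tm.rec (motive := fun _ => Tm) (fun i => .v (s i)) (fun _ _ a b => .mul a b) (fun _ _ a b => .br a b)
    (fun _ _ a b => .jo a b) (fun _ _ _ a b c => .as a b c) t

/-- equality test -/
noncomputable def beq (s : Tm) : Tm → Bool :=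
  Tm.rec (motive := fun _ => Tm → Bool)
    (fun i t => Tm.rec (motive := fun _ => Bool) (fun j => Nat.beq i j) (fun _ _ _ _ => false) (fun _ _ _ _ => false)
      (fun _ _ _ _ => false) (fun _ _ _ _ _ _ => false) t)
    (fun _ _ a b t => Tm.rec (motive := fun _ => Bool) (fun _ => false) (fun c d _ _ => and (a c) (b d))
      (fun _ _ _ _ => false) (fun _ _ _ _ => false) (fun _ _ _ _ _ _ => false) t)
    (fun _ _ a b t => Tm.rec (motive := fun _ => Bool) (fun _ => false) (fun _ _ _ _ => false)
      (fun c d _ _ => and (a c) (b d)) (fun _ _ _ _ => false) (fun _ _ _ _ _ _ => false) t)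
    (fun _ _ a b t => Tm.rec (motive := fun _ => Bool) (fun _ => false) (fun _ _ _ _ => false)
      (fun _ _ _ _ => false) (fun c d _ _ => and (a c) (b d)) (fun _ _ _ _ _ _ => false) t)
    (fun _ _ _ a b c t => Tm.rec (motive := fun _ => Bool) (fun _ => false) (fun _ _ _ _ => false)
      (fun _ _ _ _ => false) (fun _ _ _ _ => false) (fun p q r _ _ _ => and (a p) (and (b q) (c r))) t) s

section
open Pool.Agent.Helper805.Nuc.Tens
variable {R : Type} [NonUnitalNonAssocRing R]

/-- ordinary value -/
def ev0 (u : ℕ → R) : Tm → R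
  | v i => u i
  | mul a b => ev0 u a * ev0 u b
  | br a b => Pool.Agent.Helper805.Nuc.Tens.br (ev0 u a) (ev0 u b)
  | jo a b => Pool.Agent.Helper805.Nuc.Tens.jo (ev0 u a) (ev0 u b)
  | as a b c => Pool.Agent.Helper805.Nuc.Tens.as (ev0 u a) (ev0 u b) (ev0 u c)

/-- degree -/
def dg (p : ℕ → ℕ) : Tm → ℕ
  | v i => p i
  | mul a b => dg p a + dg p b
  | br a b => dg p a + dg p b
  | jo a b => dg p a + dg p b
  | as a b c => dg p a + dg p b + dg p c

/-- super value, for arguments `u i` of degrees `p i` -/
def evS (p : ℕ → ℕ) (u : ℕ → R) : Tm → R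
  | v i => u i
  | mul a b => evS p u a * evS p u b
  | br a b => evS p u a * evS p u b - ((-1 : ℤ) ^ (dg p a * dg p b)) • (evS p u b * evS p u a)
  | jo a b => evS p u a * evS p u b + ((-1 : ℤ) ^ (dg p a * dg p b)) • (evS p u b * evS p u a)
  | as a b c => Pool.Agent.Helper805.Nuc.Tens.as (evS p u a) (evS p u b) (evS p u c)

end
end Tm

/-- sign of two parities -/
def sg2 (a b : ℕ) : ℤ := cond (Nat.beq (Nat.mul (Nat.mod a 2) (Nat.mod b 2)) 1) (Int.negSucc 0) (Int.ofNat 1)

/-- insertion into a sorted list -/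
noncomputable def insL (i : ℕ) (l : List ℕ) : List ℕ :=
  List.rec [i] (fun j t ih => cond (Nat.blt j i) (j :: ih) (i :: j :: t)) l
/-- its sign -/
noncomputable def insS (p : ℕ → ℕ) (i : ℕ) (l : List ℕ) : ℤ :=
  List.rec (Int.ofNat 1) (fun j _ ih => cond (Nat.blt j i) (Int.mul (sg2 (p i) (p j)) ih) (Int.ofNat 1)) l
/-- insertion sort -/
noncomputable def srt (l : List ℕ) : List ℕ := List.rec [] (fun i _ ih => insL i ih) l
/-- the sign of sorting -/
noncomputable def eps (p : ℕ → ℕ) (l : List ℕ) : ℤ :=
  List.rec (Int.ofNat 1) (fun i t ih => Int.mul (insS p i (srt t)) ih) l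

/-- formal sums of terms -/
abbrev FS := List (ℤ × Tm)

section
variable {R : Type} [NonUnitalNonAssocRing R]
/-- ordinary identity -/
def Idt (B : Type) [NonUnitalNonAssocRing B] (L : FS) : Prop :=
  ∀ a : ℕ → B, (L.map (fun q => q.1 • q.2.ev0 a)).sum = 0
/-- super identity -/
def SRel (P : ℕ → AddSubgroup R) (L : FS) : Prop :=
  ∀ (p : ℕ → ℕ) (u : ℕ → R), (∀ i, u i ∈ P (p i % 2)) →
    (L.map (fun q => (q.1 * eps p q.2.lv) • q.2.evS p u)).sum = 0
end

/-- symbolic elements: constants (operators of right and twisted left multiplication), or elements depending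
linearly on the operand -/
inductive SE
  | c : ℕ → Tri → Tri → SE
  | v : ℕ → Tri → SE
  | bad : SE

namespace SE

noncomputable def par (e : ℕ) (s : SE) : ℕ := SE.rec (fun d _ _ => d) (fun d _ => Nat.add d e) 0 s

/-- associator operator `m ↦ ± (A, m, B)` -/
noncomputable def aop (d d' : ℕ) (L R' : Tri) : Tri :=
  Tri.add (Tri.mul R' L) (Tri.smul (Int.neg (sg2 d d')) (Tri.mul L R'))

noncomputable def mulcc (d : ℕ) (R L : Tri) (d' : ℕ) (R' L' A : Tri) : SE :=
  .c (Nat.add d d') (Tri.add (Tri.mul R' R) A)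
    (Tri.add (Tri.smul (sg2 d d') (Tri.mul L L')) (Tri.smul (Int.negSucc 0) A))

noncomputable def mul (e : ℕ) (s t : SE) : SE :=
  SE.rec (fun d R L => SE.rec (fun d' R' L' => mulcc d R L d' R' L' (aop d d' L R'))
      (fun d' E => .v (Nat.add d d') (Tri.smul (sg2 (Nat.add e d') d) (Tri.mul L E))) .bad t)
    (fun d E => SE.rec (fun d' R' _ => .v (Nat.add d d') (Tri.mul R' E)) (fun _ _ => .bad) .bad t) .bad s

noncomputable def add (s t : SE) : SE :=
  SE.rec (fun d R L => SE.rec (fun d' R' L' => cond (Nat.beq d d') (.c d (Tri.add R R') (Tri.add L L')) .bad)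
      (fun _ _ => .bad) .bad t)
    (fun d E => SE.rec (fun _ _ _ => .bad) (fun d' E' => cond (Nat.beq d d') (.v d (Tri.add E E')) .bad) .bad t) .bad s

noncomputable def smul (k : ℤ) (s : SE) : SE :=
  SE.rec (fun d R L => .c d (Tri.smul k R) (Tri.smul k L)) (fun d E => .v d (Tri.smul k E)) .bad s

/-- commutator of two constants: `A` is the associator operator -/
noncomputable def brcc (d : ℕ) (R L : Tri) (d' : ℕ) (R' L' A : Tri) : SE :=
  .c (Nat.add d d') (Tri.add (Tri.add (Tri.mul R' R) (Tri.smul (Int.neg (sg2 d d')) (Tri.mul R R'))) (Tri.smul (Int.ofNat 2) A))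
    (Tri.add (Tri.add (Tri.smul (sg2 d d') (Tri.mul L L')) (Tri.smul (Int.negSucc 0) (Tri.mul L' L)))
      (Tri.smul (Int.negSucc 1) A))

noncomputable def jocc (d : ℕ) (R L : Tri) (d' : ℕ) (R' L' : Tri) : SE :=
  .c (Nat.add d d') (Tri.add (Tri.mul R' R) (Tri.smul (sg2 d d') (Tri.mul R R')))
    (Tri.add (Tri.smul (sg2 d d') (Tri.mul L L')) (Tri.mul L' L))

/-- general commutator -/
noncomputable def brg (e : ℕ) (s t : SE) : SE :=
  add (mul e s t) (smul (Int.neg (sg2 (par e s) (par e t))) (mul e t s))
noncomputable def jog (e : ℕ) (s t : SE) : SE :=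
  add (mul e s t) (smul (sg2 (par e s) (par e t)) (mul e t s))

noncomputable def br (e : ℕ) (s t : SE) : SE :=
  SE.rec (fun d R L => SE.rec (fun d' R' L' => brcc d R L d' R' L' (aop d d' L R')) (fun _ _ => brg e s t) .bad t)
    (fun _ _ => brg e s t) .bad s
noncomputable def jo (e : ℕ) (s t : SE) : SE :=
  SE.rec (fun d R L => SE.rec (fun d' R' L' => jocc d R L d' R' L') (fun _ _ => jog e s t) .bad t)
    (fun _ _ => jog e s t) .bad s
noncomputable def as (e : ℕ) (s t u : SE) : SE :=
  add (mul e (mul e s t) u) (smul (Int.negSucc 0) (mul e s (mul e t u)))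

/-- evaluation of a term -/
noncomputable def ev (e : ℕ) (g : ℕ → SE) (t : Tm) : SE :=
  Tm.rec (motive := fun _ => SE) (fun i => g i) (fun _ _ a b => mul e a b) (fun _ _ a b => br e a b)
    (fun _ _ a b => jo e a b) (fun _ _ _ a b c => as e a b c) t

/-- the operator word -/
noncomputable def poly (s : SE) : Tri := SE.rec (fun _ _ _ => .nil) (fun _ E => E) .nil s

/-- the operand -/
def oper : SE := .v 0 (.node (.ofNat 1) .nil .nil .nil .nil)
/-- constants -/
noncomputable def cst (t : Tr) : SE :=
  .c (Tr.rec (motive := fun _ => ℕ) 1 1 (fun _ _ a b => Nat.add a b) t) (Rp t) (Lp t)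
/-- arguments -/
noncomputable def arg (a : Option Tr) : SE := Option.rec oper (fun t => cst t) a

end SE

/-- `n`-th element -/
noncomputable def nth {α : Type} (d : α) (l : List α) : ℕ → α :=
  List.rec (fun _ => d) (fun a _ ih n => Nat.rec a (fun k _ => ih k) n) l

/-- add a term to a formal sum -/
noncomputable def insC (q : ℤ × Tm) (l : FS) : FS :=
  List.rec [q] (fun r t ih => cond (Tm.beq q.2 r.2) ((Int.add q.1 r.1, r.2) :: t) (r :: ih)) l
/-- combine equal terms -/
noncomputable def collect (l : FS) : FS := List.rec [] (fun q _ ih => insC q ih) l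
/-- remove zero terms -/
noncomputable def dropz (l : FS) : FS := List.rec [] (fun q _ ih => cond (isz q.1) ih (q :: ih)) l

/-- the substituted formal sum -/
noncomputable def subst (e : ℕ) (g : ℕ → SE) (s : ℕ → ℕ) (L : FS) : FS :=
  List.rec [] (fun q _ ih => (Int.mul q.1 (eps (fun i => SE.par e (g (s i))) q.2.lv), q.2.map s) :: ih) L

/-- symbolic value of a formal sum -/
noncomputable def tot (e : ℕ) (g : ℕ → SE) (L : FS) : SE :=
  List.rec SE.bad (fun q t ih => List.rec (SE.smul q.1 (SE.ev e g q.2))
    (fun _ _ _ => SE.add (SE.smul q.1 (SE.ev e g q.2)) ih) t) L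

/-- the operator word of an instance of a super identity; `e` = parity of the operand, `dict` = distinct arguments
(`none` = operand), `slots` = positions of the arguments in `dict` -/
noncomputable def relTri (L : FS) (e : ℕ) (dict : List (Option Tr)) (slots : List ℕ) : Tri :=
  (tot e (fun i => nth SE.bad (List.map SE.arg dict) i)
    (dropz (collect (subst e (fun i => nth SE.bad (List.map SE.arg dict) i) (nth 0 slots) L)))).poly

/-- the word of a letter: `0 = R_x`, `1 = L_x`, `2 = R_z`, `3 = L_z` -/
noncomputable def letter (k : ℕ) : Tri :=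
  Nat.rec lx (fun k _ => Nat.rec ly (fun k _ => Nat.rec lp (fun _ _ => lq) k) k) k

/-- instances of identities with a prefix word (applied before) and a suffix word (applied afterwards) -/
structure RI where
  co : ℤ
  L : FS
  pre : List ℕ
  dict : List (Option Tr)
  slots : List ℕ
  suf : List ℕ

/-- product with a prefix word -/
noncomputable def prew (l : List ℕ) (t : Tri) : Tri := List.rec t (fun k _ ih => Tri.mul ih (letter k)) l
/-- suffix word -/
noncomputable def sufw (l : List ℕ) (t : Tri) : Tri :=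
  List.rec (fun t => t) (fun k _ ih t => ih (Tri.mul (letter k) t)) l t

noncomputable def RI.tri (r : RI) : Tri :=
  Tri.smul r.co (prew r.pre (sufw r.suf (relTri r.L (List.length r.pre) r.dict r.slots)))

noncomputable def RIs (l : List RI) : Tri := List.rec .nil (fun r _ ih => Tri.add r.tri ih) l

end Pool.Agent.W429.TCI.C
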