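import Pool.Agent.W429.TCI.C.Idts
import Pool.Agent.W429.TCI.Stmts
import Pool.Agent.Helper805.NucCert.Target
set_option autoImplicit false

/-! Statements of the parts of the certificate argument (proofs elsewhere). -/

namespace Pool.Agent.W429.TCI.C
open Pool.Agent.Helper805.Nuc.Tens Pool.Agent.Helper805.Nuc.Free Pool.Agent.Helper805.Nuc.NFun
  Pool.Agent.Helper805.Nuc.Alt Pool.Agent.Helper805.NucCert Pool.Agent.W429.TCI

/-- TCI-C1: identities lift to the tensor product with the exterior algebra -/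
def S_C1 : Prop := ∀ (B : Type) [NonUnitalNonAssocRing B] (n k : ℕ) (L : FS),
  (∀ q ∈ L, srt q.2.lv = List.range k) → Idt B L → SRel (PP (A := B) (n := n)) L

/-- TCI-C2: soundness of the operator words of instances of super identities -/
def S_C2 : Prop := ∀ (R : Type) [NonUnitalNonAssocRing R] (P : ℕ → AddSubgroup R) (x z : R),
  SuperAlt R P → x ∈ P 1 → z ∈ P 1 →
  (∀ (L : FS), SRel P L → ∀ (e : ℕ) (dict : List (Option Tr)) (slots : List ℕ) (f : ℕ → R → R), Addi f →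
    ∀ m ∈ P (e % 2), ev x z f (relTri L e dict slots) e m = 0) ∧
  (∀ (l : List RI), (∀ r ∈ l, SRel P r.L) → ∀ (f : ℕ → R → R), Addi f → ∀ m ∈ P 0, ev x z f (RIs l) 0 m = 0)

/-- TCI-C3: the two identities -/
def S_C3 : Prop := ∀ (B : Type) [NonUnitalNonAssocRing B], IsAlt B → (∀ b : B, b + b = 0 → b = 0) →
  (∀ b : B, b + b + b = 0 → b = 0) →
  (∀ (x : Fin 5 → B) (y a : B), br (nf x y) a = 0) →
  (∀ x y a : B, br (br (br x y * br x y) x) a = 0) →
  Idt B nfL ∧ Idt B phL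

/-- TCI-C4: from the super identity to the multilinear one -/
def S_C4 : Prop := ∀ (B : Type) [NonUnitalNonAssocRing B], IsAlt B → ∀ K : ℤ,
  (∀ x ∈ PP (A := B) (n := 7) 1, ∀ y ∈ PP (A := B) (n := 7) 0, ∀ z ∈ PP (A := B) (n := 7) 1,
    K • as (jo (as x x x) (as x x y)) z z = 0) →
  ∀ (x : Fin 5 → B) (y r s : B), (2 * K) • as (nstar x y) r s = 0

/-- the certificate -/
def S_Cert : Prop := ∀ (R : Type) [NonUnitalNonAssocRing R] (P : ℕ → AddSubgroup R), SuperAlt R P →
  SRel P nfL → SRel P phL → ∀ x ∈ P 1, ∀ y ∈ P 0, ∀ z ∈ P 1,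
    (82944 : ℤ) • as (jo (as x x x) (as x x y)) z z = 0

/-- TCI-C5: assembly -/
def S_C5 : Prop := S_C1 → S_C3 → S_C4 → S_Cert → S_C

end Pool.Agent.W429.TCI.C
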